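import Pool.Agent.H826R3.SM.Points
import Pool.Agent.H826R3.SM.Rank

/-!
# Apolarity computations for `tr X³`
-/

namespace Pool.Agent.H826R3.SM

open MvPolynomial

variable {k : Type} [Field k]

lemma apolar_monomial {σ : Type} (g : MvPolynomial σ k) (s : σ →₀ ℕ) (c : k) :
    apolar g (monomial s c) = c * ((s.prod fun _ n => (n.factorial : k)) * coeff s g) := by
  have : (monomial s c : MvPolynomial σ k) = c • MvPolynomial.basisMonomials σ k s := by
    rw [MvPolynomial.coe_basisMonomials, smul_monomial, smul_eq_mul, mul_one]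
  rw [this, map_smul, smul_eq_mul]
  unfold apolar functional factorialProd
  rw [Module.Basis.constr_basis]

lemma factorial_single {σ : Type} [Fintype σ] [DecidableEq σ] (u : σ) (s : σ →₀ ℕ) :
    (((Finsupp.single u 1 + s).prod fun _ n => (n.factorial : k))) =
      ((s u : k) + 1) * s.prod fun _ n => (n.factorial : k) := by
  rw [Finsupp.prod_fintype _ _ (by simp), Finsupp.prod_fintype _ _ (by simp),
    ← Finset.mul_prod_erase _ _ (Finset.mem_univ u),
    ← Finset.mul_prod_erase (a := u) Finset.univ (fun i => ((s i).factorial : k))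
      (Finset.mem_univ u), ← mul_assoc]
  congr 1
  · simp only [Finsupp.add_apply, Finsupp.single_eq_same, add_comm 1 (s u), Nat.factorial_succ]
    push_cast
    ring
  · refine Finset.prod_congr rfl fun i hi => ?_
    rw [Finsupp.add_apply, Finsupp.single_eq_of_ne (Finset.ne_of_mem_erase hi), zero_add]

lemma apolar_X_mul {σ : Type} [Fintype σ] (g : MvPolynomial σ k) (u : σ) (F : MvPolynomial σ k) :
    apolar g (X u * F) = apolar (pderiv u g) F := by
  classical
  induction F using MvPolynomial.induction_on' with
  | monomial s c =>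
    rw [X, monomial_mul, one_mul, apolar_monomial, apolar_monomial, factorial_single,
      coeff_pderiv, add_comm s]
    ring
  | add p q hp hq => rw [mul_add, map_add, map_add, hp, hq]

lemma apolar_one {σ : Type} (g : MvPolynomial σ k) : apolar g 1 = coeff 0 g := by
  rw [show (1 : MvPolynomial σ k) = monomial 0 1 from rfl, apolar_monomial]
  simp

/-- closed paths -/
def clo {m : ℕ} (u v w : Fin m × Fin m) : Prop := u.2 = v.1 ∧ v.2 = w.1 ∧ w.2 = u.1

instance {m : ℕ} (u v w : Fin m × Fin m) : Decidable (clo u v w) := by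
  unfold clo; infer_instance

lemma three_deriv {σ : Type} [DecidableEq σ] (u v w x y z : σ) :
    coeff 0 (pderiv w (pderiv v (pderiv u (X x * X y * X z : MvPolynomial σ k)))) =
      (if x = u then 1 else 0) * (if y = v then 1 else 0) * (if z = w then 1 else 0) +
      (if x = u then 1 else 0) * (if z = v then 1 else 0) * (if y = w then 1 else 0) +
      (if y = u then 1 else 0) * (if x = v then 1 else 0) * (if z = w then 1 else 0) +
      (if y = u then 1 else 0) * (if z = v then 1 else 0) * (if x = w then 1 else 0) +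
      (if z = u then 1 else 0) * (if x = v then 1 else 0) * (if y = w then 1 else 0) +
      (if z = u then 1 else 0) * (if y = v then 1 else 0) * (if x = w then 1 else 0) := by
  have hX : ∀ p q : σ, pderiv p (X q : MvPolynomial σ k) = C (if q = p then 1 else 0) := by
    intro p q
    rw [pderiv_X]
    by_cases h : q = p
    · subst h; simp
    · simp [h]
  simp only [pderiv_mul, hX, map_add, pderiv_C, zero_mul, mul_zero, add_zero, zero_add,
    coeff_add, ← map_mul]
  simp only [← C_add, ← C_mul, coeff_zero_C]
  ring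

lemma sum_clo {m : ℕ} (p q r : Fin m × Fin m) :
    ∑ i : Fin m, ∑ j : Fin m, ∑ l : Fin m, (if (i, j) = p then (1 : k) else 0) *
      (if (j, l) = q then 1 else 0) * (if (l, i) = r then 1 else 0) =
      if clo p q r then 1 else 0 := by
  obtain ⟨p1, p2⟩ := p
  obtain ⟨q1, q2⟩ := q
  obtain ⟨r1, r2⟩ := r
  unfold clo
  rw [Finset.sum_eq_single p1, Finset.sum_eq_single p2, Finset.sum_eq_single q2]
  · simp only [Prod.mk.injEq, and_true, if_true, true_and]
    by_cases h1 : p2 = q1 <;> by_cases h2 : q2 = r1 <;> by_cases h3 : p1 = r2 <;>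
      simp [h1, h2, h3, eq_comm]
  · intro b _ hb
    simp [hb]
  · intro h; exact absurd (Finset.mem_univ _) h
  · intro b _ hb
    simp [hb]
  · intro h; exact absurd (Finset.mem_univ _) h
  · intro b _ hb
    simp [hb]
  · intro h; exact absurd (Finset.mem_univ _) h

lemma clo_cyc {m : ℕ} (u v w : Fin m × Fin m) : clo u v w ↔ clo v w u := by
  unfold clo
  constructor
  · rintro ⟨h1, h2, h3⟩; exact ⟨h2, h3, h1⟩
  · rintro ⟨h1, h2, h3⟩; exact ⟨h3, h1, h2⟩

lemma apolar_three {m : ℕ} (u v w : Fin m × Fin m) :
    apolar (trCube k m) (X u * X v * X w) =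
      3 * ((if clo u v w then 1 else 0) + (if clo v u w then 1 else 0)) := by
  have h0 : (X u * X v * X w : MvPolynomial (Fin m × Fin m) k) = X u * (X v * (X w * 1)) := by
    ring
  rw [h0, apolar_X_mul, apolar_X_mul, apolar_X_mul, apolar_one]
  unfold trCube
  simp only [map_sum, coeff_sum, three_deriv, Finset.sum_add_distrib]
  have e1 : ∀ p q r : Fin m × Fin m, ∑ i : Fin m, ∑ j : Fin m, ∑ l : Fin m,
      (if (i, j) = p then (1 : k) else 0) * (if (l, i) = r then 1 else 0) *
        (if (j, l) = q then 1 else 0) = if clo p q r then 1 else 0 := by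
    intro p q r
    rw [← sum_clo]
    refine Finset.sum_congr rfl fun i _ => Finset.sum_congr rfl fun j _ =>
      Finset.sum_congr rfl fun l _ => ?_
    ring
  have e2 : ∀ p q r : Fin m × Fin m, ∑ i : Fin m, ∑ j : Fin m, ∑ l : Fin m,
      (if (j, l) = q then (1 : k) else 0) * (if (i, j) = p then 1 else 0) *
        (if (l, i) = r then 1 else 0) = if clo p q r then 1 else 0 := by
    intro p q r
    rw [← sum_clo]
    refine Finset.sum_congr rfl fun i _ => Finset.sum_congr rfl fun j _ =>
      Finset.sum_congr rfl fun l _ => ?_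
    ring
  have e3 : ∀ p q r : Fin m × Fin m, ∑ i : Fin m, ∑ j : Fin m, ∑ l : Fin m,
      (if (j, l) = q then (1 : k) else 0) * (if (l, i) = r then 1 else 0) *
        (if (i, j) = p then 1 else 0) = if clo p q r then 1 else 0 := by
    intro p q r
    rw [← sum_clo]
    refine Finset.sum_congr rfl fun i _ => Finset.sum_congr rfl fun j _ =>
      Finset.sum_congr rfl fun l _ => ?_
    ring
  have e4 : ∀ p q r : Fin m × Fin m, ∑ i : Fin m, ∑ j : Fin m, ∑ l : Fin m,
      (if (l, i) = r then (1 : k) else 0) * (if (i, j) = p then 1 else 0) *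
        (if (j, l) = q then 1 else 0) = if clo p q r then 1 else 0 := by
    intro p q r
    rw [← sum_clo]
    refine Finset.sum_congr rfl fun i _ => Finset.sum_congr rfl fun j _ =>
      Finset.sum_congr rfl fun l _ => ?_
    ring
  have e5 : ∀ p q r : Fin m × Fin m, ∑ i : Fin m, ∑ j : Fin m, ∑ l : Fin m,
      (if (l, i) = r then (1 : k) else 0) * (if (j, l) = q then 1 else 0) *
        (if (i, j) = p then 1 else 0) = if clo p q r then 1 else 0 := by
    intro p q r
    rw [← sum_clo]
    refine Finset.sum_congr rfl fun i _ => Finset.sum_congr rfl fun j _ =>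
      Finset.sum_congr rfl fun l _ => ?_
    ring
  rw [sum_clo, e1, e2, e3, e4, e5]
  have c1 : clo u w v ↔ clo v u w := by rw [clo_cyc u w v, clo_cyc w v u]
  have c2 : clo w u v ↔ clo u v w := clo_cyc w u v
  have c3 : clo v w u ↔ clo u v w := by rw [clo_cyc v w u, clo_cyc w u v]
  have c4 : clo w v u ↔ clo v u w := clo_cyc w v u
  simp only [c1, c2, c3, c4]
  ring

end Pool.Agent.H826R3.SM
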