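import Pool.Agent.H826R3.SM.Apolar

/-!
# Section data for the algebras of matrix multiplication
-/

namespace Pool.Agent.H826R3.SM

open MvPolynomial

variable {k : Type} [Field k]

lemma degree_one_eq {σ : Type} {s : σ →₀ ℕ} (h : s.degree = 1) : ∃ u, s = Finsupp.single u 1 := by
  classical
  have hs : s ≠ 0 := by
    rintro rfl
    simp at h
  obtain ⟨u, hu⟩ := Finsupp.ne_iff.mp hs
  have hu' : 1 ≤ s u := Nat.one_le_iff_ne_zero.mpr hu
  have hle : Finsupp.single u 1 ≤ s := by
    rw [Finsupp.single_le_iff]
    exact hu'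
  obtain ⟨t, ht⟩ := exists_add_of_le hle
  refine ⟨u, ?_⟩
  have hd : t.degree = 0 := by
    rw [ht, map_add, Finsupp.degree_single] at h
    omega
  rw [Finsupp.degree_eq_zero_iff] at hd
  rw [ht, hd, add_zero]

lemma degree_two_eq {σ : Type} {s : σ →₀ ℕ} (h : s.degree = 2) :
    ∃ u v, s = Finsupp.single u 1 + Finsupp.single v 1 := by
  classical
  have hs : s ≠ 0 := by
    rintro rfl
    simp at h
  obtain ⟨u, hu⟩ := Finsupp.ne_iff.mp hs
  have hu' : 1 ≤ s u := Nat.one_le_iff_ne_zero.mpr hu
  have hle : Finsupp.single u 1 ≤ s := by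
    rw [Finsupp.single_le_iff]
    exact hu'
  obtain ⟨t, ht⟩ := exists_add_of_le hle
  have hd : t.degree = 1 := by
    rw [ht, map_add, Finsupp.degree_single] at h
    omega
  obtain ⟨v, hv⟩ := degree_one_eq hd
  exact ⟨u, v, by rw [ht, hv]⟩

lemma homogeneousComponent_monomial' {σ : Type} (e : ℕ) (s : σ →₀ ℕ) (c : k) :
    homogeneousComponent e (monomial s c : MvPolynomial σ k) =
      if s.degree = e then monomial s c else 0 := by
  rw [homogeneousComponent_of_mem (m := e) (n := s.degree) (isHomogeneous_monomial c rfl)]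
  by_cases h : s.degree = e
  · rw [if_pos h, if_pos h.symm]
  · rw [if_neg h, if_neg (fun h' => h h'.symm)]

lemma trCube_isHomogeneous (m : ℕ) : (trCube k m).IsHomogeneous 3 := by
  unfold trCube
  refine IsHomogeneous.sum _ _ _ fun i _ => IsHomogeneous.sum _ _ _ fun j _ =>
    IsHomogeneous.sum _ _ _ fun l _ => ?_
  exact ((isHomogeneous_X k _).mul (isHomogeneous_X k _)).mul (isHomogeneous_X k _)

lemma apolar_of_degree_ne {m n : ℕ} {H : MvPolynomial (Fin m × Fin m) k}
    (hH : H.IsHomogeneous n) (hn : n ≠ 3) : apolar (trCube k m) H = 0 := by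
  classical
  rw [H.as_sum, map_sum]
  refine Finset.sum_eq_zero fun s hs => ?_
  rw [apolar_monomial]
  have hd : s.degree = n := by
    have := hH (mem_support_iff.mp hs)
    rwa [Finsupp.degree_eq_weight_one]
  have : coeff s (trCube k m) = 0 := (trCube_isHomogeneous m).coeff_eq_zero (by rw [hd]; exact hn)
  rw [this, mul_zero, mul_zero]

lemma eval_comp_one {σ : Type} [Fintype σ] (v : σ → k) (F : MvPolynomial σ k) :
    eval v (homogeneousComponent 1 F) = ∑ u, coeff (Finsupp.single u 1) F * v u := by
  classical
  induction F using MvPolynomial.induction_on' with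
  | monomial s c =>
    rw [homogeneousComponent_monomial']
    by_cases h : s.degree = 1
    · rw [if_pos h]
      obtain ⟨w, rfl⟩ := degree_one_eq h
      rw [Finset.sum_eq_single w]
      · simp [eval_monomial]
      · intro b _ hb
        rw [coeff_monomial, if_neg, zero_mul]
        intro h'
        exact hb (Finsupp.single_left_injective one_ne_zero h').symm
      · intro h; exact absurd (Finset.mem_univ _) h
    · rw [if_neg h, map_zero]
      symm
      refine Finset.sum_eq_zero fun u _ => ?_
      rw [coeff_monomial, if_neg, zero_mul]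
      rintro rfl
      simp at h
  | add p q hp hq =>
    rw [map_add, map_add, hp, hq, ← Finset.sum_add_distrib]
    refine Finset.sum_congr rfl fun u _ => ?_
    rw [coeff_add, add_mul]

/-- the points `a_t ± b_t` -/
def pts {m r : ℕ} (a b : Fin r → Fin m → Fin m → k) : Fin r × Bool → Fin m × Fin m → k :=
  fun t s => if t.2 then a t.1 s.1 s.2 + b t.1 s.1 s.2 else a t.1 s.1 s.2 - b t.1 s.1 s.2

lemma apolar_comp_two [CharZero k] {m r : ℕ} {a b c : Fin r → Fin m → Fin m → k}
    (hh : ∀ u v w : Fin m × Fin m, (if clo u v w then (1 : k) else 0) =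
      ∑ t, a t u.1 u.2 * b t v.1 v.2 * c t w.1 w.2) (F : MvPolynomial (Fin m × Fin m) k)
    (w : Fin m × Fin m) :
    apolar (trCube k m) (homogeneousComponent 2 F * X w) =
      ∑ t, (3 / 2 * c t w.1 w.2) * (eval (pts a b (t, true)) (homogeneousComponent 2 F) -
        eval (pts a b (t, false)) (homogeneousComponent 2 F)) := by
  classical
  induction F using MvPolynomial.induction_on' with
  | monomial s d =>
    rw [homogeneousComponent_monomial']
    by_cases h : s.degree = 2
    · rw [if_pos h]
      obtain ⟨u, v, rfl⟩ := degree_two_eq h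
      have hmon : (monomial (Finsupp.single u 1 + Finsupp.single v 1) d :
          MvPolynomial (Fin m × Fin m) k) = C d * (X u * X v) := by
        rw [X, X, monomial_mul, C_mul_monomial]
        simp
      have h1 : apolar (trCube k m) (C d * (X u * X v) * X w) =
          d * (3 * ((if clo u v w then 1 else 0) + (if clo v u w then 1 else 0))) := by
        rw [mul_assoc, ← smul_eq_C_mul, map_smul, smul_eq_mul, apolar_three]
      rw [hmon, h1, hh u v w, hh v u w, ← Finset.sum_add_distrib, Finset.mul_sum, Finset.mul_sum]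
      refine Finset.sum_congr rfl fun t _ => ?_
      simp only [map_mul, eval_C, eval_X, pts, if_true, Bool.false_eq_true, if_false]
      ring
    · rw [if_neg h]
      simp
  | add p q hp hq =>
    rw [map_add, add_mul, map_add, hp, hq, ← Finset.sum_add_distrib]
    refine Finset.sum_congr rfl fun t _ => ?_
    rw [map_add, map_add]
    ring

lemma mem_annIdeal_of_two {m : ℕ} {F : MvPolynomial (Fin m × Fin m) k} (hF : F.IsHomogeneous 2)
    (h : ∀ w, apolar (trCube k m) (F * X w) = 0) : F ∈ annIdeal (trCube k m) := by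
  intro G
  induction G using MvPolynomial.induction_on' with
  | monomial s c =>
    by_cases hs : s.degree = 1
    · obtain ⟨w, rfl⟩ := degree_one_eq hs
      have : (monomial (Finsupp.single w 1) c : MvPolynomial (Fin m × Fin m) k) = C c * X w := by
        rw [X, C_mul_monomial, mul_one]
      rw [this, mul_left_comm, ← smul_eq_C_mul, map_smul, h w, smul_zero]
    · exact apolar_of_degree_ne (hF.mul (isHomogeneous_monomial c rfl)) (by omega)
  | add p q hp hq => rw [mul_add, map_add, hp, hq, add_zero]

theorem hasSec_bar [IsAlgClosed k] [CharZero k] {m r : ℕ} (hm : 1 ≤ m) (H : HasRank k m r) :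
    HasSec k (Abar k m) ((Fin r × Bool) × Fin 3) := by
  classical
  obtain ⟨a, b, c, hh⟩ := H
  have hclo : ∀ u v w : Fin m × Fin m, (if clo u v w then (1 : k) else 0) =
      ∑ t, a t u.1 u.2 * b t v.1 v.2 * c t w.1 w.2 := fun u v w => hh u.1 u.2 v.1 v.2 w.1 w.2
  have hr : ∃ t0 : Fin r, True := by
    by_contra hcon
    have h0 := hh ⟨0, hm⟩ ⟨0, hm⟩ ⟨0, hm⟩ ⟨0, hm⟩ ⟨0, hm⟩ ⟨0, hm⟩
    rw [Finset.sum_eq_zero (fun t _ => absurd ⟨t, trivial⟩ hcon)] at h0
    simp at h0
  obtain ⟨t0, -⟩ := hr
  obtain ⟨ζ, hζ⟩ := HasEnoughRootsOfUnity.exists_primitiveRoot k 3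
  refine hasSec_of_points (barIdeal k m) (pts a b) 3 ζ hζ (by norm_num) fun F hF => ?_
  have h0 : coeff 0 F = 0 := by
    have := hF 0 (by norm_num) (t0, true)
    rwa [homogeneousComponent_zero, eval_C] at this
  have h1 : ∀ u, coeff (Finsupp.single u 1) F = 0 := by
    intro u
    have hs : ∀ t, ∑ v, coeff (Finsupp.single v 1) F * a t v.1 v.2 = 0 := by
      intro t
      have e1 := hF 1 (by norm_num) (t, true)
      have e2 := hF 1 (by norm_num) (t, false)
      rw [eval_comp_one] at e1 e2
      have e3 : 2 * ∑ v, coeff (Finsupp.single v 1) F * a t v.1 v.2 = 0 := by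
        rw [← add_zero (0 : k)]
        nth_rewrite 1 [← e1]
        rw [← e2, ← Finset.sum_add_distrib, Finset.mul_sum]
        refine Finset.sum_congr rfl fun v _ => ?_
        simp only [pts, if_true, Bool.false_eq_true, if_false]
        ring
      exact (mul_eq_zero.mp e3).resolve_left two_ne_zero
    have key : ∑ v, coeff (Finsupp.single v 1) F *
        (if clo v (u.2, u.1) (u.1, u.1) then (1 : k) else 0) = 0 := by
      simp only [hclo]
      calc ∑ v, coeff (Finsupp.single v 1) F *
            ∑ t, a t v.1 v.2 * b t u.2 u.1 * c t u.1 u.1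
          = ∑ t, (b t u.2 u.1 * c t u.1 u.1) *
              ∑ v, coeff (Finsupp.single v 1) F * a t v.1 v.2 := by
            simp only [Finset.mul_sum]
            rw [Finset.sum_comm]
            refine Finset.sum_congr rfl fun t _ => Finset.sum_congr rfl fun v _ => ?_
            ring
        _ = 0 := by simp [hs]
    rw [Finset.sum_eq_single u] at key
    · rw [if_pos (by unfold clo; simp), mul_one] at key
      exact key
    · intro v _ hv
      rw [if_neg, mul_zero]
      unfold clo
      rintro ⟨c1, -, c3⟩
      simp only at c1 c3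
      exact hv (Prod.ext c3.symm c1)
    · intro h; exact absurd (Finset.mem_univ _) h
  have h2 : homogeneousComponent 2 F ∈ annIdeal (trCube k m) := by
    refine mem_annIdeal_of_two (homogeneousComponent_isHomogeneous 2 F) fun w => ?_
    rw [apolar_comp_two hclo]
    refine Finset.sum_eq_zero fun t _ => ?_
    rw [hF 2 (by norm_num) (t, true), hF 2 (by norm_num) (t, false), sub_zero, mul_zero]
  have h3 : F - homogeneousComponent 2 F ∈ Ideal.span (Set.range X) ^ 3 := by
    change _ ∈ idealOfVars (Fin m × Fin m) k ^ 3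
    rw [mem_pow_idealOfVars_iff']
    intro s hs
    rw [coeff_sub, coeff_homogeneousComponent]
    by_cases hd : s.degree = 2
    · rw [if_pos hd, sub_self]
    · rw [if_neg hd, sub_zero]
      rcases Nat.lt_or_ge s.degree 1 with h4 | h4
      · have : s.degree = 0 := by omega
        rw [Finsupp.degree_eq_zero_iff] at this
        rw [this, h0]
      · have : s.degree = 1 := by omega
        obtain ⟨u, rfl⟩ := degree_one_eq this
        exact h1 u
  have : F = homogeneousComponent 2 F + (F - homogeneousComponent 2 F) := by ring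
  rw [this]
  exact Submodule.add_mem_sup h2 h3

end Pool.Agent.H826R3.SM
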