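import Pool.Agent.H826R3.SM.Defs

/-!
# Functionals on reduced finite algebras over algebraically closed fields
-/

namespace Pool.Agent.H826R3.SM

section chars

variable {L : Type} [Field L] [IsAlgClosed L] {C : Type} [CommRing C] [Algebra L C]
  [Module.Finite L C] [IsReduced C]

lemma eq_zero_of_chars (x : C) (h : ∀ χ : C →ₐ[L] L, χ x = 0) : x = 0 := by
  have hart : IsArtinianRing C := IsArtinianRing.of_finite L C
  have hmem : x ∈ nilradical C := by
    rw [nilradical, ← Ideal.jacobson_eq_radical, Ideal.jacobson, Submodule.mem_sInf]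
    rintro M ⟨-, hM⟩
    let _ : Field (C ⧸ M) := Ideal.Quotient.field M
    have hbij : Function.Bijective (algebraMap L (C ⧸ M)) :=
      IsAlgClosed.algebraMap_bijective_of_isIntegral
    let e : L ≃ₐ[L] (C ⧸ M) := AlgEquiv.ofBijective (Algebra.ofId L (C ⧸ M)) hbij
    let χ : C →ₐ[L] L := e.symm.toAlgHom.comp (Ideal.Quotient.mkₐ L M)
    have hχ := h χ
    have : Ideal.Quotient.mkₐ L M x = 0 := by
      have h2 : e.symm (Ideal.Quotient.mkₐ L M x) = 0 := hχ
      exact (map_eq_zero_iff _ e.symm.injective).mp h2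
    exact Ideal.Quotient.eq_zero_iff_mem.mp this
  rwa [nilradical_eq_zero, Ideal.zero_eq_bot, Ideal.mem_bot] at hmem

lemma functional_eq_sum [Fintype (C →ₐ[L] L)] (Ψ : C →ₗ[L] L) :
    ∃ c : (C →ₐ[L] L) → L, ∀ x, Ψ x = ∑ χ : C →ₐ[L] L, χ x * c χ := by
  have : Ψ ∈ Submodule.span L (Set.range fun χ : C →ₐ[L] L => χ.toLinearMap) := by
    refine mem_span_of_iInf_ker_le_ker fun x hx => ?_
    rw [Submodule.mem_iInf] at hx
    have : x = 0 := eq_zero_of_chars x fun χ => by
      have := hx χ
      rwa [LinearMap.mem_ker] at this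
    rw [this]
    exact Submodule.zero_mem _
  rw [Submodule.mem_span_range_iff_exists_fun] at this
  obtain ⟨c, hc⟩ := this
  refine ⟨c, fun x => ?_⟩
  rw [← hc, LinearMap.sum_apply]
  refine Finset.sum_congr rfl fun χ _ => ?_
  simp [mul_comm]

end chars

end Pool.Agent.H826R3.SM
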