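import Pool.Agent.H826R3.SM.Defs

/-!
# Sections over `k⟦t⟧` give smoothable overschemes
-/

namespace Pool.Agent.H826R3.SM

open scoped TensorProduct PowerSeries
open MvPolynomial

/-- Section data: finitely many `k⟦X⟧`-points whose evaluations control `A` modulo `X`. -/
def HasSec (k : Type) [Field k] (A : Type) [CommRing A] [Algebra k A] (T : Type)
    [Fintype T] : Prop :=
  ∃ (σ : Type) (a : σ → A) (p : T → σ → k⟦X⟧) (h : ℕ),
    Algebra.adjoin k (Set.range a) = ⊤ ∧
    ∀ φ : A →ₗ[k] k, ∃ Λ : T → k⟦X⟧, ∀ M : MvPolynomial σ k, ∃ g : k⟦X⟧,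
      ∑ t, Λ t * aeval (p t) M = PowerSeries.X ^ h * g ∧
        PowerSeries.constantCoeff g = φ (aeval a M)

variable {k : Type} [Field k]

section key

variable {A : Type} [CommRing A] [Algebra k A] {T : Type} [Fintype T] {σ : Type}
  (a : σ → A) (p : T → σ → k⟦X⟧)

/-- evaluation at all sections -/
noncomputable def Phi : MvPolynomial σ k⟦X⟧ →ₐ[k⟦X⟧] (T → k⟦X⟧) := aeval (fun s t => p t s)

/-- evaluation in `A` -/
noncomputable def ev : MvPolynomial σ k⟦X⟧ →+* A :=
  eval₂Hom ((algebraMap k A).comp (PowerSeries.constantCoeff (R := k))) a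

lemma Phi_monomial (s : σ →₀ ℕ) (c : k⟦X⟧) (t : T) :
    Phi p (monomial s c) t = c * aeval (p t) (monomial s (1 : k)) := by
  unfold Phi
  rw [aeval_monomial, aeval_monomial]
  simp only [map_one, one_mul, Pi.mul_apply]
  congr 1
  rw [Finsupp.prod, Finsupp.prod, Finset.prod_apply]
  rfl

lemma ev_monomial (s : σ →₀ ℕ) (c : k⟦X⟧) :
    ev a (monomial s c) = algebraMap k A (PowerSeries.constantCoeff c) *
      aeval a (monomial s (1 : k)) := by
  unfold ev
  rw [coe_eval₂Hom, eval₂_monomial, aeval_monomial]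
  simp

lemma key {h : ℕ} {φ : A →ₗ[k] k} {Λ : T → k⟦X⟧}
    (hΛ : ∀ M : MvPolynomial σ k, ∃ g : k⟦X⟧, ∑ t, Λ t * aeval (p t) M = PowerSeries.X ^ h * g ∧
        PowerSeries.constantCoeff g = φ (aeval a M)) (F : MvPolynomial σ k⟦X⟧) :
    ∃ g : k⟦X⟧, ∑ t, Λ t * Phi p F t = PowerSeries.X ^ h * g ∧
      PowerSeries.constantCoeff g = φ (ev a F) := by
  induction F using MvPolynomial.induction_on' with
  | monomial s c =>
    obtain ⟨g, h1, h2⟩ := hΛ (monomial s 1)
    refine ⟨c * g, ?_, ?_⟩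
    · rw [mul_left_comm, ← h1, Finset.mul_sum]
      refine Finset.sum_congr rfl fun t _ => ?_
      rw [Phi_monomial]
      ring
    · rw [map_mul, h2, ev_monomial, ← Algebra.smul_def, map_smul, smul_eq_mul]
  | add F G hF hG =>
    obtain ⟨g1, h1, h1'⟩ := hF
    obtain ⟨g2, h2, h2'⟩ := hG
    refine ⟨g1 + g2, ?_, ?_⟩
    · rw [mul_add, ← h1, ← h2, ← Finset.sum_add_distrib]
      refine Finset.sum_congr rfl fun t _ => ?_
      rw [map_add, Pi.add_apply, mul_add]
    · rw [map_add, h1', h2', map_add, map_add]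

end key

end Pool.Agent.H826R3.SM
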