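import Pool.Agent.H826R3.SM.Crit

/-!
# Subalgebras of `k⟦t⟧^T` are smoothing families
-/

namespace Pool.Agent.H826R3.SM

open scoped TensorProduct PowerSeries
open MvPolynomial

variable {k : Type} [Field k]

section fam

variable {T : Type} [Fintype T] (S : Subalgebra k⟦X⟧ (T → k⟦X⟧))

instance : Module.Finite k⟦X⟧ S := by
  have : IsNoetherian k⟦X⟧ (T → k⟦X⟧) := inferInstance
  exact Module.Finite.of_injective S.val.toLinearMap Subtype.val_injective

instance : Module.IsTorsionFree k⟦X⟧ S :=
  Function.Injective.moduleIsTorsionFree (f := S.val.toLinearMap) Subtype.val_injective (fun r x => by simp)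

instance : Module.Free k⟦X⟧ S := Module.free_of_finite_type_torsion_free'

instance : Module.Flat k⟦X⟧ S := inferInstance

instance flatLaurent : Module.Flat k⟦X⟧ (LaurentSeries k) :=
  IsLocalization.flat (LaurentSeries k) (nonZeroDivisors k⟦X⟧)

instance geomRed_pi (K : Type) [Field K] : Algebra.IsGeometricallyReduced K (T → K) := by
  classical
  rw [Algebra.isGeometricallyReduced_field_iff]
  exact isReduced_of_injective
    (Algebra.TensorProduct.piScalarRight K K (AlgebraicClosure K) T)
    (Algebra.TensorProduct.piScalarRight K K (AlgebraicClosure K) T).injective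

lemma geomRed : Algebra.IsGeometricallyReduced (LaurentSeries k) (LaurentSeries k ⊗[k⟦X⟧] S) := by
  classical
  let e := Algebra.TensorProduct.piScalarRight k⟦X⟧ (LaurentSeries k) (LaurentSeries k) T
  let f : (LaurentSeries k ⊗[k⟦X⟧] S) →ₐ[LaurentSeries k] (LaurentSeries k ⊗[k⟦X⟧] (T → k⟦X⟧)) :=
    Algebra.TensorProduct.map (AlgHom.id _ _) S.val
  have hf : Function.Injective f :=
    Module.Flat.lTensor_preserves_injective_linearMap S.val.toLinearMap Subtype.val_injective
  exact Algebra.IsGeometricallyReduced.of_injective (e.toAlgHom.comp f)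
    (e.injective.comp hf)

end fam

end Pool.Agent.H826R3.SM
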