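import Pool.Agent.H826R3.SM.Crit2

/-!
# The criterion
-/

namespace Pool.Agent.H826R3.SM

open scoped TensorProduct PowerSeries
open MvPolynomial

variable {k : Type} [Field k]

lemma powerSeries_split (c : k⟦X⟧) : ∃ r, c = PowerSeries.C (PowerSeries.constantCoeff c)
    + PowerSeries.X * r := by
  have : PowerSeries.X ∣ c - PowerSeries.C (PowerSeries.constantCoeff c) := by
    rw [PowerSeries.X_dvd_iff]
    simp
  obtain ⟨r, hr⟩ := this
  exact ⟨r, by rw [← hr]; ring⟩

theorem HasSec.inSmoothable {A : Type} [CommRing A] [Algebra k A] {T : Type} [Fintype T]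
    (H : HasSec k A T) : ∃ D ≤ Fintype.card T, InSmoothable k A D := by
  classical
  obtain ⟨σ, a, p, h, hgen, hΛ⟩ := H
  have hker : ∀ F, Phi p F = 0 → ev (k := k) a F = 0 := by
    intro F hF
    rw [← Module.forall_dual_apply_eq_zero_iff k]
    intro φ
    obtain ⟨Λ, hΛ'⟩ := hΛ φ
    obtain ⟨g, h1, h2⟩ := key a p hΛ' F
    rw [hF] at h1
    simp only [Pi.zero_apply, mul_zero, Finset.sum_const_zero] at h1
    have hg : g = 0 := by
      rcases mul_eq_zero.mp h1.symm with h3 | h3
      · exact absurd h3 (pow_ne_zero _ PowerSeries.X_ne_zero)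
      · exact h3
    rw [← h2, hg, map_zero]
  set S : Subalgebra k⟦X⟧ (T → k⟦X⟧) := (Phi p).range with hS
  let q : MvPolynomial σ k⟦X⟧ →+* S := (Phi p).rangeRestrict.toRingHom
  have hq : Function.Surjective q := (Phi p).rangeRestrict_surjective
  have hqk : RingHom.ker q ≤ RingHom.ker (ev (k := k) a) := by
    intro F hF
    rw [RingHom.mem_ker] at hF ⊢
    exact hker F (congrArg Subtype.val hF)
  let π : S →+* A := q.liftOfSurjective hq ⟨ev a, hqk⟩
  have hπ : ∀ F, π (q F) = ev a F := fun F =>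
    q.liftOfRightInverse_comp_apply _ (Function.rightInverse_surjInv hq) ⟨ev a, hqk⟩ F
  have hπC : ∀ c : k⟦X⟧, π (algebraMap k⟦X⟧ S c) =
      algebraMap k A (PowerSeries.constantCoeff c) := by
    intro c
    have : algebraMap k⟦X⟧ S c = q (C c) := by
      apply Subtype.ext
      change _ = Phi p (C c)
      rw [← MvPolynomial.algebraMap_eq, AlgHom.commutes]
      rfl
    rw [this, hπ]
    unfold ev
    simp
  set I : Ideal S := Ideal.span {algebraMap k⟦X⟧ S PowerSeries.X} with hI
  have hIπ : ∀ x ∈ I, π x = 0 := by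
    intro x hx
    rw [hI, Ideal.mem_span_singleton] at hx
    obtain ⟨y, rfl⟩ := hx
    rw [map_mul, hπC]
    simp
  obtain ⟨B, cB, mkB, hmk, hkerB⟩ : ∃ (B : Type) (_ : CommRing B) (mkB : S →+* B),
      Function.Surjective mkB ∧ RingHom.ker mkB = I :=
    ⟨S ⧸ I, inferInstance, Ideal.Quotient.mk I, Ideal.Quotient.mk_surjective, Ideal.mk_ker⟩
  let ι : k →+* B := mkB.comp ((algebraMap k⟦X⟧ S).comp PowerSeries.C)
  let algB : Algebra k B := ι.toAlgebra
  have hsm : ∀ (c : k) (x : S), c • mkB x = mkB (algebraMap k⟦X⟧ S (PowerSeries.C c) * x) := by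
    intro c x
    rw [Algebra.smul_def, map_mul]
    rfl
  -- spanning
  obtain ⟨b⟩ : Nonempty (Module.Basis (Fin (Module.finrank k⟦X⟧ S)) k⟦X⟧ S) :=
    ⟨Module.finBasis k⟦X⟧ S⟩
  have hspan : Submodule.span k (Set.range fun i => mkB (b i)) = ⊤ := by
    rw [eq_top_iff]
    rintro x -
    obtain ⟨x, rfl⟩ := hmk x
    rw [← b.sum_repr x, map_sum]
    refine Submodule.sum_mem _ fun i _ => ?_
    obtain ⟨r, hr⟩ := powerSeries_split (b.repr x i)
    rw [hr, add_smul, map_add]
    have h0 : mkB ((PowerSeries.X * r) • b i) = 0 := by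
      rw [← RingHom.mem_ker, hkerB, mul_smul, Algebra.smul_def]
      exact I.mul_mem_right _ (Ideal.mem_span_singleton_self _)
    rw [h0, add_zero, Algebra.smul_def, ← hsm]
    exact Submodule.smul_mem _ _ (Submodule.subset_span ⟨i, rfl⟩)
  have hrk : Module.finrank k⟦X⟧ S ≤ Fintype.card T := by
    have := LinearMap.finrank_le_finrank_of_injective (f := S.val.toLinearMap)
      Subtype.val_injective
    rwa [Module.finrank_fintype_fun_eq_card] at this
  have hfin : Module.Finite k B :=
    ⟨⟨Set.Finite.toFinset (Set.finite_range fun i => mkB (b i)), by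
      rw [Set.Finite.coe_toFinset]; exact hspan⟩⟩
  have hle : Module.finrank k B ≤ Fintype.card T := by
    have h1 := finrank_range_le_card (R := k) (fun i => mkB (b i))
    rw [Set.finrank, hspan, finrank_top, Fintype.card_fin] at h1
    exact h1.trans hrk
  refine ⟨Module.finrank k B, hle, B, cB, algB, hfin, ?_, rfl, ?_⟩
  · exact ⟨S, inferInstance, inferInstance, inferInstance, inferInstance, geomRed S,
      (Ideal.quotEquivOfEq hkerB.symm).trans (RingHom.quotientKerEquivOfSurjective hmk),
      fun c => rfl⟩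
  · have hfac : RingHom.ker mkB ≤ RingHom.ker π := by
      rw [hkerB]
      intro x hx
      exact hIπ x hx
    let f0 : B →+* A := mkB.liftOfSurjective hmk ⟨π, hfac⟩
    have hf0 : ∀ x, f0 (mkB x) = π x := fun x =>
      mkB.liftOfRightInverse_comp_apply _ (Function.rightInverse_surjInv hmk) ⟨π, hfac⟩ x
    refine ⟨{ f0 with commutes' := ?_ }, ?_⟩
    · intro c
      change f0 (mkB (algebraMap k⟦X⟧ S (PowerSeries.C c))) = _
      rw [hf0, hπC]
      simp
    · intro y
      have hy : y ∈ Algebra.adjoin k (Set.range a) := by rw [hgen]; trivial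
      rw [Algebra.adjoin_range_eq_range_aeval] at hy
      obtain ⟨F, hF⟩ := hy
      refine ⟨mkB (q (MvPolynomial.map PowerSeries.C F)), ?_⟩
      change f0 (mkB _) = y
      rw [hf0, hπ, ← hF]
      unfold ev
      rw [coe_eval₂Hom, eval₂_map]
      change _ = aeval a F
      rw [aeval_def]
      congr 1

end Pool.Agent.H826R3.SM
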