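import Pool.Agent.H826R3.SM.Chars

/-!
# Decomposition of the multiplication of a smoothing family
-/

namespace Pool.Agent.H826R3.SM

open scoped TensorProduct PowerSeries

section decomp

variable {k : Type} [Field k] {𝒜 : Type} [CommRing 𝒜] [Algebra k⟦X⟧ 𝒜] [Module.Finite k⟦X⟧ 𝒜]
  [Module.Free k⟦X⟧ 𝒜]

theorem decomp
    (hred : Algebra.IsGeometricallyReduced (LaurentSeries k) (LaurentSeries k ⊗[k⟦X⟧] 𝒜)) :
    ∃ (T : Type) (_ : Fintype T), Fintype.card T ≤ Module.finrank k⟦X⟧ 𝒜 ∧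
      ∃ χ : T → 𝒜 →ₐ[k⟦X⟧] AlgebraicClosure (LaurentSeries k),
        ∀ Ψ : 𝒜 →ₗ[k⟦X⟧] k⟦X⟧, ∃ c : T → AlgebraicClosure (LaurentSeries k),
          ∀ x, algebraMap k⟦X⟧ (AlgebraicClosure (LaurentSeries k)) (Ψ x) = ∑ t, χ t x * c t := by
  let K := LaurentSeries k
  let L := AlgebraicClosure K
  let C := L ⊗[K] (K ⊗[k⟦X⟧] 𝒜)
  have hC : IsReduced C := (Algebra.isGeometricallyReduced_field_iff _ _).mp hred
  have hfin : Finite (C →ₐ[L] L) := inferInstance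
  let _ : Fintype (C →ₐ[L] L) := Fintype.ofFinite _
  have hcard : Fintype.card (C →ₐ[L] L) ≤ Module.finrank k⟦X⟧ 𝒜 := by
    have h1 := card_algHom_le_finrank L C L
    rw [Nat.card_eq_fintype_card] at h1
    have h2 : Module.finrank L C = Module.finrank K (K ⊗[k⟦X⟧] 𝒜) := Module.finrank_baseChange
    have h3 : Module.finrank K (K ⊗[k⟦X⟧] 𝒜) = Module.finrank k⟦X⟧ 𝒜 := Module.finrank_baseChange
    rw [h2, h3] at h1
    exact h1
  let ι : 𝒜 →ₐ[k⟦X⟧] C :=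
    ((Algebra.TensorProduct.includeRight : (K ⊗[k⟦X⟧] 𝒜) →ₐ[K] C).restrictScalars k⟦X⟧).comp
      (Algebra.TensorProduct.includeRight : 𝒜 →ₐ[k⟦X⟧] (K ⊗[k⟦X⟧] 𝒜))
  refine ⟨C →ₐ[L] L, inferInstance, hcard, fun χ => (χ.restrictScalars k⟦X⟧).comp ι, fun Ψ => ?_⟩
  let ΨK : (K ⊗[k⟦X⟧] 𝒜) →ₗ[K] K :=
    LinearMap.liftBaseChange K ((Algebra.linearMap k⟦X⟧ K) ∘ₗ Ψ)
  let ΨL : C →ₗ[L] L := LinearMap.liftBaseChange L ((Algebra.linearMap K L) ∘ₗ ΨK)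
  obtain ⟨c, hc⟩ := functional_eq_sum (L := L) (C := C) ΨL
  refine ⟨c, fun x => ?_⟩
  have := hc (ι x)
  have h5 : ΨL (ι x) = algebraMap k⟦X⟧ L (Ψ x) := by
    change ΨL (1 ⊗ₜ (1 ⊗ₜ x)) = _
    rw [LinearMap.liftBaseChange_one_tmul, LinearMap.comp_apply]
    change algebraMap K L (LinearMap.liftBaseChange K ((Algebra.linearMap k⟦X⟧ K) ∘ₗ Ψ)
      (1 ⊗ₜ x)) = _
    rw [LinearMap.liftBaseChange_one_tmul, LinearMap.comp_apply, Algebra.linearMap_apply,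
      ← IsScalarTower.algebraMap_apply]
  rw [← h5, this]
  rfl

end decomp

end Pool.Agent.H826R3.SM
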