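import Mathlib

/-!
# Smoothable finite algebras, smoothability defect, apolar algebras
-/

namespace Pool.Agent.H826R3.SM

open scoped TensorProduct PowerSeries

/-- For an `R`-algebra `𝒜` and a field `K` over `R`: the fibre `K ⊗ 𝒜` is geometrically reduced
over `K`. -/
abbrev GeomReducedFibre (R K 𝒜 : Type) [CommRing R] [Field K] [Algebra R K] [CommRing 𝒜]
    [Algebra R 𝒜] : Prop :=
  Algebra.IsGeometricallyReduced K (K ⊗[R] 𝒜)

/-- For an `R`-algebra `𝒜`, an element `t` of `R` and a ring map `c : k → R`: the `k`-algebra `A`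
is isomorphic to the fibre `𝒜 / t𝒜`. -/
abbrev IsFibre {R k : Type} (𝒜 A : Type) [CommRing R] [CommRing 𝒜] [Algebra R 𝒜] [Field k]
    [CommRing A] [Algebra k A] (t : R) (c : k →+* R) : Prop :=
  ∃ e : (𝒜 ⧸ Ideal.span {algebraMap R 𝒜 t}) ≃+* A,
    ∀ x : k, e (Ideal.Quotient.mk _ (algebraMap R 𝒜 (c x))) = algebraMap k A x

/-- A commutative `k`-algebra `A` is smoothable: it is the special fibre of a finite flat
`k⟦t⟧`-algebra with geometrically reduced generic fibre. -/
def Smoothable (k : Type) [Field k] (A : Type) [CommRing A] [Algebra k A] : Prop :=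
  ∃ (𝒜 : Type) (_ : CommRing 𝒜) (_ : Algebra k⟦X⟧ 𝒜),
    Module.Finite k⟦X⟧ 𝒜 ∧ Module.Flat k⟦X⟧ 𝒜 ∧
    GeomReducedFibre k⟦X⟧ (LaurentSeries k) 𝒜 ∧
    IsFibre 𝒜 A (PowerSeries.X : k⟦X⟧) (PowerSeries.C (R := k))

/-- `Spec A` is a closed subscheme of a finite smoothable scheme of degree `D`. -/
def InSmoothable (k : Type) [Field k] (A : Type) [CommRing A] [Algebra k A] (D : ℕ) : Prop :=
  ∃ (B : Type) (_ : CommRing B) (_ : Algebra k B), Module.Finite k B ∧ Smoothable k B ∧
    Module.finrank k B = D ∧ ∃ f : B →ₐ[k] A, Function.Surjective f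

/-- The smoothability defect of `Spec A`. -/
noncomputable def defect (k : Type) [Field k] (A : Type) [CommRing A] [Algebra k A] : ℕ :=
  sInf {e : ℕ | InSmoothable k A (Module.finrank k A + e)}

/-- The cubic form `tr(X³)` in the entries of an `m × m` matrix. -/
noncomputable def trCube (k : Type) [Field k] (m : ℕ) : MvPolynomial (Fin m × Fin m) k :=
  ∑ i, ∑ j, ∑ l, MvPolynomial.X (i, j) * MvPolynomial.X (j, l) * MvPolynomial.X (l, i)

/-- The linear functional with values `f` on the basis `b`. -/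
noncomputable def functional {k ι V : Type} [Field k] [AddCommGroup V] [Module k V]
    (b : Module.Basis ι k V) (f : ι → k) : V →ₗ[k] k := b.constr k f

/-- The number `s! = ∏ᵢ sᵢ!` in `k`. -/
noncomputable def factorialProd (k : Type) {σ : Type} [Field k] (s : σ →₀ ℕ) : k :=
  s.prod fun _ n => (n.factorial : k)

/-- Apolarity: the linear functional `F ↦ (F(∂) g)(0)`, that is, the linear functional with
`X^s ↦ s! · (coefficient of X^s in g)`. -/
noncomputable def apolar {k σ : Type} [Field k] (g : MvPolynomial σ k) :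
    MvPolynomial σ k →ₗ[k] k :=
  functional (MvPolynomial.basisMonomials σ k)
    fun s => factorialProd k s * MvPolynomial.coeff s g

/-- The apolar ideal `Ann(g)`: all `F` with `((F G)(∂) g)(0) = 0` for all `G`, i.e.
`F(∂) g = 0`. -/
noncomputable def annIdeal {k σ : Type} [Field k] (g : MvPolynomial σ k) :
    Ideal (MvPolynomial σ k) where
  carrier := {F | ∀ G, apolar g (F * G) = 0}
  zero_mem' := fun G => by simp
  add_mem' := fun {a b} ha hb G => by
    rw [add_mul, map_add, ha G, hb G, add_zero]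
  smul_mem' := fun c x hx G => by
    rw [smul_eq_mul, mul_comm c x, mul_assoc]
    exact hx _

/-- The ideal of the algebra `A_m / 𝔪³`, where `A_m = S / Ann(tr X³)`. -/
noncomputable def barIdeal (k : Type) [Field k] (m : ℕ) :
    Ideal (MvPolynomial (Fin m × Fin m) k) :=
  annIdeal (trCube k m) ⊔ Ideal.span (Set.range MvPolynomial.X) ^ 3

/-- The algebra `A_m / 𝔪³` with Hilbert function `(1, m², m²)`. -/
abbrev Abar (k : Type) [Field k] (m : ℕ) : Type :=
  MvPolynomial (Fin m × Fin m) k ⧸ barIdeal k m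

/-- The coordinate ring of the `n`-th power `Γ^{×n}`, `Γ = Spec A`. -/
abbrev Pow (k : Type) [Field k] (A : Type) [CommRing A] [Algebra k A] (n : ℕ) : Type :=
  PiTensorProduct k fun _ : Fin n => A

end Pool.Agent.H826R3.SM
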