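import Pool.Agent.H826R3.SM.Bar

/-!
# Dimension of the algebra `Abar` and the upper bound
-/

namespace Pool.Agent.H826R3.SM

open MvPolynomial

variable {k : Type} [Field k]

/-- the linear map controlling `Abar` -/
noncomputable def ctrl (k : Type) [Field k] (m : ℕ) : MvPolynomial (Fin m × Fin m) k →ₗ[k]
    (k × ((Fin m × Fin m) → k) × ((Fin m × Fin m) → k)) :=
  LinearMap.prod (MvPolynomial.lcoeff k 0)
    (LinearMap.prod (LinearMap.pi fun u => MvPolynomial.lcoeff k (Finsupp.single u 1))
      (LinearMap.pi fun w => (apolar (trCube k m)) ∘ₗ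
        (LinearMap.mulRight k (X w : MvPolynomial (Fin m × Fin m) k)) ∘ₗ
          (homogeneousComponent 2)))

lemma mem_barIdeal_of_ctrl {m : ℕ} {F : MvPolynomial (Fin m × Fin m) k} (hF : ctrl k m F = 0) :
    F ∈ barIdeal k m := by
  have h0 : coeff 0 F = 0 := congrArg Prod.fst hF
  have h1 : ∀ u, coeff (Finsupp.single u 1) F = 0 := fun u =>
    congrFun (congrArg (fun z => z.2.1) hF) u
  have h2' : ∀ w, apolar (trCube k m) (homogeneousComponent 2 F * X w) = 0 := fun w =>
    congrFun (congrArg (fun z => z.2.2) hF) w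
  have h2 : homogeneousComponent 2 F ∈ annIdeal (trCube k m) :=
    mem_annIdeal_of_two (homogeneousComponent_isHomogeneous 2 F) h2'
  have h3 : F - homogeneousComponent 2 F ∈ Ideal.span (Set.range X) ^ 3 := by
    change _ ∈ idealOfVars (Fin m × Fin m) k ^ 3
    rw [mem_pow_idealOfVars_iff']
    intro s hs
    classical
    rw [coeff_sub, coeff_homogeneousComponent]
    by_cases hd : s.degree = 2
    · rw [if_pos hd, sub_self]
    · rw [if_neg hd, sub_zero]
      rcases Nat.lt_or_ge s.degree 1 with h4 | h4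
      · have : s.degree = 0 := by omega
        rw [Finsupp.degree_eq_zero_iff] at this
        rw [this, h0]
      · have : s.degree = 1 := by omega
        obtain ⟨u, rfl⟩ := degree_one_eq this
        exact h1 u
  have : F = homogeneousComponent 2 F + (F - homogeneousComponent 2 F) := by ring
  rw [this]
  exact Submodule.add_mem_sup h2 h3

lemma abar_surj (k : Type) [Field k] (m : ℕ) :
    ∃ f : (LinearMap.range (ctrl k m)) →ₗ[k] Abar k m, Function.Surjective f := by
  let g : (MvPolynomial (Fin m × Fin m) k ⧸ LinearMap.ker (ctrl k m)) →ₗ[k] Abar k m :=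
    (LinearMap.ker (ctrl k m)).liftQ (Ideal.Quotient.mkₐ k (barIdeal k m)).toLinearMap (by
      intro F hF
      rw [LinearMap.mem_ker] at hF ⊢
      exact Ideal.Quotient.eq_zero_iff_mem.mpr (mem_barIdeal_of_ctrl hF))
  refine ⟨g ∘ₗ (ctrl k m).quotKerEquivRange.symm.toLinearMap, ?_⟩
  have hg : Function.Surjective g := by
    intro y
    obtain ⟨F, rfl⟩ := Ideal.Quotient.mk_surjective y
    exact ⟨Submodule.Quotient.mk F, rfl⟩
  exact hg.comp (ctrl k m).quotKerEquivRange.symm.surjective

instance abar_finite (m : ℕ) : Module.Finite k (Abar k m) := by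
  obtain ⟨f, hf⟩ := abar_surj k m
  exact Module.Finite.of_surjective f hf

lemma abar_finrank_le (m : ℕ) : Module.finrank k (Abar k m) ≤ 2 * m ^ 2 + 1 := by
  obtain ⟨f, hf⟩ := abar_surj k m
  have h1 := LinearMap.finrank_le_finrank_of_surjective hf
  have h2 := Submodule.finrank_le (LinearMap.range (ctrl k m))
  have h3 : Module.finrank k (k × ((Fin m × Fin m) → k) × ((Fin m × Fin m) → k)) =
      2 * m ^ 2 + 1 := by
    simp
    ring
  omega

lemma apolar_mul_of_mem {m : ℕ} {F : MvPolynomial (Fin m × Fin m) k} (hF : F ∈ barIdeal k m)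
    {G : MvPolynomial (Fin m × Fin m) k} (hG : ∀ s ∈ G.support, 1 ≤ s.degree) :
    apolar (trCube k m) (F * G) = 0 := by
  classical
  obtain ⟨F1, h1, F2, h2, rfl⟩ := Submodule.mem_sup.mp hF
  rw [add_mul, map_add]
  have e1 : apolar (trCube k m) (F1 * G) = 0 := h1 G
  rw [e1, zero_add]
  have h4 : F2 * G ∈ idealOfVars (Fin m × Fin m) k ^ 4 := by
    rw [pow_succ]
    refine Ideal.mul_mem_mul h2 ?_
    have := (mem_pow_idealOfVars_iff 1 G).mpr hG
    rwa [pow_one] at this
  rw [mem_pow_idealOfVars_iff] at h4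
  rw [(F2 * G).as_sum, map_sum]
  refine Finset.sum_eq_zero fun s hs => ?_
  rw [apolar_monomial]
  have hd := h4 s hs
  have : coeff s (trCube k m) = 0 := (trCube_isHomogeneous m).coeff_eq_zero (by omega)
  rw [this, mul_zero, mul_zero]

lemma linear_inj [CharZero k] {m : ℕ} (c : Fin m × Fin m → k)
    (h : ∑ u, C (c u) * X u ∈ barIdeal k m) : c = 0 := by
  classical
  funext u0
  obtain ⟨i, j⟩ := u0
  have key : ∀ v w : Fin m × Fin m,
      ∑ u, c u * (3 * ((if clo u v w then 1 else 0) + (if clo v u w then 1 else 0))) = 0 := by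
    intro v w
    have h1 := apolar_mul_of_mem h (G := X v * X w) (by
      intro s hs
      have hh : s.degree = 1 + 1 := by
        rw [Finsupp.degree_eq_weight_one]
        exact ((isHomogeneous_X k v).mul (isHomogeneous_X k w)) (mem_support_iff.mp hs)
      omega)
    rw [Finset.sum_mul, map_sum] at h1
    refine Eq.trans (Finset.sum_congr rfl fun u _ => ?_) h1
    rw [mul_assoc, ← mul_assoc (X u), ← smul_eq_C_mul, map_smul, apolar_three, smul_eq_mul]
  have k1 := key (j, i) (i, i)
  rw [Finset.sum_eq_single (i, j)] at k1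
  · rw [if_pos (by unfold clo; simp)] at k1
    have : (3 * ((1 : k) + (if clo (j, i) (i, j) (i, i) then 1 else 0))) ≠ 0 := by
      split_ifs <;> norm_num
    exact (mul_eq_zero.mp k1).resolve_right this
  · intro u _ hu
    have n1 : ¬ clo u (j, i) (i, i) := by
      unfold clo
      rintro ⟨c1, -, c3⟩
      exact hu (Prod.ext c3.symm c1)
    have n2 : ¬ clo (j, i) u (i, i) := by
      unfold clo
      rintro ⟨c1, c2, c3⟩
      simp only at c1 c2 c3
      exact hu (Prod.ext c1.symm (c2.trans c3))
    rw [if_neg n1, if_neg n2]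
    ring
  · intro hn; exact absurd (Finset.mem_univ _) hn

lemma le_abar_finrank [CharZero k] (m : ℕ) : m ^ 2 ≤ Module.finrank k (Abar k m) := by
  let f : ((Fin m × Fin m) → k) →ₗ[k] Abar k m :=
    (Ideal.Quotient.mkₐ k (barIdeal k m)).toLinearMap ∘ₗ
      (∑ u, (LinearMap.toSpanSingleton k _ (X u : MvPolynomial (Fin m × Fin m) k)) ∘ₗ
        LinearMap.proj u)
  have hf : Function.Injective f := by
    rw [injective_iff_map_eq_zero]
    intro c hc
    refine linear_inj c ?_
    rw [← Ideal.Quotient.eq_zero_iff_mem, ← hc]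
    change _ = Ideal.Quotient.mk (barIdeal k m) _
    congr 1
    rw [LinearMap.sum_apply]
    refine Finset.sum_congr rfl fun u _ => ?_
    simp [smul_eq_C_mul]
  have := LinearMap.finrank_le_finrank_of_injective hf
  rw [Module.finrank_fintype_fun_eq_card, Fintype.card_prod, Fintype.card_fin] at this
  rw [pow_two]
  exact this

/-- **Upper bound.** -/
theorem upper [IsAlgClosed k] [CharZero k] {m : ℕ} (hm : 1 ≤ m) (n : ℕ) :
    ∃ D ≤ (6 * rk k m) ^ n, InSmoothable k (Pow k (Abar k m) n) D := by
  have h := ((hasSec_bar hm (hasRank_rk (F := k) m)).pow n).inSmoothable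
  obtain ⟨D, hD, hS⟩ := h
  refine ⟨D, hD.trans (le_of_eq ?_), hS⟩
  rw [Fintype.card_fun, Fintype.card_prod, Fintype.card_prod, Fintype.card_fin, Fintype.card_bool,
    Fintype.card_fin, Fintype.card_fin]
  ring

end Pool.Agent.H826R3.SM
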