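import Pool.Agent.H826R3.SM.Defs

/-!
# Apolar algebras of dual forms, and an embedding theorem
-/

namespace Pool.Agent.H826R3.SM

open MvPolynomial

/-- `Ann Φ = {F | Φ(FG) = 0 for all G}`. -/
def annOf {k V : Type} [Field k] [CommRing V] [Algebra k V] (Φ : V →ₗ[k] k) : Ideal V where
  carrier := {F | ∀ G, Φ (F * G) = 0}
  zero_mem' := fun G => by simp
  add_mem' := fun {a b} ha hb G => by
    rw [add_mul, map_add, ha G, hb G, add_zero]
  smul_mem' := fun c x hx G => by
    rw [smul_eq_mul, mul_comm c x, mul_assoc]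
    exact hx _

/-- `Φ` is a dual form of degree `s` (a form of degree `s` in the divided power ring, a
homogeneous element of Macaulay's inverse system): a functional on the polynomial ring that
vanishes on all forms of degree different from `s`. -/
def IsDualForm {k σ : Type} [Field k] (s : ℕ) (Φ : MvPolynomial σ k →ₗ[k] k) : Prop :=
  ∀ n : ℕ, n ≠ s → ∀ F : MvPolynomial σ k, F.IsHomogeneous n → Φ F = 0

/-- The apolar algebra `S / Ann Φ`. -/
abbrev ApolarAlg {k σ : Type} [Field k] (Φ : MvPolynomial σ k →ₗ[k] k) : Type :=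
  MvPolynomial σ k ⧸ annOf Φ

section nested

variable {A : Type} [CommRing A]

/-- the `(p, q)` coefficient -/
noncomputable def cf (f : Polynomial (Polynomial A)) (p q : ℕ) : A := (f.coeff q).coeff p

lemma cf_add (f g : Polynomial (Polynomial A)) (p q : ℕ) : cf (f + g) p q = cf f p q + cf g p q := by
  simp [cf]

lemma cf_mul (f g : Polynomial (Polynomial A)) (p q : ℕ) : cf (f * g) p q =
    ∑ x ∈ Finset.HasAntidiagonal.antidiagonal q, ∑ y ∈ Finset.HasAntidiagonal.antidiagonal p,
      cf f y.1 x.1 * cf g y.2 x.2 := by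
  simp only [cf, Polynomial.coeff_mul, Polynomial.finsetSum_coeff]

lemma cf_mul_eq_zero {e : ℕ} {f : Polynomial (Polynomial A)}
    (hf : ∀ p q, p ≤ e → q ≤ e → cf f p q = 0) (g : Polynomial (Polynomial A)) {p q : ℕ}
    (hp : p ≤ e) (hq : q ≤ e) : cf (f * g) p q = 0 := by
  rw [cf_mul]
  refine Finset.sum_eq_zero fun x hx => Finset.sum_eq_zero fun y hy => ?_
  rw [Finset.HasAntidiagonal.mem_antidiagonal] at hx hy
  rw [hf _ _ (by omega) (by omega), zero_mul]

/-- homogeneity in the nested polynomial ring -/
def HG (m : ℕ) (f : Polynomial (Polynomial A)) : Prop := ∀ p q, p + q ≠ m → cf f p q = 0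

lemma HG.mul {m n : ℕ} {f g : Polynomial (Polynomial A)} (hf : HG m f) (hg : HG n g) :
    HG (m + n) (f * g) := by
  intro p q hpq
  rw [cf_mul]
  refine Finset.sum_eq_zero fun x hx => Finset.sum_eq_zero fun y hy => ?_
  rw [Finset.HasAntidiagonal.mem_antidiagonal] at hx hy
  by_cases h1 : y.1 + x.1 = m
  · rw [hg y.2 x.2 (by omega), mul_zero]
  · rw [hf _ _ h1, zero_mul]

lemma HG.add {m : ℕ} {f g : Polynomial (Polynomial A)} (hf : HG m f) (hg : HG m g) :
    HG m (f + g) := by
  intro p q hpq
  rw [cf_add, hf p q hpq, hg p q hpq, add_zero]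

lemma HG.zero (m : ℕ) : HG m (0 : Polynomial (Polynomial A)) := by
  intro p q _
  simp [cf]

lemma HG.const (c : A) : HG 0 (Polynomial.C (Polynomial.C c) : Polynomial (Polynomial A)) := by
  intro p q hpq
  unfold cf
  rw [Polynomial.coeff_C]
  split_ifs with h
  · rw [Polynomial.coeff_C, if_neg (by omega)]
  · simp

lemma HG.u : HG 1 (Polynomial.C Polynomial.X : Polynomial (Polynomial A)) := by
  intro p q hpq
  unfold cf
  rw [Polynomial.coeff_C]
  split_ifs with h
  · rw [Polynomial.coeff_X, if_neg (by omega)]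
  · simp

lemma HG.w : HG 1 (Polynomial.X : Polynomial (Polynomial A)) := by
  intro p q hpq
  unfold cf
  rw [Polynomial.coeff_X]
  split_ifs with h
  · rw [Polynomial.coeff_one, if_neg (by omega)]
  · simp

lemma HG.sum {ι : Type} {m : ℕ} (s : Finset ι) {f : ι → Polynomial (Polynomial A)}
    (h : ∀ i ∈ s, HG m (f i)) : HG m (∑ i ∈ s, f i) := by
  classical
  induction s using Finset.induction_on with
  | empty => simpa using HG.zero m
  | insert i s hi ih =>
    rw [Finset.sum_insert hi]
    exact (h i (Finset.mem_insert_self _ _)).add (ih fun j hj => h j (Finset.mem_insert_of_mem hj))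

lemma HG.pow {m : ℕ} {f : Polynomial (Polynomial A)} (h : HG m f) (n : ℕ) :
    HG (m * n) (f ^ n) := by
  induction n with
  | zero =>
    rw [pow_zero, mul_zero]
    have := HG.const (1 : A)
    simpa using this
  | succ n ih =>
    rw [pow_succ, mul_add, mul_one]
    exact ih.mul h

lemma HG.prod {ι : Type} (s : Finset ι) {f : ι → Polynomial (Polynomial A)} {d : ι → ℕ}
    (h : ∀ i ∈ s, HG (d i) (f i)) : HG (∑ i ∈ s, d i) (∏ i ∈ s, f i) := by
  classical
  induction s using Finset.induction_on with
  | empty =>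
    have := HG.const (1 : A)
    simpa using this
  | insert i s hi ih =>
    rw [Finset.sum_insert hi, Finset.prod_insert hi]
    exact (h i (Finset.mem_insert_self _ _)).mul (ih fun j hj => h j (Finset.mem_insert_of_mem hj))

variable {k : Type} [Field k] [Algebra k A] {τ : Type}

lemma HG.aeval_monomial {g : τ → Polynomial (Polynomial A)} (hg : ∀ v, HG 1 (g v)) (s : τ →₀ ℕ)
    (c : k) : HG s.degree (aeval g (monomial s c)) := by
  rw [MvPolynomial.aeval_monomial]
  have h1 : HG s.degree (s.prod fun v n => g v ^ n) := by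
    have := HG.prod s.support (f := fun v => g v ^ s v) (d := fun v => 1 * s v)
      (fun v _ => (hg v).pow (s v))
    simp only [one_mul] at this
    exact this
  have h2 : HG 0 (algebraMap k (Polynomial (Polynomial A)) c) := HG.const (algebraMap k A c)
  have := h2.mul h1
  rwa [zero_add] at this

lemma HG.aeval {g : τ → Polynomial (Polynomial A)} (hg : ∀ v, HG 1 (g v)) {n : ℕ}
    {F : MvPolynomial τ k} (hF : F.IsHomogeneous n) : HG n (aeval g F) := by
  rw [F.as_sum, map_sum]
  refine HG.sum _ fun s hs => ?_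
  have h1 : s.degree = n := by
    rw [Finsupp.degree_eq_weight_one]
    exact hF (mem_support_iff.mp hs)
  rw [← h1]
  exact HG.aeval_monomial hg s _

end nested

end Pool.Agent.H826R3.SM
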