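import Pool.Agent.H826R3.SM.Dual

/-!
# Every local finite algebra is a quotient of a small apolar algebra of a dual form
-/

namespace Pool.Agent.H826R3.SM

open MvPolynomial

section embed

variable {k A : Type} [Field k] [CommRing A] [Algebra k A] {σ ι : Type} (e : ℕ) (a : σ → A)

/-- variables `Z_{ij}`, then `X_v`, then `W`. -/
abbrev Vars (σ ι : Type) (e : ℕ) : Type := (ι × Fin (e + 1)) ⊕ (σ ⊕ Unit)

/-- images of the variables -/
noncomputable def rv : Vars σ ι e → Polynomial (Polynomial A) :=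
  Sum.elim (fun _ => 0) (Sum.elim (fun v => Polynomial.C (Polynomial.C (a v) * Polynomial.X))
    fun _ => Polynomial.X)

/-- `r : S[Z, W] → A[u][w]`, `X_v ↦ a_v u`, `Z ↦ 0`, `W ↦ w`. -/
noncomputable def rr : MvPolynomial (Vars σ ι e) k →ₐ[k] Polynomial (Polynomial A) :=
  aeval (rv (ι := ι) e a)

/-- `D_z(P) = r(∂P/∂Z_z)`. -/
noncomputable def DD (z : ι × Fin (e + 1)) :
    MvPolynomial (Vars σ ι e) k →ₗ[k] Polynomial (Polynomial A) :=
  (rr (k := k) (ι := ι) e a).toLinearMap ∘ₗ (pderiv (R := k) (Sum.inl z)).toLinearMap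

lemma DD_apply (z : ι × Fin (e + 1)) (P : MvPolynomial (Vars σ ι e) k) :
    DD e a z P = rr e a (pderiv (Sum.inl z) P) := rfl

lemma DD_mul (z : ι × Fin (e + 1)) (P Q : MvPolynomial (Vars σ ι e) k) :
    DD e a z (P * Q) = rr e a P * DD e a z Q + DD e a z P * rr e a Q := by
  rw [DD_apply, DD_apply, DD_apply, (pderiv (Sum.inl z)).leibniz]
  simp only [smul_eq_mul, map_add, map_mul]
  ring

/-- coefficient `(p, q)` as a linear map -/
noncomputable def cfL (p q : ℕ) : Polynomial (Polynomial A) →ₗ[k] A where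
  toFun f := cf f p q
  map_add' f g := cf_add f g p q
  map_smul' c f := by simp [cf]

variable (ψ : ι → A →ₗ[k] k) [Fintype ι]

/-- the dual form -/
noncomputable def Phi1 : MvPolynomial (Vars σ ι e) k →ₗ[k] k :=
  ∑ z : ι × Fin (e + 1), (ψ z.1) ∘ₗ (cfL (k := k) (z.2 : ℕ) (e - z.2)) ∘ₗ (DD e a z)

lemma Phi1_apply (P : MvPolynomial (Vars σ ι e) k) :
    Phi1 e a ψ P = ∑ z : ι × Fin (e + 1), ψ z.1 (cf (DD e a z P) z.2 (e - z.2)) := by
  unfold Phi1
  rw [LinearMap.sum_apply]
  rfl

lemma HG_rv (v : Vars σ ι e) : HG 1 (rv (ι := ι) e a v) := by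
  rcases v with z | v | v
  · exact HG.zero 1
  · change HG 1 (Polynomial.C (Polynomial.C (a v) * Polynomial.X))
    rw [Polynomial.C_mul]
    have := (HG.const (a v)).mul (HG.u (A := A))
    rwa [zero_add] at this
  · exact HG.w

lemma Phi1_dual : IsDualForm (e + 1) (Phi1 (k := k) e a ψ) := by
  intro n hn F hF
  rw [Phi1_apply]
  refine Finset.sum_eq_zero fun z _ => ?_
  rw [DD_apply]
  rcases Nat.eq_zero_or_pos n with rfl | hpos
  · have h0 : F = C (coeff 0 F) := by
      have := (totalDegree_eq_zero_iff_eq_C (p := F)).mp (by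
        by_cases hF0 : F = 0
        · rw [hF0]; simp
        · exact hF.totalDegree hF0)
      exact this
    rw [h0, pderiv_C, map_zero]
    have : cf (0 : Polynomial (Polynomial A)) (z.2 : ℕ) (e - z.2) = 0 := by simp [cf]
    rw [this, map_zero]
  · have h1 : HG (n - 1) (rr (k := k) (ι := ι) e a (pderiv (Sum.inl z) F)) :=
      HG.aeval (HG_rv e a) hF.pderiv
    rw [h1 _ _ (by have := z.2.2; omega), map_zero]

lemma rr_X_inl (z : ι × Fin (e + 1)) : rr (k := k) e a (X (Sum.inl z)) = 0 := by
  unfold rr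
  rw [aeval_X]
  rfl

lemma rr_X_W : rr (k := k) (ι := ι) e a (X (Sum.inr (Sum.inr ()))) = Polynomial.X := by
  unfold rr
  rw [aeval_X]
  rfl

/-- the test monomials -/
noncomputable def tm (k : Type) [Field k] {σ ι : Type} (e : ℕ) (y : ι × Fin (e + 1)) :
    MvPolynomial (Vars σ ι e) k :=
  X (Sum.inl y) * X (Sum.inr (Sum.inr ())) ^ (e - y.2)

lemma rr_tm (y : ι × Fin (e + 1)) : rr e a (tm k e y) = 0 := by
  unfold tm
  rw [map_mul, rr_X_inl, zero_mul]

lemma DD_tm [DecidableEq ι] (z y : ι × Fin (e + 1)) :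
    DD e a z (tm k e y) = if z = y then Polynomial.X ^ (e - (y.2 : ℕ)) else 0 := by
  classical
  have h1 : DD (k := k) e a z (X (Sum.inl y)) = if z = y then 1 else 0 := by
    rw [DD_apply, pderiv_X, Pi.single_apply]
    simp only [Sum.inl.injEq, eq_comm (a := y)]
    split_ifs with h
    · rw [map_one]
    · rw [map_zero]
  unfold tm
  rw [DD_mul, rr_X_inl, zero_mul, zero_add, h1, map_pow, rr_X_W]
  split_ifs with h
  · rw [one_mul]
  · rw [zero_mul]

lemma Phi1_mul_tm [DecidableEq ι] (P : MvPolynomial (Vars σ ι e) k) (y : ι × Fin (e + 1)) :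
    Phi1 e a ψ (P * tm k e y) = ψ y.1 (cf (rr e a P) y.2 0) := by
  rw [Phi1_apply, Finset.sum_eq_single y]
  · rw [DD_mul, rr_tm, mul_zero, add_zero, DD_tm, if_pos rfl]
    congr 1
    unfold cf
    rw [Polynomial.coeff_mul_X_pow', if_pos le_rfl, Nat.sub_self]
  · intro z _ hz
    rw [DD_mul, rr_tm, mul_zero, add_zero, DD_tm, if_neg hz, mul_zero]
    simp [cf]
  · intro h
    exact absurd (Finset.mem_univ _) h

/-- membership of the coefficients in the powers of an ideal -/
def RG (I : Ideal A) (f : Polynomial (Polynomial A)) : Prop := ∀ p q, cf f p q ∈ I ^ p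

lemma RG.mul {I : Ideal A} {f g : Polynomial (Polynomial A)} (hf : RG I f) (hg : RG I g) :
    RG I (f * g) := by
  intro p q
  rw [cf_mul]
  refine Ideal.sum_mem _ fun x _ => Ideal.sum_mem _ fun y hy => ?_
  rw [Finset.HasAntidiagonal.mem_antidiagonal] at hy
  rw [← hy, pow_add]
  exact Ideal.mul_mem_mul (hf _ _) (hg _ _)

lemma RG.add {I : Ideal A} {f g : Polynomial (Polynomial A)} (hf : RG I f) (hg : RG I g) :
    RG I (f + g) := by
  intro p q
  rw [cf_add]
  exact Ideal.add_mem _ (hf _ _) (hg _ _)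

lemma RG_rv (v : Vars σ ι e) : RG (Ideal.span (Set.range a)) (rv (ι := ι) e a v) := by
  intro p q
  rcases v with z | v | v
  · simp [rv, cf]
  · unfold cf
    change (((Polynomial.C (Polynomial.C (a v) * Polynomial.X) :
      Polynomial (Polynomial A)).coeff q).coeff p) ∈ _
    rw [Polynomial.coeff_C]
    split_ifs with h
    · rw [Polynomial.coeff_C_mul, Polynomial.coeff_X]
      split_ifs with h1
      · rw [← h1, pow_one, mul_one]
        exact Ideal.subset_span ⟨v, rfl⟩
      · rw [mul_zero]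
        exact Ideal.zero_mem _
    · simp
  · unfold cf
    change (((Polynomial.X : Polynomial (Polynomial A)).coeff q).coeff p) ∈ _
    rw [Polynomial.coeff_X]
    split_ifs with h
    · rw [Polynomial.coeff_one]
      split_ifs with h1
      · rw [h1, pow_zero]
        simp
      · exact Ideal.zero_mem _
    · simp

lemma RG_rr (P : MvPolynomial (Vars σ ι e) k) :
    RG (Ideal.span (Set.range a)) (rr (ι := ι) e a P) := by
  induction P using MvPolynomial.induction_on with
  | C c =>
    intro p q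
    unfold rr cf
    rw [aeval_C]
    change (((Polynomial.C (Polynomial.C (algebraMap k A c)) :
      Polynomial (Polynomial A)).coeff q).coeff p) ∈ _
    rw [Polynomial.coeff_C]
    split_ifs with h
    · rw [Polynomial.coeff_C]
      split_ifs with h1
      · rw [h1, pow_zero]
        simp
      · exact Ideal.zero_mem _
    · simp
  | add P Q hP hQ =>
    rw [map_add]
    exact hP.add hQ
  | mul_X P v hP =>
    rw [map_mul]
    refine hP.mul ?_
    unfold rr
    rw [aeval_X]
    exact RG_rv e a v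

/-- the map to `A` -/
noncomputable def rho : MvPolynomial (Vars σ ι e) k →ₐ[k] A :=
  aeval (Sum.elim (fun _ => 0) (Sum.elim a fun _ => 0))

lemma rho_eq_eval (P : MvPolynomial (Vars σ ι e) k) :
    rho e a P = ((rr (ι := ι) e a P).coeff 0).eval 1 := by
  have h : (rho (k := k) (ι := ι) e a).toRingHom =
      ((Polynomial.evalRingHom (1 : A)).comp (Polynomial.constantCoeff)).comp
        (rr (k := k) (ι := ι) e a).toRingHom := by
    refine MvPolynomial.ringHom_ext (fun c => ?_) fun v => ?_
    · change rho e a (C c) = ((rr (ι := ι) e a (C c)).coeff 0).eval 1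
      unfold rho rr
      rw [aeval_C, aeval_C]
      change _ = ((Polynomial.C (Polynomial.C (algebraMap k A c)) :
        Polynomial (Polynomial A)).coeff 0).eval 1
      simp
    · change rho e a (X v) = ((rr (ι := ι) e a (X v)).coeff 0).eval 1
      unfold rho rr
      rw [aeval_X, aeval_X]
      rcases v with z | v | v
      · simp [rv]
      · simp [rv]
      · simp [rv]
  exact congrArg (fun f => f P) h

lemma rho_eq_sum (hnil : Ideal.span (Set.range a) ^ (e + 1) = ⊥)
    (P : MvPolynomial (Vars σ ι e) k) :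
    rho e a P = ∑ j : Fin (e + 1), cf (rr (ι := ι) e a P) j 0 := by
  rw [rho_eq_eval, Polynomial.eval_eq_sum_range' (n := e + 1),
    ← Fin.sum_univ_eq_sum_range (fun j => ((rr (ι := ι) e a P).coeff 0).coeff j * 1 ^ j)]
  · simp [cf]
  · rw [Nat.lt_succ_iff, Polynomial.natDegree_le_iff_coeff_eq_zero]
    intro N hN
    have h1 := RG_rr (ι := ι) e a P N 0
    have h2 : Ideal.span (Set.range a) ^ N ≤ ⊥ := by
      rw [← hnil]
      exact Ideal.pow_le_pow_right (by omega)
    exact (Submodule.mem_bot A).mp (h2 h1)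

lemma rho_of_mem (hnil : Ideal.span (Set.range a) ^ (e + 1) = ⊥)
    (hψ : ∀ x, (∀ i, ψ i x = 0) → x = 0) {P : MvPolynomial (Vars σ ι e) k}
    (hP : P ∈ annOf (Phi1 e a ψ)) : rho e a P = 0 := by
  classical
  refine hψ _ fun i => ?_
  rw [rho_eq_sum e a hnil, map_sum]
  refine Finset.sum_eq_zero fun j _ => ?_
  have := hP (tm k e (i, j))
  rwa [Phi1_mul_tm] at this

end embed



end Pool.Agent.H826R3.SM
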