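import Pool.Agent.H826R3.SM.Embed

/-!
# Dimension bound and the embedding theorem
-/

namespace Pool.Agent.H826R3.SM

open MvPolynomial

lemma finrank_quot_le {k V W : Type} [Field k] [CommRing V] [Algebra k V] [AddCommGroup W]
    [Module k W] [Module.Finite k W] (J : Ideal V) (K : V →ₗ[k] W) (h : ∀ v, K v = 0 → v ∈ J) :
    Module.Finite k (V ⧸ J) ∧ Module.finrank k (V ⧸ J) ≤ Module.finrank k W := by
  let f : V →ₗ[k] V ⧸ J := (Ideal.Quotient.mkₐ k J).toLinearMap
  have hf : Function.Surjective f := Ideal.Quotient.mk_surjective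
  have hker : LinearMap.ker K ≤ LinearMap.ker f := by
    intro v hv
    rw [LinearMap.mem_ker] at hv ⊢
    exact Ideal.Quotient.eq_zero_iff_mem.mpr (h v hv)
  let g : (V ⧸ LinearMap.ker K) →ₗ[k] V ⧸ J := (LinearMap.ker K).liftQ f hker
  have hg : Function.Surjective g := by
    intro y
    obtain ⟨v, rfl⟩ := hf y
    exact ⟨Submodule.Quotient.mk v, Submodule.liftQ_apply _ _ _⟩
  have hfin : Module.Finite k (V ⧸ LinearMap.ker K) :=
    Module.Finite.equiv K.quotKerEquivRange.symm
  refine ⟨Module.Finite.of_surjective g hg, ?_⟩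
  calc Module.finrank k (V ⧸ J) ≤ Module.finrank k (V ⧸ LinearMap.ker K) :=
        LinearMap.finrank_le_finrank_of_surjective hg
    _ = Module.finrank k (LinearMap.range K) := K.quotKerEquivRange.finrank_eq
    _ ≤ Module.finrank k W := Submodule.finrank_le _

section embed

variable {k A : Type} [Field k] [CommRing A] [Algebra k A] {σ ι : Type} (e : ℕ) (a : σ → A)

/-- the box -/
abbrev Box (A : Type) (e : ℕ) : Type := Fin (e + 1) × Fin (e + 1) → A

/-- polynomial with given coefficients in the box -/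
noncomputable def emb (t : Box A e) : Polynomial (Polynomial A) :=
  ∑ x : Fin (e + 1) × Fin (e + 1),
    Polynomial.monomial (x.2 : ℕ) (Polynomial.monomial (x.1 : ℕ) (t x))

lemma emb_add (t t' : Box A e) : emb e (t + t') = emb e t + emb e t' := by
  unfold emb
  rw [← Finset.sum_add_distrib]
  refine Finset.sum_congr rfl fun x _ => ?_
  rw [Pi.add_apply, map_add, map_add]

lemma emb_smul (c : k) (t : Box A e) : emb e (c • t) = c • emb e t := by
  unfold emb
  rw [Finset.smul_sum]
  refine Finset.sum_congr rfl fun x _ => ?_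
  rw [Pi.smul_apply, Polynomial.smul_monomial, Polynomial.smul_monomial]

lemma cf_emb (t : Box A e) {p q : ℕ} (hp : p < e + 1) (hq : q < e + 1) :
    cf (emb e t) p q = t (⟨p, hp⟩, ⟨q, hq⟩) := by
  unfold emb cf
  rw [Polynomial.finsetSum_coeff, Polynomial.finsetSum_coeff,
    Finset.sum_eq_single (⟨p, hp⟩, ⟨q, hq⟩)]
  · rw [Polynomial.coeff_monomial, if_pos rfl, Polynomial.coeff_monomial, if_pos rfl]
  · rintro ⟨x, y⟩ _ hne
    rw [Polynomial.coeff_monomial]
    split_ifs with h1
    · rw [Polynomial.coeff_monomial, if_neg]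
      intro h2
      apply hne
      rw [Prod.mk.injEq]
      exact ⟨Fin.ext h2, Fin.ext h1⟩
    · simp
  · intro h
    exact absurd (Finset.mem_univ _) h

/-- the box coefficients -/
noncomputable def boxc (f : Polynomial (Polynomial A)) : Box A e := fun x => cf f x.1 x.2

lemma cf_sub_emb (f : Polynomial (Polynomial A)) (p q : ℕ) (hp : p ≤ e) (hq : q ≤ e) :
    cf (f - emb e (boxc e f)) p q = 0 := by
  have h1 : cf (f - emb e (boxc e f)) p q = cf f p q - cf (emb e (boxc e f)) p q := by
    simp [cf]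
  rw [h1, cf_emb e _ (Nat.lt_succ_of_le hp) (Nat.lt_succ_of_le hq)]
  simp [boxc]

variable (ψ : ι → A →ₗ[k] k) [Fintype ι]

/-- the pairing of `P` with the box -/
noncomputable def K2 : MvPolynomial (Vars σ ι e) k →ₗ[k] Box A e →ₗ[k] k :=
  LinearMap.mk₂ k (fun P t => ∑ z : ι × Fin (e + 1),
      ψ z.1 (cf (DD e a z P * emb e t) z.2 (e - z.2)))
    (by
      intro P P' t
      rw [← Finset.sum_add_distrib]
      refine Finset.sum_congr rfl fun z _ => ?_
      rw [map_add, add_mul, cf_add, map_add])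
    (by
      intro c P t
      rw [Finset.smul_sum]
      refine Finset.sum_congr rfl fun z _ => ?_
      rw [map_smul, smul_mul_assoc, ← map_smul]
      congr 1)
    (by
      intro P t t'
      rw [← Finset.sum_add_distrib]
      refine Finset.sum_congr rfl fun z _ => ?_
      rw [emb_add, mul_add, cf_add, map_add])
    (by
      intro c P t
      rw [Finset.smul_sum]
      refine Finset.sum_congr rfl fun z _ => ?_
      rw [emb_smul, mul_smul_comm, ← map_smul]
      congr 1)

/-- all box coefficients -/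
noncomputable def K1 : MvPolynomial (Vars σ ι e) k →ₗ[k] Box A e :=
  LinearMap.pi fun x => cfL (k := k) (x.1 : ℕ) (x.2 : ℕ) ∘ₗ (rr (k := k) (ι := ι) e a).toLinearMap

lemma mem_annOf (P : MvPolynomial (Vars σ ι e) k) (h1 : K1 (ι := ι) e a P = 0)
    (h2 : K2 e a ψ P = 0) : P ∈ annOf (Phi1 e a ψ) := by
  intro Q
  rw [Phi1_apply]
  have hz1 : ∀ p q, p ≤ e → q ≤ e → cf (rr (ι := ι) e a P) p q = 0 := by
    intro p q hp hq
    exact congrFun h1 (⟨p, Nat.lt_succ_of_le hp⟩, ⟨q, Nat.lt_succ_of_le hq⟩)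
  have h3 : ∑ z : ι × Fin (e + 1), ψ z.1 (cf (DD e a z P *
      emb e (boxc e (rr (ι := ι) e a Q))) z.2 (e - z.2)) = 0 := by
    have := congrArg (fun f => f (boxc e (rr (ι := ι) e a Q))) h2
    exact this
  rw [← h3]
  refine Finset.sum_congr rfl fun z _ => ?_
  have hz : (z.2 : ℕ) ≤ e := Nat.lt_succ_iff.mp z.2.2
  congr 1
  rw [DD_mul, cf_add, cf_mul_eq_zero hz1 _ hz (by omega), zero_add]
  have h4 : DD (k := k) e a z P * rr (ι := ι) e a Q =
      DD e a z P * emb e (boxc e (rr (ι := ι) e a Q)) +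
        (rr (ι := ι) e a Q - emb e (boxc e (rr (ι := ι) e a Q))) * DD e a z P := by ring
  rw [h4, cf_add, cf_mul_eq_zero (cf_sub_emb e _) _ hz (by omega), add_zero]

/-- **Embedding theorem.** -/
theorem exists_apolar [Module.Finite k A] [Nontrivial A] [Finite σ]
    (hgen : Algebra.adjoin k (Set.range a) = ⊤)
    (hnil : Ideal.span (Set.range a) ^ (e + 1) = ⊥) :
    ∃ (τ : Type) (_ : Finite τ) (Φ : MvPolynomial τ k →ₗ[k] k), IsDualForm (e + 1) Φ ∧ Φ ≠ 0 ∧
      Module.Finite k (ApolarAlg Φ) ∧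
      Module.finrank k (ApolarAlg Φ) ≤ 2 * (e + 1) ^ 2 * Module.finrank k A ∧
      ∃ f : ApolarAlg Φ →ₐ[k] A, Function.Surjective f := by
  let b := Module.finBasis k A
  let ψ : Fin (Module.finrank k A) → A →ₗ[k] k := fun i => b.coord i
  have hψ : ∀ x, (∀ i, ψ i x = 0) → x = 0 := fun x hx => by
    apply b.ext_elem
    intro i
    rw [map_zero]
    exact hx i
  obtain ⟨h1, h2⟩ := finrank_quot_le (annOf (Phi1 (k := k) e a ψ))
    ((K1 (ι := Fin (Module.finrank k A)) e a).prod (K2 e a ψ)) (fun v hv => by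
      exact mem_annOf e a ψ v (congrArg Prod.fst hv) (congrArg Prod.snd hv))
  let f : ApolarAlg (Phi1 (k := k) e a ψ) →ₐ[k] A :=
    Ideal.Quotient.liftₐ _ (rho e a) (fun P hP => rho_of_mem e a ψ hnil hψ hP)
  have hf : Function.Surjective f := by
    have hr : Function.Surjective (rho (k := k) (ι := Fin (Module.finrank k A)) e a) := by
      rw [← AlgHom.range_eq_top, eq_top_iff, ← hgen]
      refine Algebra.adjoin_le ?_
      rintro _ ⟨v, rfl⟩
      refine ⟨X (Sum.inr (Sum.inl v)), ?_⟩
      unfold rho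
      change aeval _ _ = _
      rw [aeval_X]
      rfl
    intro y
    obtain ⟨P, hP⟩ := hr y
    exact ⟨Ideal.Quotient.mk _ P, hP⟩
  refine ⟨_, inferInstance, Phi1 e a ψ, Phi1_dual e a ψ, ?_, h1, h2.trans ?_, f, hf⟩
  · intro h0
    have : (1 : A) = 0 := by
      have h3 : (1 : MvPolynomial (Vars σ (Fin (Module.finrank k A)) e) k) ∈
          annOf (Phi1 (k := k) e a ψ) := by
        intro G
        rw [h0, LinearMap.zero_apply]
      have h4 := rho_of_mem e a ψ hnil hψ h3
      rwa [map_one] at h4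
    exact one_ne_zero this
  · rw [Module.finrank_prod, Module.finrank_linearMap, Module.finrank_pi_fintype]
    simp only [Finset.sum_const, Finset.card_univ, Fintype.card_prod, Fintype.card_fin,
      smul_eq_mul, Module.finrank_self, mul_one]
    apply le_of_eq
    ring

end embed

end Pool.Agent.H826R3.SM
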