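import Pool.Agent.H826R3.SM.Extract

/-!
# From approximate decompositions over finite extensions to the exponent
-/

namespace Pool.Agent.H826R3.SM

open scoped PowerSeries

section ado

variable {k : Type} [Field k]

/-- Approximate decomposition of matrix multiplication over a `k⟦X⟧`-algebra `O`. -/
def ADO (k : Type) [Field k] (O : Type) [CommRing O] [Algebra k⟦X⟧ O] (I T : Type)
    [DecidableEq I] [Fintype T] (h : ℕ) : Prop :=
  ∃ (A B C : T → I → I → O) (P : I → I → I → I → I → I → k⟦X⟧),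
    ∀ i j j' u u' l : I,
      (∑ t : T, A t i j * B t j' u * C t u' l =
        algebraMap k⟦X⟧ O (PowerSeries.X ^ h * P i j j' u u' l)) ∧
      PowerSeries.constantCoeff (P i j j' u u' l) = if j = j' ∧ u = u' ∧ l = i then 1 else 0

variable {O : Type} [CommRing O] [Algebra k⟦X⟧ O]

lemma ADO.pow {I T : Type} [DecidableEq I] [Fintype T] {h : ℕ} (H : ADO k O I T h)
    (N : ℕ) : ADO k O (Fin N → I) (Fin N → T) (N * h) := by
  classical
  obtain ⟨a, b, c, P, hh⟩ := H
  refine ⟨fun t i j => ∏ s, a (t s) (i s) (j s), fun t i j => ∏ s, b (t s) (i s) (j s),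
    fun t i j => ∏ s, c (t s) (i s) (j s),
    fun i j j' k k' l => ∏ s, P (i s) (j s) (j' s) (k s) (k' s) (l s), ?_⟩
  intro i j j' u u' l
  constructor
  · calc ∑ t : Fin N → T, (∏ s, a (t s) (i s) (j s)) * (∏ s, b (t s) (j' s) (u s)) *
          (∏ s, c (t s) (u' s) (l s))
        = ∑ t : Fin N → T, ∏ s, (a (t s) (i s) (j s) * b (t s) (j' s) (u s) *
          c (t s) (u' s) (l s)) := by
          refine Finset.sum_congr rfl fun t _ => ?_
          rw [Finset.prod_mul_distrib, Finset.prod_mul_distrib]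
      _ = ∏ s, ∑ t : T, (a t (i s) (j s) * b t (j' s) (u s) * c t (u' s) (l s)) := by
          rw [Finset.prod_univ_sum, Fintype.piFinset_univ]
      _ = ∏ s, algebraMap k⟦X⟧ O (PowerSeries.X ^ h *
            P (i s) (j s) (j' s) (u s) (u' s) (l s)) :=
          Finset.prod_congr rfl fun s _ => (hh _ _ _ _ _ _).1
      _ = _ := by
          rw [← map_prod, Finset.prod_mul_distrib, Finset.prod_const, Finset.card_univ,
            Fintype.card_fin, ← pow_mul, mul_comm h N]
  · rw [map_prod]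
    rw [Finset.prod_congr rfl fun s _ => (hh (i s) (j s) (j' s) (u s) (u' s) (l s)).2]
    by_cases hc : j = j' ∧ u = u' ∧ l = i
    · rw [if_pos hc]
      obtain ⟨rfl, rfl, rfl⟩ := hc
      simp
    · rw [if_neg hc]
      have : ∃ s, ¬ (j s = j' s ∧ u s = u' s ∧ l s = i s) := by
        by_contra hcon
        push Not at hcon
        exact hc ⟨funext fun s => (hcon s).1, funext fun s => (hcon s).2.1,
          funext fun s => (hcon s).2.2⟩
      obtain ⟨s, hs⟩ := this
      exact Finset.prod_eq_zero (Finset.mem_univ s) (if_neg hs)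

lemma ADO.rk_pow_le [Module.Finite k⟦X⟧ O] [Module.Free k⟦X⟧ O] [FaithfulSMul k⟦X⟧ O]
    {I T : Type} [DecidableEq I] [Fintype I] [Fintype T] {h : ℕ}
    (H : ADO k O I T h) (N : ℕ) :
    rk k (Fintype.card I ^ N) ≤
      Fintype.card T ^ N * (Module.finrank k⟦X⟧ O * (N * h + 1)) ^ 2 := by
  classical
  obtain ⟨η, hη⟩ := exists_retraction (k := k) (O := O)
  obtain ⟨A, B, C, P, hh⟩ := H.pow N
  have := extract η hη (N * h) A B C P (fun i j j' u u' l => (hh i j j' u u' l).1)
    (fun i j j' u u' l => (hh i j j' u u' l).2)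
  refine rk_le (hasRank_of_hasRankT (by simp) ?_ this)
  simp [pow_two]

end ado

section expo

variable {F : Type} [Field F]

/-- An approximate decomposition of `⟨q,q,q⟩` with `r` terms gives every exponent `τ`
with `r < q ^ τ`. -/
lemma exponent_of_rk_pow {q r e h : ℕ} (hq : 2 ≤ q)
    (H : ∀ N, rk F (q ^ N) ≤ r ^ N * (e * (N * h + 1)) ^ 2) (τ : ℝ)
    (hτ : (r : ℝ) < (q : ℝ) ^ τ) :
    ∃ C : ℝ, ∀ n : ℕ, (rk F n : ℝ) ≤ C * (n : ℝ) ^ τ := by
  have hr : 1 ≤ r := by
    by_contra hcon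
    have h0 : r = 0 := by omega
    have h1 := H 1
    rw [h0] at h1
    have h2 := one_le_rk (F := F) (n := q ^ 1) (by rw [pow_one]; omega)
    rw [pow_one (0 : ℕ), zero_mul] at h1
    omega
  have hr' : (1 : ℝ) ≤ r := by exact_mod_cast hr
  have hq1 : (1 : ℝ) < q := by exact_mod_cast (by omega : 1 < q)
  have hq0 : (0 : ℝ) < q := by linarith
  have hτ0 : 0 < τ := by
    by_contra hcon
    have := Real.rpow_le_one_of_one_le_of_nonpos hq1.le (not_lt.mp hcon)
    linarith
  set ρ : ℝ := (q : ℝ) ^ τ with hρ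
  have hρ0 : 0 < ρ := Real.rpow_pos_of_pos hq0 _
  obtain ⟨C, hC0, hC⟩ := bounded_aux h (r / ρ) (by positivity) (by rwa [div_lt_one hρ0])
  refine ⟨(e : ℝ) ^ 2 * (C * ρ), fun n => ?_⟩
  rcases Nat.eq_zero_or_pos n with hn | hn
  · subst hn
    have h0 : rk F 0 = 0 := by
      have : HasRank F 0 0 := ⟨fun _ _ _ => 0, fun _ _ _ => 0, fun _ _ _ => 0,
        fun i => i.elim0⟩
      exact Nat.le_zero.mp (rk_le this)
    rw [h0]
    simp [Real.zero_rpow hτ0.ne']
  · set N := Nat.clog q n with hN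
    have h1 : n ≤ q ^ N := Nat.le_pow_clog (by omega) n
    have h2 : q ^ N ≤ q * n := by
      rcases Nat.eq_zero_or_pos N with hz | hz
      · rw [hz, pow_zero]
        exact Nat.succ_le_of_lt (Nat.mul_pos (by omega) hn)
      · have hn2 : 1 < n := by
          by_contra hcon
          have : n = 1 := by omega
          rw [this, Nat.clog_one_right] at hN
          omega
        have := Nat.pow_pred_clog_lt_self (b := q) (by omega) hn2
        rw [← hN] at this
        calc q ^ N = q * q ^ (N - 1) := by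
              rw [← pow_succ']; congr 1; omega
          _ ≤ q * n := Nat.mul_le_mul_left _ this.le
    have h3 : (rk F n : ℝ) ≤ (e : ℝ) ^ 2 * ((r : ℝ) ^ N * ((N : ℝ) * h + 1) ^ 2) := by
      have := (rk_mono (F := F) h1).trans (H N)
      have h3' : (rk F n : ℝ) ≤ (r : ℝ) ^ N * (e * ((N : ℝ) * h + 1)) ^ 2 := by
        exact_mod_cast this
      refine h3'.trans (le_of_eq ?_)
      ring
    have h4 : (r : ℝ) ^ N * ((N : ℝ) * h + 1) ^ 2 ≤ C * ρ ^ N := by
      have := hC N
      rw [div_pow] at this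
      have hp : 0 < ρ ^ N := pow_pos hρ0 N
      calc (r : ℝ) ^ N * ((N : ℝ) * h + 1) ^ 2
          = (((N : ℝ) * h + 1) ^ 2 * ((r : ℝ) ^ N / ρ ^ N)) * ρ ^ N := by
            field_simp
        _ ≤ C * ρ ^ N := mul_le_mul_of_nonneg_right this hp.le
    have h5 : ρ ^ N ≤ ρ * (n : ℝ) ^ τ := by
      have e1 : ρ ^ N = ((q : ℝ) ^ N) ^ τ := by
        rw [hρ, ← Real.rpow_natCast ((q : ℝ) ^ τ) N, ← Real.rpow_mul hq0.le,
          ← Real.rpow_natCast (q : ℝ) N, ← Real.rpow_mul hq0.le, mul_comm]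
      rw [e1, hρ, ← Real.mul_rpow hq0.le (Nat.cast_nonneg n)]
      apply Real.rpow_le_rpow (by positivity) _ hτ0.le
      exact_mod_cast h2
    calc (rk F n : ℝ) ≤ _ := h3
      _ ≤ (e : ℝ) ^ 2 * (C * ρ ^ N) := mul_le_mul_of_nonneg_left h4 (by positivity)
      _ ≤ (e : ℝ) ^ 2 * (C * (ρ * (n : ℝ) ^ τ)) :=
          mul_le_mul_of_nonneg_left (mul_le_mul_of_nonneg_left h5 hC0) (by positivity)
      _ = (e : ℝ) ^ 2 * (C * ρ) * (n : ℝ) ^ τ := by ring

/-- **Bini / Strassen**: an approximate decomposition of `⟨q,q,q⟩` with `r` terms forces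
`q ^ ω ≤ r`. -/
theorem omega_le_of_rk_pow {q r e h : ℕ} (hq : 1 ≤ q)
    (H : ∀ N, rk F (q ^ N) ≤ r ^ N * (e * (N * h + 1)) ^ 2) :
    (q : ℝ) ^ omegaMM F ≤ r := by
  rcases Nat.lt_or_ge 1 q with h2 | h2
  · by_contra hcon
    push Not at hcon
    have hq0 : (0 : ℝ) < q := by exact_mod_cast hq
    have hcont : Continuous fun τ : ℝ => (q : ℝ) ^ τ :=
      Real.continuous_const_rpow hq0.ne'
    have hev : ∀ᶠ τ in nhds (omegaMM F), (r : ℝ) < (q : ℝ) ^ τ :=
      (hcont.tendsto (omegaMM F)).eventually (lt_mem_nhds hcon)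
    obtain ⟨δ, hδ, hball⟩ := Metric.eventually_nhds_iff.mp hev
    have hτ : (r : ℝ) < (q : ℝ) ^ (omegaMM F - δ / 2) := by
      apply hball
      rw [Real.dist_eq]
      rw [show omegaMM F - δ / 2 - omegaMM F = -(δ / 2) by ring, abs_neg, abs_of_pos (by linarith)]
      linarith
    have hmem := exponent_of_rk_pow h2 H _ hτ
    have : omegaMM F ≤ omegaMM F - δ / 2 := csInf_le omega_set_bddBelow hmem
    linarith
  · have : q = 1 := by omega
    subst this
    have hr : 1 ≤ r := by
      by_contra hcon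
      have h0 : r = 0 := by omega
      have h1 := H 1
      rw [h0] at h1
      have h2 := one_le_rk (F := F) (n := 1 ^ 1) (by simp)
      rw [pow_one (0 : ℕ), zero_mul] at h1
      omega
    simp only [Nat.cast_one, Real.one_rpow]
    exact_mod_cast hr

end expo

end Pool.Agent.H826R3.SM
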