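import Pool.Agent.H826R3.SM.Decomp
import Pool.Agent.H826R3.SM.Rank

/-!
# Approximate decompositions over finite extensions of `k⟦X⟧`
-/

namespace Pool.Agent.H826R3.SM

open scoped PowerSeries

variable {k : Type} [Field k] {O : Type} [CommRing O] [Algebra k⟦X⟧ O] [Module.Finite k⟦X⟧ O]
  [Module.Free k⟦X⟧ O]

lemma exists_retraction [FaithfulSMul k⟦X⟧ O] : ∃ η : O →ₗ[k⟦X⟧] k⟦X⟧, η 1 = 1 := by
  let b := Module.finBasis k⟦X⟧ O
  by_cases h : ∃ i, IsUnit (b.repr 1 i)
  · obtain ⟨i, u, hu⟩ := h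
    refine ⟨((u⁻¹ : k⟦X⟧ˣ) : k⟦X⟧) • b.coord i, ?_⟩
    rw [LinearMap.smul_apply, Module.Basis.coord_apply, ← hu, smul_eq_mul, Units.inv_mul]
  · exfalso
    push Not at h
    have hX : ∀ i, ∃ s, b.repr 1 i = PowerSeries.X * s := by
      intro i
      have : PowerSeries.constantCoeff (b.repr 1 i) = 0 := by
        by_contra hc
        exact h i (PowerSeries.isUnit_iff_constantCoeff.mpr (isUnit_iff_ne_zero.mpr hc))
      exact PowerSeries.X_dvd_iff.mpr this
    choose s hs using hX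
    have h1 : (1 : O) = algebraMap k⟦X⟧ O PowerSeries.X * ∑ i, s i • b i := by
      rw [Finset.mul_sum]
      conv_lhs => rw [← b.sum_repr 1]
      refine Finset.sum_congr rfl fun i _ => ?_
      rw [hs i, mul_smul, ← Algebra.smul_def]
    have hu : IsUnit (algebraMap k⟦X⟧ O PowerSeries.X) := IsUnit.of_mul_eq_one _ h1.symm
    have hint : Algebra.IsIntegral k⟦X⟧ O := inferInstance
    have hloc : IsLocalHom (algebraMap k⟦X⟧ O) := inferInstance
    have := isUnit_of_map_unit (algebraMap k⟦X⟧ O) _ hu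
    rw [PowerSeries.isUnit_iff_constantCoeff] at this
    simp at this

lemma coeff_eta (η : O →ₗ[k⟦X⟧] k⟦X⟧) (x w : O) (N : ℕ) :
    PowerSeries.coeff N (η (x * w)) = ∑ u, ∑ p ∈ Finset.range (N + 1),
      PowerSeries.coeff p ((Module.finBasis k⟦X⟧ O).repr x u) *
        PowerSeries.coeff (N - p) (η (Module.finBasis k⟦X⟧ O u * w)) := by
  have h1 : η (x * w) = ∑ u, (Module.finBasis k⟦X⟧ O).repr x u *
      η (Module.finBasis k⟦X⟧ O u * w) := by
    conv_lhs => rw [← (Module.finBasis k⟦X⟧ O).sum_repr x]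
    rw [Finset.sum_mul, map_sum]
    refine Finset.sum_congr rfl fun u _ => ?_
    rw [smul_mul_assoc, map_smul, smul_eq_mul]
  rw [h1, map_sum]
  refine Finset.sum_congr rfl fun u _ => ?_
  rw [PowerSeries.coeff_mul, Finset.Nat.sum_antidiagonal_eq_sum_range_succ_mk]

lemma sum_range_fin (H p : ℕ) (hp : p ≤ H) (f : ℕ → k) :
    ∑ q ∈ Finset.range (H - p + 1), f q = ∑ q : Fin (H + 1), if p + (q : ℕ) ≤ H then f q else 0 := by
  rw [Fin.sum_univ_eq_sum_range (fun q => if p + q ≤ H then f q else 0)]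
  have hsub : Finset.range (H - p + 1) ⊆ Finset.range (H + 1) := by
    intro q hq
    rw [Finset.mem_range] at hq ⊢
    omega
  rw [← Finset.sum_subset (f := fun q => if p + q ≤ H then f q else 0) hsub]
  · refine Finset.sum_congr rfl fun q hq => ?_
    rw [Finset.mem_range] at hq
    rw [if_pos (by omega)]
  · intro q hq hq'
    rw [Finset.mem_range] at hq hq'
    rw [if_neg (by omega)]

lemma coeff_eta_three (η : O →ₗ[k⟦X⟧] k⟦X⟧) (x y z : O) (H : ℕ) :
    PowerSeries.coeff H (η (x * y * z)) = ∑ u, ∑ p : Fin (H + 1), ∑ v, ∑ q : Fin (H + 1),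
      PowerSeries.coeff (p : ℕ) ((Module.finBasis k⟦X⟧ O).repr x u) *
      PowerSeries.coeff (q : ℕ) ((Module.finBasis k⟦X⟧ O).repr y v) *
        (if (p : ℕ) + q ≤ H then PowerSeries.coeff (H - p - q)
          (η (Module.finBasis k⟦X⟧ O v * (Module.finBasis k⟦X⟧ O u * z))) else 0) := by
  rw [mul_assoc, coeff_eta]
  refine Finset.sum_congr rfl fun u _ => ?_
  rw [← Fin.sum_univ_eq_sum_range (fun p => PowerSeries.coeff p
    ((Module.finBasis k⟦X⟧ O).repr x u) * PowerSeries.coeff (H - p)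
      (η (Module.finBasis k⟦X⟧ O u * (y * z))))]
  refine Finset.sum_congr rfl fun p _ => ?_
  have hp : (p : ℕ) ≤ H := Nat.lt_succ_iff.mp p.2
  rw [mul_left_comm (Module.finBasis k⟦X⟧ O u) y z, coeff_eta, Finset.mul_sum]
  refine Finset.sum_congr rfl fun v _ => ?_
  rw [sum_range_fin H p hp (fun q => PowerSeries.coeff q ((Module.finBasis k⟦X⟧ O).repr y v) *
    PowerSeries.coeff (H - p - q) (η (Module.finBasis k⟦X⟧ O v *
      (Module.finBasis k⟦X⟧ O u * z)))), Finset.mul_sum]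
  refine Finset.sum_congr rfl fun q _ => ?_
  split_ifs
  · ring
  · ring

theorem extract (η : O →ₗ[k⟦X⟧] k⟦X⟧) (hη : η 1 = 1) {I T : Type} [DecidableEq I] [Fintype T]
    (H : ℕ) (A B C : T → I → I → O) (P : I → I → I → I → I → I → k⟦X⟧)
    (hP : ∀ i j j' u u' l, ∑ t, A t i j * B t j' u * C t u' l =
      algebraMap k⟦X⟧ O (PowerSeries.X ^ H * P i j j' u u' l))
    (h0 : ∀ i j j' u u' l, PowerSeries.constantCoeff (P i j j' u u' l) =
      if j = j' ∧ u = u' ∧ l = i then 1 else 0) :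
    HasRankT k I (T × (Fin (Module.finrank k⟦X⟧ O) × Fin (H + 1)) ×
      (Fin (Module.finrank k⟦X⟧ O) × Fin (H + 1))) := by
  let b := Module.finBasis k⟦X⟧ O
  refine ⟨fun t i j => PowerSeries.coeff (t.2.1.2 : ℕ) (b.repr (A t.1 i j) t.2.1.1),
    fun t i j => PowerSeries.coeff (t.2.2.2 : ℕ) (b.repr (B t.1 i j) t.2.2.1),
    fun t i j => if (t.2.1.2 : ℕ) + t.2.2.2 ≤ H then PowerSeries.coeff (H - t.2.1.2 - t.2.2.2)
      (η (b t.2.2.1 * (b t.2.1.1 * C t.1 i j))) else 0, ?_⟩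
  intro i j j' u u' l
  have h1 : PowerSeries.coeff H (η (∑ t, A t i j * B t j' u * C t u' l)) =
      if j = j' ∧ u = u' ∧ l = i then 1 else 0 := by
    rw [hP, ← mul_one (algebraMap k⟦X⟧ O _), ← Algebra.smul_def, map_smul, hη, smul_eq_mul,
      mul_one, PowerSeries.coeff_X_pow_mul', if_pos le_rfl, Nat.sub_self,
      PowerSeries.coeff_zero_eq_constantCoeff_apply, h0]
  rw [← h1, map_sum, map_sum, Fintype.sum_prod_type]
  refine Finset.sum_congr rfl fun t _ => ?_
  rw [coeff_eta_three]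
  simp only [Fintype.sum_prod_type]
  rfl

end Pool.Agent.H826R3.SM
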