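import Pool.Agent.H826R3.SM.Lower2
import Pool.Agent.H826R3.SM.Crit3

/-!
# Families: products and disjoint unions of smoothable schemes
-/

namespace Pool.Agent.H826R3.SM

open scoped TensorProduct PowerSeries

variable {k : Type} [Field k]

section red

/-- the algebraic closure of `k((t))` -/
abbrev LL (k : Type) [Field k] : Type := AlgebraicClosure (LaurentSeries k)

variable {𝒜 : Type} [CommRing 𝒜] [Algebra k⟦X⟧ 𝒜]

lemma geomRed_iff :
    GeomReducedFibre k⟦X⟧ (LaurentSeries k) 𝒜 ↔ IsReduced (LL k ⊗[k⟦X⟧] 𝒜) := by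
  let e : LL k ⊗[LaurentSeries k] (LaurentSeries k ⊗[k⟦X⟧] 𝒜) ≃ₐ[LL k] LL k ⊗[k⟦X⟧] 𝒜 :=
    Algebra.TensorProduct.cancelBaseChange k⟦X⟧ (LaurentSeries k) (LL k) (LL k) 𝒜
  unfold GeomReducedFibre
  rw [Algebra.isGeometricallyReduced_field_iff]
  constructor
  · intro h
    exact isReduced_of_injective e.symm e.symm.injective
  · intro h
    exact isReduced_of_injective e e.injective

variable [Module.Finite k⟦X⟧ 𝒜]

lemma red_iff_sep {ι : Type} [Fintype ι] (b : Module.Basis ι k⟦X⟧ 𝒜) :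
    IsReduced (LL k ⊗[k⟦X⟧] 𝒜) ↔ ∀ y : ι → LL k,
      (∀ χ : 𝒜 →ₐ[k⟦X⟧] LL k, ∑ i, y i * χ (b i) = 0) → y = 0 := by
  have hrepr : ∀ y : ι → LL k, (∑ i, y i ⊗ₜ[k⟦X⟧] b i : LL k ⊗[k⟦X⟧] 𝒜) =
      ∑ i, y i • (Module.Basis.baseChange (LL k) b) i := by
    intro y
    refine Finset.sum_congr rfl fun i _ => ?_
    rw [Module.Basis.baseChange_apply, TensorProduct.smul_tmul', smul_eq_mul, mul_one]
  constructor
  · intro h y hy
    have h0 : (∑ i, y i ⊗ₜ[k⟦X⟧] b i : LL k ⊗[k⟦X⟧] 𝒜) = 0 := by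
      refine eq_zero_of_chars (L := LL k) _ fun φ => ?_
      let χ : 𝒜 →ₐ[k⟦X⟧] LL k := (φ.restrictScalars k⟦X⟧).comp
        (Algebra.TensorProduct.includeRight : 𝒜 →ₐ[k⟦X⟧] (LL k ⊗[k⟦X⟧] 𝒜))
      rw [← hy χ, map_sum]
      refine Finset.sum_congr rfl fun i _ => ?_
      have h1 : (y i ⊗ₜ[k⟦X⟧] b i : LL k ⊗[k⟦X⟧] 𝒜) = y i • (1 ⊗ₜ[k⟦X⟧] b i) := by
        rw [TensorProduct.smul_tmul', smul_eq_mul, mul_one]
      rw [h1, map_smul, smul_eq_mul]
      rfl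
    rw [hrepr] at h0
    funext i
    exact Fintype.linearIndependent_iff.mp
      (Module.Basis.baseChange (LL k) b).linearIndependent y h0 i
  · intro h
    refine ⟨fun x hx => ?_⟩
    let y : ι → LL k := fun i => (Module.Basis.baseChange (LL k) b).repr x i
    have hxy : x = ∑ i, y i ⊗ₜ[k⟦X⟧] b i := by
      rw [hrepr]
      exact ((Module.Basis.baseChange (LL k) b).sum_repr x).symm
    have h1 : y = 0 := by
      refine h y fun χ => ?_
      let φ : (LL k ⊗[k⟦X⟧] 𝒜) →ₐ[LL k] LL k :=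
        Algebra.TensorProduct.lift (AlgHom.id (LL k) (LL k)) χ (fun _ _ => Commute.all _ _)
      have h2 : φ x = 0 := by
        have := hx.map φ
        exact this.eq_zero
      rw [hxy, map_sum] at h2
      rw [← h2]
      refine Finset.sum_congr rfl fun i _ => ?_
      rw [Algebra.TensorProduct.lift_tmul]
      rfl
    rw [hxy, h1]
    simp

end red

section tens

variable {𝒜 ℬ : Type} [CommRing 𝒜] [Algebra k⟦X⟧ 𝒜] [Module.Finite k⟦X⟧ 𝒜] [Module.Free k⟦X⟧ 𝒜]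
  [CommRing ℬ] [Algebra k⟦X⟧ ℬ] [Module.Finite k⟦X⟧ ℬ] [Module.Free k⟦X⟧ ℬ]

lemma red_tensor (hA : IsReduced (LL k ⊗[k⟦X⟧] 𝒜)) (hB : IsReduced (LL k ⊗[k⟦X⟧] ℬ)) :
    IsReduced (LL k ⊗[k⟦X⟧] (𝒜 ⊗[k⟦X⟧] ℬ)) := by
  let b := Module.finBasis k⟦X⟧ 𝒜
  let c := Module.finBasis k⟦X⟧ ℬ
  rw [red_iff_sep b] at hA
  rw [red_iff_sep c] at hB
  rw [red_iff_sep (b.tensorProduct c)]
  intro y hy
  have h1 : ∀ β : ℬ →ₐ[k⟦X⟧] LL k, ∀ i, ∑ j, y (i, j) * β (c j) = 0 := by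
    intro β
    have := hA (fun i => ∑ j, y (i, j) * β (c j)) fun α => by
      have h2 := hy (Algebra.TensorProduct.productMap α β)
      rw [Fintype.sum_prod_type] at h2
      rw [← h2]
      refine Finset.sum_congr rfl fun i _ => ?_
      rw [Finset.sum_mul]
      refine Finset.sum_congr rfl fun j _ => ?_
      rw [Module.Basis.tensorProduct_apply, Algebra.TensorProduct.productMap_apply_tmul]
      ring
    exact fun i => congrFun this i
  funext ⟨i, j⟩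
  exact congrFun (hB (fun j => y (i, j)) fun β => h1 β i) j

lemma red_prod (hA : IsReduced (LL k ⊗[k⟦X⟧] 𝒜)) (hB : IsReduced (LL k ⊗[k⟦X⟧] ℬ)) :
    IsReduced (LL k ⊗[k⟦X⟧] (𝒜 × ℬ)) := by
  let e := Algebra.TensorProduct.prodRight k⟦X⟧ (LL k) (LL k) 𝒜 ℬ
  have : IsReduced ((LL k ⊗[k⟦X⟧] 𝒜) × (LL k ⊗[k⟦X⟧] ℬ)) := inferInstance
  exact isReduced_of_injective e e.injective

end tens

/-- `Spec A` is contained in the special fibre of a family of degree at most `D`. -/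
def Fam (k : Type) [Field k] (A : Type) [CommRing A] [Algebra k A] (D : ℕ) : Prop :=
  ∃ (𝒜 : Type) (_ : CommRing 𝒜) (_ : Algebra k⟦X⟧ 𝒜), Module.Finite k⟦X⟧ 𝒜 ∧
    Module.Free k⟦X⟧ 𝒜 ∧ IsReduced (LL k ⊗[k⟦X⟧] 𝒜) ∧ Module.finrank k⟦X⟧ 𝒜 ≤ D ∧
    ∃ π : 𝒜 →+* A, Function.Surjective π ∧
      ∀ c : k⟦X⟧, π (algebraMap k⟦X⟧ 𝒜 c) = algebraMap k A (PowerSeries.constantCoeff c)

section fam

variable {A B : Type} [CommRing A] [Algebra k A] [CommRing B] [Algebra k B] {D E : ℕ}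

lemma Fam.mono (h : Fam k A D) (hDE : D ≤ E) : Fam k A E := by
  obtain ⟨𝒜, c1, c2, h1, h2, h3, h4, h5⟩ := h
  exact ⟨𝒜, c1, c2, h1, h2, h3, h4.trans hDE, h5⟩

lemma Fam.of_surjective (h : Fam k A D) (f : A →ₐ[k] B) (hf : Function.Surjective f) :
    Fam k B D := by
  obtain ⟨𝒜, c1, c2, h1, h2, h3, h4, π, h5, h6⟩ := h
  refine ⟨𝒜, c1, c2, h1, h2, h3, h4, f.toRingHom.comp π, hf.comp h5, fun c => ?_⟩
  change f (π _) = _
  rw [h6, f.commutes]

lemma Fam.prod (hA : Fam k A D) (hB : Fam k B E) : Fam k (A × B) (D + E) := by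
  obtain ⟨𝒜, c1, c2, h1, h2, h3, h4, π, h5, h6⟩ := hA
  obtain ⟨ℬ, d1, d2, g1, g2, g3, g4, ρ, g5, g6⟩ := hB
  refine ⟨𝒜 × ℬ, inferInstance, inferInstance, inferInstance, inferInstance,
    red_prod h3 g3, ?_, RingHom.prodMap π ρ, h5.prodMap g5, fun c => ?_⟩
  · rw [Module.finrank_prod]
    omega
  · change (π (algebraMap k⟦X⟧ 𝒜 c), ρ (algebraMap k⟦X⟧ ℬ c)) = _
    rw [h6, g6]
    rfl

/-- joins -/
lemma Fam.join {Y : Type} [CommRing Y] [Algebra k Y] (hA : Fam k A D) (hB : Fam k B E)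
    (f : A →ₐ[k] Y) (g : B →ₐ[k] Y) (hfg : f.range ⊔ g.range = ⊤) : Fam k Y (D * E) := by
  obtain ⟨𝒜, c1, c2, h1, h2, h3, h4, π, h5, h6⟩ := hA
  obtain ⟨ℬ, d1, d2, g1, g2, g3, g4, ρ, g5, g6⟩ := hB
  let alg : Algebra k⟦X⟧ Y :=
    ((algebraMap k Y).comp (PowerSeries.constantCoeff (R := k))).toAlgebra
  let π' : 𝒜 →ₐ[k⟦X⟧] Y := { f.toRingHom.comp π with
    commutes' := fun c => by
      change f (π _) = _
      rw [h6, f.commutes]
      rfl }
  let ρ' : ℬ →ₐ[k⟦X⟧] Y := { g.toRingHom.comp ρ with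
    commutes' := fun c => by
      change g (ρ _) = _
      rw [g6, g.commutes]
      rfl }
  refine ⟨𝒜 ⊗[k⟦X⟧] ℬ, inferInstance, inferInstance, inferInstance, inferInstance,
    red_tensor h3 g3, ?_, (Algebra.TensorProduct.productMap π' ρ').toRingHom, ?_, fun c => ?_⟩
  · rw [Module.finrank_tensorProduct]
    exact Nat.mul_le_mul h4 g4
  · have hr : (Algebra.TensorProduct.productMap π' ρ').range = ⊤ := by
      rw [Algebra.TensorProduct.productMap_range, eq_top_iff]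
      have h7 : (⊤ : Subalgebra k Y) ≤ Algebra.adjoin k ((π'.range ⊔ ρ'.range : Subalgebra k⟦X⟧ Y) : Set Y) := by
        rw [← hfg, sup_le_iff]
        constructor
        · rintro _ ⟨x, rfl⟩
          obtain ⟨x, rfl⟩ := h5 x
          exact Algebra.subset_adjoin ((le_sup_left : π'.range ≤ π'.range ⊔ ρ'.range) ⟨x, rfl⟩)
        · rintro _ ⟨x, rfl⟩
          obtain ⟨x, rfl⟩ := g5 x
          exact Algebra.subset_adjoin ((le_sup_right : ρ'.range ≤ π'.range ⊔ ρ'.range) ⟨x, rfl⟩)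
      intro y _
      have h8 : y ∈ Algebra.adjoin k ((π'.range ⊔ ρ'.range : Subalgebra k⟦X⟧ Y) : Set Y) :=
        h7 trivial
      induction h8 using Algebra.adjoin_induction with
      | mem x hx => exact hx
      | algebraMap r =>
        have := (π'.range ⊔ ρ'.range : Subalgebra k⟦X⟧ Y).algebraMap_mem (PowerSeries.C r)
        have h9 : algebraMap k⟦X⟧ Y (PowerSeries.C r) = algebraMap k Y r := by
          change algebraMap k Y (PowerSeries.constantCoeff (PowerSeries.C r)) = _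
          simp
        rwa [h9] at this
      | add x y _ _ hx hy => exact Subalgebra.add_mem _ (hx trivial) (hy trivial)
      | mul x y _ _ hx hy => exact Subalgebra.mul_mem _ (hx trivial) (hy trivial)
    exact (AlgHom.range_eq_top _).mp hr
  · change Algebra.TensorProduct.productMap π' ρ' (algebraMap k⟦X⟧ _ c) = _
    rw [AlgHom.commutes]
    rfl

lemma InSmoothable.fam (h : InSmoothable k A D) : Fam k A D := by
  obtain ⟨B, cB, aB, hBfin, ⟨𝒜, cA, aA, hfin, hflat, hred, e, he⟩, hD, f, hf⟩ := h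
  have hfree : Module.Free k⟦X⟧ 𝒜 := Module.free_of_flat_of_isLocalRing
  let ρ : 𝒜 →+* A := f.toRingHom.comp (e.toRingHom.comp (Ideal.Quotient.mk _))
  have hρs : Function.Surjective ρ :=
    hf.comp (e.surjective.comp Ideal.Quotient.mk_surjective)
  have hρX : ρ (algebraMap k⟦X⟧ 𝒜 PowerSeries.X) = 0 := by
    change f (e (Ideal.Quotient.mk _ (algebraMap k⟦X⟧ 𝒜 PowerSeries.X))) = 0
    rw [Ideal.Quotient.eq_zero_iff_mem.mpr (Ideal.mem_span_singleton_self _), map_zero, map_zero]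
  have hρC : ∀ c : k, ρ (algebraMap k⟦X⟧ 𝒜 (PowerSeries.C c)) = algebraMap k A c := by
    intro c
    change f (e (Ideal.Quotient.mk _ (algebraMap k⟦X⟧ 𝒜 (PowerSeries.C c)))) = _
    rw [he, f.commutes]
  refine ⟨𝒜, cA, aA, hfin, hfree, geomRed_iff.mp hred, ?_, ρ, hρs, fun c => ?_⟩
  · rw [← hD]
    exact finrank_family_le e he
  · obtain ⟨r', hr'⟩ := powerSeries_split c
    conv_lhs => rw [hr']
    rw [map_add, map_add, map_mul, map_mul, hρC, hρX, zero_mul, add_zero]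

end fam

end Pool.Agent.H826R3.SM
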