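import Pool.Agent.H826R3.SM.Fam

/-!
# Families and smoothable schemes
-/

namespace Pool.Agent.H826R3.SM

open scoped TensorProduct PowerSeries

variable {k : Type} [Field k]

theorem Fam.inSmoothable {A : Type} [CommRing A] [Algebra k A] {D : ℕ} (H : Fam k A D) :
    ∃ D' ≤ D, InSmoothable k A D' := by
  classical
  obtain ⟨S, cS, aS, hSfin, hSfree, hred, hrk, π, hπs, hπC⟩ := H
  set I : Ideal S := Ideal.span {algebraMap k⟦X⟧ S PowerSeries.X} with hI
  have hIπ : ∀ x ∈ I, π x = 0 := by
    intro x hx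
    rw [hI, Ideal.mem_span_singleton] at hx
    obtain ⟨y, rfl⟩ := hx
    rw [map_mul, hπC]
    simp
  obtain ⟨B, cB, mkB, hmk, hkerB⟩ : ∃ (B : Type) (_ : CommRing B) (mkB : S →+* B),
      Function.Surjective mkB ∧ RingHom.ker mkB = I :=
    ⟨S ⧸ I, inferInstance, Ideal.Quotient.mk I, Ideal.Quotient.mk_surjective, Ideal.mk_ker⟩
  let ι : k →+* B := mkB.comp ((algebraMap k⟦X⟧ S).comp PowerSeries.C)
  let algB : Algebra k B := ι.toAlgebra
  have hsm : ∀ (c : k) (x : S), c • mkB x = mkB (algebraMap k⟦X⟧ S (PowerSeries.C c) * x) := by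
    intro c x
    rw [Algebra.smul_def, map_mul]
    rfl
  -- spanning
  obtain ⟨b⟩ : Nonempty (Module.Basis (Fin (Module.finrank k⟦X⟧ S)) k⟦X⟧ S) :=
    ⟨Module.finBasis k⟦X⟧ S⟩
  have hspan : Submodule.span k (Set.range fun i => mkB (b i)) = ⊤ := by
    rw [eq_top_iff]
    rintro x -
    obtain ⟨x, rfl⟩ := hmk x
    rw [← b.sum_repr x, map_sum]
    refine Submodule.sum_mem _ fun i _ => ?_
    obtain ⟨r, hr⟩ := powerSeries_split (b.repr x i)
    rw [hr, add_smul, map_add]
    have h0 : mkB ((PowerSeries.X * r) • b i) = 0 := by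
      rw [← RingHom.mem_ker, hkerB, mul_smul, Algebra.smul_def]
      exact I.mul_mem_right _ (Ideal.mem_span_singleton_self _)
    rw [h0, add_zero, Algebra.smul_def, ← hsm]
    exact Submodule.smul_mem _ _ (Submodule.subset_span ⟨i, rfl⟩)
  have hfin : Module.Finite k B :=
    ⟨⟨Set.Finite.toFinset (Set.finite_range fun i => mkB (b i)), by
      rw [Set.Finite.coe_toFinset]; exact hspan⟩⟩
  have hle : Module.finrank k B ≤ D := by
    have h1 := finrank_range_le_card (R := k) (fun i => mkB (b i))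
    rw [Set.finrank, hspan, finrank_top, Fintype.card_fin] at h1
    exact h1.trans hrk
  refine ⟨Module.finrank k B, hle, B, cB, algB, hfin, ?_, rfl, ?_⟩
  · exact ⟨S, inferInstance, inferInstance, inferInstance, inferInstance, geomRed_iff.mpr hred,
      (Ideal.quotEquivOfEq hkerB.symm).trans (RingHom.quotientKerEquivOfSurjective hmk),
      fun c => rfl⟩
  · have hfac : RingHom.ker mkB ≤ RingHom.ker π := by
      rw [hkerB]
      intro x hx
      exact hIπ x hx
    let f0 : B →+* A := mkB.liftOfSurjective hmk ⟨π, hfac⟩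
    have hf0 : ∀ x, f0 (mkB x) = π x := fun x =>
      mkB.liftOfRightInverse_comp_apply _ (Function.rightInverse_surjInv hmk) ⟨π, hfac⟩ x
    refine ⟨{ f0 with commutes' := ?_ }, ?_⟩
    · intro c
      change f0 (mkB (algebraMap k⟦X⟧ S (PowerSeries.C c))) = _
      rw [hf0, hπC]
      simp
    · intro y
      obtain ⟨x, hx⟩ := hπs y
      refine ⟨mkB x, ?_⟩
      change f0 (mkB x) = y
      rw [hf0, hx]

/-- `k` itself -/
lemma fam_self : Fam k k 1 := by
  refine ⟨k⟦X⟧, inferInstance, inferInstance, inferInstance, inferInstance, ?_, ?_,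
    PowerSeries.constantCoeff, ?_, fun c => rfl⟩
  · let e := Algebra.TensorProduct.rid k⟦X⟧ (LL k) (LL k)
    exact isReduced_of_injective e e.injective
  · rw [Module.finrank_self]
  · exact PowerSeries.constantCoeff_surj

section crt

variable {Y : Type} [CommRing Y] [Algebra k Y] {D E : ℕ}

lemma crt_bijective (e : Y) (he : e * e = e) : Function.Bijective
    ((Ideal.Quotient.mkₐ k (Ideal.span {e})).prod (Ideal.Quotient.mkₐ k (Ideal.span {1 - e}))) := by
  constructor
  · rw [injective_iff_map_eq_zero]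
    intro y hy
    have hy1 : y ∈ Ideal.span {e} := Ideal.Quotient.eq_zero_iff_mem.mp (congrArg Prod.fst hy)
    have hy2 : y ∈ Ideal.span {1 - e} :=
      Ideal.Quotient.eq_zero_iff_mem.mp (congrArg Prod.snd hy)
    rw [Ideal.mem_span_singleton] at hy1 hy2
    obtain ⟨a, ha⟩ := hy1
    obtain ⟨b, hb⟩ := hy2
    have h3 : e * y = y := by rw [ha, ← mul_assoc, he]
    have h4 : e * y = 0 := by
      rw [hb, ← mul_assoc, mul_sub, mul_one, he, sub_self, zero_mul]
    rw [← h3, h4]
  · rintro ⟨a, b⟩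
    obtain ⟨a, rfl⟩ := Ideal.Quotient.mk_surjective a
    obtain ⟨b, rfl⟩ := Ideal.Quotient.mk_surjective b
    refine ⟨(1 - e) * a + e * b, ?_⟩
    have h3 : (Ideal.Quotient.mk (Ideal.span {e})) ((1 - e) * a + e * b) =
        Ideal.Quotient.mk (Ideal.span {e}) a := by
      rw [Ideal.Quotient.eq, Ideal.mem_span_singleton]
      exact ⟨b - a, by ring⟩
    have h4 : (Ideal.Quotient.mk (Ideal.span {1 - e})) ((1 - e) * a + e * b) =
        Ideal.Quotient.mk (Ideal.span {1 - e}) b := by
      rw [Ideal.Quotient.eq, Ideal.mem_span_singleton]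
      exact ⟨a - b, by ring⟩
    exact Prod.ext h3 h4

/-- gluing along an idempotent -/
lemma Fam.crt (e : Y) (he : e * e = e) (h1 : Fam k (Y ⧸ Ideal.span {e}) D)
    (h2 : Fam k (Y ⧸ Ideal.span {1 - e}) E) : Fam k Y (D + E) := by
  let F := AlgEquiv.ofBijective _ (crt_bijective (k := k) e he)
  exact (h1.prod h2).of_surjective F.symm.toAlgHom F.symm.surjective

end crt

end Pool.Agent.H826R3.SM
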