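import Pool.Agent.H826R3.SM.Lower3

/-!
# The threshold theorem
-/

namespace Pool.Agent.H826R3.SM

open scoped TensorProduct PowerSeries Topology
open Filter

variable {k : Type} [Field k]

lemma finrank_pow {A : Type} [CommRing A] [Algebra k A] [Module.Finite k A] (n : ℕ) :
    Module.finrank k (Pow k A n) = Module.finrank k A ^ n := by
  have b := Basis.piTensorProduct (fun _ : Fin n => Module.finBasis k A)
  rw [Module.finrank_eq_card_basis b]
  simp

lemma finrank_le_of_inSmoothable {A : Type} [CommRing A] [Algebra k A] {D : ℕ}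
    (h : InSmoothable k A D) : Module.finrank k A ≤ D := by
  obtain ⟨B, _, _, hB, _, hD, f, hf⟩ := h
  rw [← hD]
  exact LinearMap.finrank_le_finrank_of_surjective (f := f.toLinearMap) hf

lemma defect_le {A : Type} [CommRing A] [Algebra k A] {D : ℕ}
    (h : InSmoothable k A D) : defect k A ≤ D := by
  have h1 := finrank_le_of_inSmoothable h
  have h2 : D - Module.finrank k A ∈ {e : ℕ | InSmoothable k A (Module.finrank k A + e)} := by
    change InSmoothable k A _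
    rwa [Nat.add_sub_cancel' h1]
  exact (Nat.sInf_le h2).trans (Nat.sub_le _ _)

lemma defect_spec {A : Type} [CommRing A] [Algebra k A] {D : ℕ}
    (h : InSmoothable k A D) : InSmoothable k A (Module.finrank k A + defect k A) := by
  have h1 := finrank_le_of_inSmoothable h
  have h2 : D - Module.finrank k A ∈ {e : ℕ | InSmoothable k A (Module.finrank k A + e)} := by
    change InSmoothable k A _
    rwa [Nat.add_sub_cancel' h1]
  exact Nat.sInf_mem ⟨_, h2⟩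

/-- the ratio of the problem -/
noncomputable def ratio (k : Type) [Field k] (m : ℕ) (ε : ℝ) (n : ℕ) : ℝ :=
  (defect k (Pow k (Abar k m) n) : ℝ) / (Module.finrank k (Abar k m) : ℝ) ^ ((1 + ε) * (n : ℝ))

lemma denom_eq {m : ℕ} (ε : ℝ) (n : ℕ) :
    (Module.finrank k (Abar k m) : ℝ) ^ ((1 + ε) * (n : ℝ)) =
      ((Module.finrank k (Abar k m) : ℝ) ^ (1 + ε)) ^ n := by
  rw [Real.rpow_mul (Nat.cast_nonneg _), Real.rpow_natCast]

theorem ratio_tendsto_zero [IsAlgClosed k] [CharZero k] {ε : ℝ} (hε : 0 < ε)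
    (hω : omegaMM k < 2 * (1 + ε)) :
    ∀ᶠ m : ℕ in atTop, Tendsto (ratio k m ε) atTop (𝓝 0) := by
  obtain ⟨τ, ⟨C, hC⟩, hτ⟩ := exists_lt_of_csInf_lt (omega_set_nonempty (F := k)) hω
  have hlim : Tendsto (fun m : ℕ => 6 * C * ((m : ℝ) ^ (τ - 2 * (1 + ε)))) atTop (𝓝 0) := by
    have h1 : Tendsto (fun m : ℕ => (m : ℝ) ^ (-(2 * (1 + ε) - τ))) atTop (𝓝 0) :=
      (tendsto_rpow_neg_atTop (by linarith)).comp tendsto_natCast_atTop_atTop
    have h2 := h1.const_mul (6 * C)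
    rw [mul_zero] at h2
    refine h2.congr fun m => ?_
    rw [neg_sub]
  have hev := hlim.eventually (gt_mem_nhds (show (0 : ℝ) < 1 / 2 by norm_num))
  filter_upwards [hev, eventually_ge_atTop 1] with m hm hm1
  have hm0 : (0 : ℝ) < m := by exact_mod_cast hm1
  set d : ℝ := (Module.finrank k (Abar k m) : ℝ) with hd
  have hdm : (m : ℝ) ^ 2 ≤ d := by
    rw [hd]
    exact_mod_cast le_abar_finrank (k := k) m
  have hd0 : 0 < d := lt_of_lt_of_le (by positivity) hdm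
  have hdε : ((m : ℝ) ^ (2 * (1 + ε))) ≤ d ^ (1 + ε) := by
    rw [Real.rpow_mul hm0.le, Real.rpow_two]
    exact Real.rpow_le_rpow (by positivity) hdm (by linarith)
  have hdε0 : 0 < d ^ (1 + ε) := Real.rpow_pos_of_pos hd0 _
  have hx : (6 * (rk k m : ℝ)) / d ^ (1 + ε) ≤ 1 / 2 := by
    have h1 : 6 * (rk k m : ℝ) ≤ 6 * C * (m : ℝ) ^ τ := by
      have := hC m
      nlinarith
    have h2 : (m : ℝ) ^ τ = (m : ℝ) ^ (τ - 2 * (1 + ε)) * (m : ℝ) ^ (2 * (1 + ε)) := by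
      rw [← Real.rpow_add hm0]
      congr 1
      ring
    rw [div_le_iff₀ hdε0]
    calc 6 * (rk k m : ℝ) ≤ 6 * C * (m : ℝ) ^ τ := h1
      _ = (6 * C * (m : ℝ) ^ (τ - 2 * (1 + ε))) * (m : ℝ) ^ (2 * (1 + ε)) := by
          rw [h2]; ring
      _ ≤ (1 / 2) * (m : ℝ) ^ (2 * (1 + ε)) :=
          mul_le_mul_of_nonneg_right hm.le (Real.rpow_nonneg hm0.le _)
      _ ≤ 1 / 2 * d ^ (1 + ε) := mul_le_mul_of_nonneg_left hdε (by norm_num)
  have hx0 : 0 ≤ (6 * (rk k m : ℝ)) / d ^ (1 + ε) := by positivity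
  refine squeeze_zero (fun n => ?_) (fun n => ?_)
    (tendsto_pow_atTop_nhds_zero_of_lt_one (by norm_num : (0 : ℝ) ≤ 1 / 2) (by norm_num))
  · unfold ratio
    positivity
  · unfold ratio
    rw [denom_eq, ← hd]
    obtain ⟨D, hD, hS⟩ := upper (k := k) hm1 n
    have h1 : (defect k (Pow k (Abar k m) n) : ℝ) ≤ (6 * (rk k m : ℝ)) ^ n := by
      exact_mod_cast (defect_le hS).trans hD
    calc (defect k (Pow k (Abar k m) n) : ℝ) / (d ^ (1 + ε)) ^ n
        ≤ (6 * (rk k m : ℝ)) ^ n / (d ^ (1 + ε)) ^ n :=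
          div_le_div_of_nonneg_right h1 (by positivity)
      _ = ((6 * (rk k m : ℝ)) / d ^ (1 + ε)) ^ n := by rw [div_pow]
      _ ≤ (1 / 2) ^ n := pow_le_pow_left₀ hx0 hx n

lemma lower' [CharZero k] {m n D : ℕ} (hm : 3 ≤ m)
    (hS : InSmoothable k (Pow k (Abar k m) n) D) :
    ((((m / 3 : ℕ)) : ℝ) ^ omegaMM k) ^ n ≤ D := by
  have h1 : 1 ≤ m / 3 := by omega
  have h := lower (q := m / 3) (by omega) h1 hS
  have h0 : (0 : ℝ) ≤ ((m / 3 : ℕ) : ℝ) := Nat.cast_nonneg _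
  have h2 : (((m / 3 : ℕ) : ℝ) ^ omegaMM k) ^ n = ((((m / 3) ^ n : ℕ)) : ℝ) ^ omegaMM k := by
    rw [← Real.rpow_natCast, ← Real.rpow_mul h0, mul_comm, Real.rpow_mul h0, Real.rpow_natCast]
    push_cast
    rfl
  rw [h2]
  exact h

theorem ratio_tendsto_atTop [IsAlgClosed k] [CharZero k] {ε : ℝ} (hε : 0 < ε)
    (hω : 2 * (1 + ε) < omegaMM k) :
    ∀ᶠ m : ℕ in atTop, Tendsto (ratio k m ε) atTop atTop := by
  have hω0 : 0 < omegaMM k := by linarith
  set ω := omegaMM k with hωdef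
  have hlim : Tendsto (fun m : ℕ => ((1 / 5 : ℝ) ^ ω / 3 ^ (1 + ε)) *
      ((m : ℝ) ^ (ω - 2 * (1 + ε)))) atTop atTop := by
    have h1 : Tendsto (fun m : ℕ => (m : ℝ) ^ (ω - 2 * (1 + ε))) atTop atTop :=
      (tendsto_rpow_atTop (by linarith)).comp tendsto_natCast_atTop_atTop
    exact h1.const_mul_atTop (by positivity)
  filter_upwards [hlim.eventually_ge_atTop 2, eventually_ge_atTop 3] with m hm hm3
  have hm0 : (0 : ℝ) < m := by exact_mod_cast (by omega : 0 < m)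
  have hm1 : (1 : ℝ) ≤ m := by exact_mod_cast (by omega : 1 ≤ m)
  set d : ℝ := (Module.finrank k (Abar k m) : ℝ) with hd
  have hdm : (m : ℝ) ^ 2 ≤ d := by
    rw [hd]
    exact_mod_cast le_abar_finrank (k := k) m
  have hd1 : 1 ≤ d := le_trans (by nlinarith) hdm
  have hdu : d ≤ 3 * (m : ℝ) ^ 2 := by
    have h1 : d ≤ 2 * (m : ℝ) ^ 2 + 1 := by
      rw [hd]
      exact_mod_cast abar_finrank_le (k := k) m
    nlinarith
  have hdε : d ^ (1 + ε) ≤ 3 ^ (1 + ε) * (m : ℝ) ^ (2 * (1 + ε)) := by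
    rw [Real.rpow_mul hm0.le, Real.rpow_two, ← Real.mul_rpow (by norm_num) (by positivity)]
    exact Real.rpow_le_rpow (by linarith) hdu (by linarith)
  have hdε1 : 1 ≤ d ^ (1 + ε) := Real.one_le_rpow hd1 (by linarith)
  have hdd : d ≤ d ^ (1 + ε) := by
    conv_lhs => rw [← Real.rpow_one d]
    exact Real.rpow_le_rpow_of_exponent_le hd1 (by linarith)
  have hq : (m : ℝ) / 5 ≤ ((m / 3 : ℕ) : ℝ) := by
    have h1 : m ≤ 5 * (m / 3) := by omega
    have h2 : (m : ℝ) ≤ 5 * ((m / 3 : ℕ) : ℝ) := by exact_mod_cast h1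
    linarith
  set Q : ℝ := ((m / 3 : ℕ) : ℝ) ^ ω with hQ
  have hQd : 2 * d ^ (1 + ε) ≤ Q := by
    have h1 : (1 / 5 : ℝ) ^ ω * (m : ℝ) ^ ω ≤ Q := by
      rw [← Real.mul_rpow (by norm_num) hm0.le]
      refine Real.rpow_le_rpow (by positivity) ?_ hω0.le
      linarith
    have h2 : (m : ℝ) ^ ω = (m : ℝ) ^ (ω - 2 * (1 + ε)) * (m : ℝ) ^ (2 * (1 + ε)) := by
      rw [← Real.rpow_add hm0]
      congr 1
      ring
    have h3 : (0 : ℝ) < 3 ^ (1 + ε) := Real.rpow_pos_of_pos (by norm_num) _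
    calc 2 * d ^ (1 + ε) ≤ 2 * (3 ^ (1 + ε) * (m : ℝ) ^ (2 * (1 + ε))) := by linarith
      _ ≤ (((1 / 5 : ℝ) ^ ω / 3 ^ (1 + ε)) * ((m : ℝ) ^ (ω - 2 * (1 + ε)))) *
            (3 ^ (1 + ε) * (m : ℝ) ^ (2 * (1 + ε))) :=
          mul_le_mul_of_nonneg_right hm (by positivity)
      _ = (1 / 5 : ℝ) ^ ω * (m : ℝ) ^ ω := by
          rw [h2]
          field_simp
      _ ≤ Q := h1
  have hlow : ∀ n : ℕ, (2 : ℝ) ^ n - 1 ≤ ratio k m ε n := by
    intro n
    obtain ⟨D, -, hS⟩ := upper (k := k) (m := m) (by omega) n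
    have hspec := defect_spec hS
    have h1 := lower' hm3 hspec
    rw [finrank_pow] at h1
    push_cast at h1
    rw [← hωdef, ← hQ, ← hd] at h1
    unfold ratio
    rw [denom_eq, ← hd]
    have hpos : 0 < (d ^ (1 + ε)) ^ n := by positivity
    rw [le_div_iff₀ hpos]
    have h2 : (2 * d ^ (1 + ε)) ^ n ≤ Q ^ n := pow_le_pow_left₀ (by positivity) hQd n
    have h3 : d ^ n ≤ (d ^ (1 + ε)) ^ n := pow_le_pow_left₀ (by linarith) hdd n
    rw [mul_pow] at h2
    linarith [h1, h2, h3]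
  refine tendsto_atTop_mono hlow ?_
  exact tendsto_atTop_add_const_right _ _ (tendsto_pow_atTop_atTop_of_one_lt (by norm_num))

end Pool.Agent.H826R3.SM
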