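import Pool.Agent.H826R3.SM.Tensor

/-!
# Section data from points: cones over finite sets of points
-/

namespace Pool.Agent.H826R3.SM

open scoped TensorProduct PowerSeries
open MvPolynomial

variable {k : Type} [Field k]

lemma root_sum {N : ℕ} {ζ : k} (hζ : IsPrimitiveRoot ζ N) (hN : (N : k) ≠ 0) (e' : ℕ)
    (e : Fin N) : (N : k)⁻¹ * ∑ j : Fin N, (ζ⁻¹) ^ ((j : ℕ) * e) * ζ ^ ((j : ℕ) * e') =
      if e' % N = e then 1 else 0 := by
  have hN0 : N ≠ 0 := by rintro rfl; exact hN (by simp)
  have hζ0 : ζ ≠ 0 := hζ.ne_zero hN0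
  have h1 : ∀ j : Fin N, (ζ⁻¹) ^ ((j : ℕ) * e) * ζ ^ ((j : ℕ) * e') =
      ((ζ⁻¹) ^ (e : ℕ) * ζ ^ e') ^ (j : ℕ) := by
    intro j
    rw [mul_pow, ← pow_mul, ← pow_mul, mul_comm (e : ℕ), mul_comm e']
  simp only [h1]
  rw [Fin.sum_univ_eq_sum_range (fun j => ((ζ⁻¹) ^ (e : ℕ) * ζ ^ e') ^ j)]
  have hmod : ζ ^ e' = ζ ^ (e' % N) := by
    conv_lhs => rw [← Nat.mod_add_div e' N, pow_add, pow_mul, hζ.pow_eq_one, one_pow, mul_one]
  by_cases h : e' % N = e
  · rw [if_pos h, hmod, h, ← mul_pow, inv_mul_cancel₀ hζ0]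
    simp [hN]
  · rw [if_neg h]
    set z := (ζ⁻¹) ^ (e : ℕ) * ζ ^ e' with hz
    have hz1 : z ≠ 1 := by
      intro hz1
      apply h
      have : ζ ^ (e' % N) = ζ ^ (e : ℕ) := by
        rw [← hmod]
        have h3 : ζ ^ (e : ℕ) * z = ζ ^ e' := by
          rw [hz, ← mul_assoc, ← mul_pow, mul_inv_cancel₀ hζ0, one_pow, one_mul]
        rw [← h3, hz1, mul_one]
      exact hζ.pow_inj (Nat.mod_lt _ (Nat.pos_of_ne_zero hN0)) e.2 this
    have hzN : z ^ N = 1 := by
      rw [hz, mul_pow, ← pow_mul, ← pow_mul, mul_comm (e : ℕ), mul_comm e', pow_mul, pow_mul,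
        inv_pow, hζ.pow_eq_one]
      simp
    have := geom_sum_mul z N
    rw [hzN, sub_self] at this
    rcases mul_eq_zero.mp this with h4 | h4
    · rw [h4, mul_zero]
    · exact absurd (sub_eq_zero.mp h4) hz1

lemma aeval_scaled {σ : Type} (v : σ → k) (r : k) (s : σ →₀ ℕ) (c : k) :
    aeval (fun i => (PowerSeries.C (r * v i) * PowerSeries.X : k⟦X⟧)) (monomial s c) =
      PowerSeries.C (r ^ s.degree * eval v (monomial s c)) * PowerSeries.X ^ s.degree := by
  rw [aeval_monomial, eval_monomial]
  have : (s.prod fun i n => (PowerSeries.C (r * v i) * PowerSeries.X : k⟦X⟧) ^ n) =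
      PowerSeries.C (r ^ s.degree * s.prod fun i n => v i ^ n) * PowerSeries.X ^ s.degree := by
    simp only [Finsupp.prod, mul_pow, map_mul, Finset.prod_mul_distrib, Finset.prod_pow_eq_pow_sum,
      Finsupp.degree, map_pow, map_prod]
    rfl
  rw [this]
  change PowerSeries.C c * _ = _
  simp only [map_mul]
  ring

theorem hasSec_of_points {σ : Type} (I : Ideal (MvPolynomial σ k)) {T : Type} [Fintype T]
    (v : T → σ → k) (N : ℕ) (ζ : k) (hζ : IsPrimitiveRoot ζ N) (hN : (N : k) ≠ 0)
    (hI : ∀ F : MvPolynomial σ k,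
      (∀ e < N, ∀ t, eval (v t) (homogeneousComponent e F) = 0) → F ∈ I) :
    HasSec k (MvPolynomial σ k ⧸ I) (T × Fin N) := by
  classical
  have hN0 : 0 < N := by
    rcases Nat.eq_zero_or_pos N with rfl | h
    · exact absurd (by simp) hN
    · exact h
  refine ⟨σ, fun s => Ideal.Quotient.mk I (X s),
    fun t i => PowerSeries.C (ζ ^ (t.2 : ℕ) * v t.1 i) * PowerSeries.X, N - 1, ?_, ?_⟩
  · rw [Algebra.adjoin_range_eq_range_aeval, eq_top_iff]
    rintro y -
    obtain ⟨F, rfl⟩ := Ideal.Quotient.mk_surjective y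
    refine ⟨F, ?_⟩
    change aeval (fun s => Ideal.Quotient.mkₐ k I (X s)) F = Ideal.Quotient.mkₐ k I F
    rw [← MvPolynomial.comp_aeval_apply, aeval_X_left_apply]
  intro φ
  let L : T × Fin N → (MvPolynomial σ k →ₗ[k] k) := fun te =>
    (aeval (R := k) (v te.1)).toLinearMap ∘ₗ homogeneousComponent (te.2 : ℕ)
  have hL : ∀ te F, L te F = eval (v te.1) (homogeneousComponent (te.2 : ℕ) F) := by
    intro te F
    rfl
  let μ : MvPolynomial σ k →ₗ[k] k := φ ∘ₗ (Ideal.Quotient.mkₐ k I).toLinearMap
  have hμ : μ ∈ Submodule.span k (Set.range L) := by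
    refine mem_span_of_iInf_ker_le_ker fun F hF => ?_
    rw [Submodule.mem_iInf] at hF
    have hFI : F ∈ I := by
      refine hI F fun e he t => ?_
      have := hF (t, ⟨e, he⟩)
      rw [LinearMap.mem_ker, hL] at this
      exact this
    rw [LinearMap.mem_ker]
    change φ (Ideal.Quotient.mk I F) = 0
    rw [Ideal.Quotient.eq_zero_iff_mem.mpr hFI, map_zero]
  rw [Submodule.mem_span_range_iff_exists_fun] at hμ
  obtain ⟨c, hc⟩ := hμ
  refine ⟨fun tj => ∑ e : Fin N, PowerSeries.C (c (tj.1, e) * ((N : k)⁻¹ *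
    (ζ⁻¹) ^ ((tj.2 : ℕ) * e))) * PowerSeries.X ^ (N - 1 - (e : ℕ)), fun M => ?_⟩
  induction M using MvPolynomial.induction_on' with
  | add x y hx hy =>
    obtain ⟨g1, h1, h1'⟩ := hx
    obtain ⟨g2, h2, h2'⟩ := hy
    refine ⟨g1 + g2, ?_, ?_⟩
    · rw [mul_add, ← h1, ← h2, ← Finset.sum_add_distrib]
      refine Finset.sum_congr rfl fun t _ => ?_
      rw [map_add, mul_add]
    · rw [map_add, h1', h2', map_add, map_add]
  | monomial s r =>
    set d := s.degree with hd
    have hdm : d % N < N := Nat.mod_lt _ hN0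
    refine ⟨∑ t, PowerSeries.C (c (t, ⟨d % N, hdm⟩) * eval (v t) (monomial s r)) *
      PowerSeries.X ^ (d - d % N), ?_, ?_⟩
    · rw [Fintype.sum_prod_type, Finset.mul_sum]
      refine Finset.sum_congr rfl fun t _ => ?_
      simp only [aeval_scaled, ← hd, ← pow_mul]
      calc ∑ j : Fin N, (∑ e : Fin N, PowerSeries.C (c (t, e) * ((N : k)⁻¹ *
              (ζ⁻¹) ^ ((j : ℕ) * e))) * PowerSeries.X ^ (N - 1 - (e : ℕ))) *
            (PowerSeries.C (ζ ^ ((j : ℕ) * d) * eval (v t) (monomial s r)) * PowerSeries.X ^ d)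
          = ∑ e : Fin N, PowerSeries.C (c (t, e) * eval (v t) (monomial s r) *
              ((N : k)⁻¹ * ∑ j : Fin N, (ζ⁻¹) ^ ((j : ℕ) * e) * ζ ^ ((j : ℕ) * d))) *
              PowerSeries.X ^ (N - 1 - (e : ℕ) + d) := by
            simp only [Finset.sum_mul, Finset.mul_sum, map_sum, map_mul, pow_add]
            rw [Finset.sum_comm]
            refine Finset.sum_congr rfl fun e _ => Finset.sum_congr rfl fun j _ => ?_
            ring
        _ = ∑ e : Fin N, if d % N = e then PowerSeries.C (c (t, e) * eval (v t) (monomial s r)) *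
              PowerSeries.X ^ (N - 1 - (e : ℕ) + d) else 0 := by
            refine Finset.sum_congr rfl fun e _ => ?_
            rw [root_sum hζ hN]
            split_ifs <;> simp
        _ = PowerSeries.X ^ (N - 1) * (PowerSeries.C (c (t, ⟨d % N, hdm⟩) *
              eval (v t) (monomial s r)) * PowerSeries.X ^ (d - d % N)) := by
            rw [Finset.sum_eq_single ⟨d % N, hdm⟩]
            · rw [if_pos rfl, mul_left_comm, ← pow_add]
              congr 2
              have := Nat.mod_le d N
              simp only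
              omega
            · intro e _ he
              rw [if_neg]
              intro h
              exact he (Fin.ext h.symm)
            · intro h
              exact absurd (Finset.mem_univ _) h
    · have h0 : φ (aeval (R := k) (fun s => Ideal.Quotient.mk I (X s)) (monomial s r)) =
          μ (monomial s r) := by
        change φ _ = φ _
        congr 1
        change aeval (R := k) (fun s => Ideal.Quotient.mkₐ k I (X s)) _ = Ideal.Quotient.mkₐ k I _
        rw [← MvPolynomial.comp_aeval_apply, aeval_X_left_apply]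
      rw [h0, ← hc, LinearMap.sum_apply, Fintype.sum_prod_type, map_sum]
      refine Finset.sum_congr rfl fun t _ => ?_
      simp only [LinearMap.smul_apply, hL, smul_eq_mul]
      have hcomp : ∀ e : ℕ, homogeneousComponent e (monomial s r : MvPolynomial σ k) =
          if d = e then monomial s r else 0 := by
        intro e
        rw [homogeneousComponent_of_mem (m := e) (n := d) (isHomogeneous_monomial r hd.symm)]
        by_cases h : d = e
        · rw [if_pos h, if_pos h.symm]
        · rw [if_neg h, if_neg (fun h' => h h'.symm)]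
      rw [map_mul, PowerSeries.constantCoeff_C, map_pow, PowerSeries.constantCoeff_X]
      by_cases hdN : d < N
      · have hmodd : d % N = d := Nat.mod_eq_of_lt hdN
        have hfin : (⟨d % N, hdm⟩ : Fin N) = ⟨d, hdN⟩ := Fin.ext hmodd
        have hz : d - d % N = 0 := by omega
        rw [hfin, hz, pow_zero, mul_one]
        rw [Finset.sum_eq_single (⟨d, hdN⟩ : Fin N)]
        · rw [hcomp, if_pos rfl]
        · intro e _ he
          rw [hcomp, if_neg (fun h : d = (e : ℕ) => he (Fin.ext h.symm)), map_zero, mul_zero]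
        · intro h
          exact absurd (Finset.mem_univ _) h
      · have hpos : d - d % N ≠ 0 := by omega
        rw [zero_pow hpos, mul_zero]
        symm
        refine Finset.sum_eq_zero fun e _ => ?_
        have hne : d ≠ (e : ℕ) := fun h => hdN (by rw [h]; exact e.2)
        rw [hcomp, if_neg hne, map_zero, mul_zero]

end Pool.Agent.H826R3.SM
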