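import Pool.Agent.H826R3.SM.Reduce
import Pool.Agent.H826R3.SM.Points
import Pool.Agent.H826R3.SM.Final

/-!
# Finiteness of the defect for powers of apolar algebras
-/

namespace Pool.Agent.H826R3.SM

open scoped TensorProduct PowerSeries Topology
open Filter MvPolynomial

variable {k : Type} [Field k]

section grid

variable {σ : Type} [Fintype σ] {s : ℕ} {Φ : MvPolynomial σ k →ₗ[k] k}

/-- the grid points -/
def gp (c : Fin (s + 1) → k) (t : σ → Fin (s + 1)) : σ → k := fun i => c (t i)

lemma component_eq_zero (c : Fin (s + 1) → k) (hc : Function.Injective c) {e : ℕ} (he : e ≤ s)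
    (F : MvPolynomial σ k)
    (h : ∀ t : σ → Fin (s + 1), eval (gp c t) (homogeneousComponent e F) = 0) :
    homogeneousComponent e F = 0 := by
  classical
  refine MvPolynomial.eq_zero_of_eval_zero_at_prod_finset _
    (fun _ => Finset.univ.image c) (fun i => ?_) (fun x hx => ?_)
  · rw [Finset.card_image_of_injective _ hc, Finset.card_univ, Fintype.card_fin]
    refine Nat.lt_succ_of_le (le_trans ?_ he)
    exact (degreeOf_le_totalDegree _ i).trans
      ((homogeneousComponent_isHomogeneous e F).totalDegree_le)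
  · have h1 : ∀ i, ∃ j, c j = x i := fun i => by
      have := hx i
      simpa using this
    choose t ht using h1
    have h2 : x = gp c t := by
      funext i
      exact (ht i).symm
    rw [h2]
    exact h t

lemma mem_annOf_of_components (hΦ : IsDualForm s Φ) (F : MvPolynomial σ k)
    (h : ∀ e ≤ s, homogeneousComponent e F = 0) : F ∈ annOf Φ := by
  intro G
  have hF : F = ∑ e ∈ Finset.range (F.totalDegree + 1), homogeneousComponent e F :=
    (sum_homogeneousComponent F).symm
  have hG : G = ∑ e ∈ Finset.range (G.totalDegree + 1), homogeneousComponent e G :=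
    (sum_homogeneousComponent G).symm
  rw [hF, hG, Finset.sum_mul_sum, map_sum]
  refine Finset.sum_eq_zero fun i _ => ?_
  rw [map_sum]
  refine Finset.sum_eq_zero fun j _ => ?_
  by_cases hi : i ≤ s
  · rw [h i hi, zero_mul, map_zero]
  · exact hΦ (i + j) (by omega) _ ((homogeneousComponent_isHomogeneous i F).mul
      (homogeneousComponent_isHomogeneous j G))

lemma finite_apolar [Infinite k] (hΦ : IsDualForm s Φ) : Module.Finite k (ApolarAlg Φ) := by
  obtain ⟨c⟩ : Nonempty (Fin (s + 1) ↪ k) := ⟨(Fin.valEmbedding).trans (Infinite.natEmbedding k)⟩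
  let K : MvPolynomial σ k →ₗ[k] (Fin (s + 1) × (σ → Fin (s + 1)) → k) :=
    LinearMap.pi fun x => (aeval (R := k) (gp c x.2)).toLinearMap ∘ₗ
      (homogeneousComponent (x.1 : ℕ))
  refine (finrank_quot_le (annOf Φ) K fun F hF => ?_).1
  refine mem_annOf_of_components hΦ F fun e he => ?_
  refine component_eq_zero c c.injective he F fun t => ?_
  have := congrFun hF (⟨e, Nat.lt_succ_of_le he⟩, t)
  change aeval (gp c t) (homogeneousComponent e F) = 0 at this
  rwa [← coe_aeval_eq_eval]

theorem hasSec_apolar [IsAlgClosed k] (hΦ : IsDualForm s Φ) :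
    ∃ (T : Type) (_ : Fintype T), HasSec k (ApolarAlg Φ) T := by
  classical
  have hinf : Infinite k := IsAlgClosed.instInfinite
  obtain ⟨c⟩ : Nonempty (Fin (s + 1) ↪ k) := ⟨(Fin.valEmbedding).trans (Infinite.natEmbedding k)⟩
  obtain ⟨N, hN1, hN2⟩ : ∃ N : ℕ, s + 1 ≤ N ∧ (N : k) ≠ 0 := by
    by_cases h : ((s + 1 : ℕ) : k) = 0
    · refine ⟨s + 2, by omega, ?_⟩
      have : ((s + 2 : ℕ) : k) = ((s + 1 : ℕ) : k) + 1 := by push_cast; ring
      rw [this, h, zero_add]
      exact one_ne_zero
    · exact ⟨s + 1, le_rfl, h⟩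
  have hNz : NeZero (N : k) := ⟨hN2⟩
  obtain ⟨ζ, hζ⟩ := HasEnoughRootsOfUnity.exists_primitiveRoot k N
  refine ⟨(σ → Fin (s + 1)) × Fin N, inferInstance,
    hasSec_of_points (annOf Φ) (gp c) N ζ hζ hN2 fun F hF => ?_⟩
  refine mem_annOf_of_components hΦ F fun e he => ?_
  exact component_eq_zero c c.injective he F fun t => hF e (by omega) t

end grid

end Pool.Agent.H826R3.SM
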