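import Pool.Agent.H826R3.SM.Crit3

/-!
# Section data for tensor powers
-/

namespace Pool.Agent.H826R3.SM

open scoped TensorProduct PowerSeries
open MvPolynomial PiTensorProduct

variable {k : Type} [Field k]

section gen

variable {A : Type} [CommRing A] [Algebra k A]

lemma tprod_eq_prod_single (n : ℕ) (x : Fin n → A) :
    (PiTensorProduct.tprod k x : Pow k A n) =
      ∏ i, PiTensorProduct.singleAlgHom (R := k) (A := fun _ : Fin n => A) i (x i) := by
  conv_lhs => rw [← Finset.univ_prod_mulSingle x]
  rw [PiTensorProduct.tprod_prod]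
  rfl

lemma adjoin_pow {σ : Type} {a : σ → A} (hgen : Algebra.adjoin k (Set.range a) = ⊤) (n : ℕ) :
    Algebra.adjoin k (Set.range fun v : Fin n × σ =>
      PiTensorProduct.singleAlgHom (R := k) (A := fun _ : Fin n => A) v.1 (a v.2)) = ⊤ := by
  have hs : ∀ (i : Fin n) (x : A), PiTensorProduct.singleAlgHom (R := k) (A := fun _ : Fin n => A)
      i x ∈ Algebra.adjoin k (Set.range fun v : Fin n × σ =>
      PiTensorProduct.singleAlgHom (R := k) (A := fun _ : Fin n => A) v.1 (a v.2)) := by
    intro i x
    have hx : x ∈ Algebra.adjoin k (Set.range a) := by rw [hgen]; trivial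
    have h1 : PiTensorProduct.singleAlgHom (R := k) (A := fun _ : Fin n => A) i x ∈
        (Algebra.adjoin k (Set.range a)).map
          (PiTensorProduct.singleAlgHom (R := k) (A := fun _ : Fin n => A) i) := ⟨x, hx, rfl⟩
    rw [AlgHom.map_adjoin] at h1
    refine Algebra.adjoin_mono ?_ h1
    rintro _ ⟨_, ⟨s, rfl⟩, rfl⟩
    exact ⟨(i, s), rfl⟩
  rw [eq_top_iff]
  rintro y -
  induction y using PiTensorProduct.induction_on with
  | smul_tprod r x =>
    refine Subalgebra.smul_mem _ ?_ r
    rw [tprod_eq_prod_single]
    exact Subalgebra.prod_mem _ fun i _ => hs i (x i)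
  | add x y hx hy => exact Subalgebra.add_mem _ hx hy

end gen

lemma mem_span_prod {σ : Type} (n : ℕ) (M : MvPolynomial (Fin n × σ) k) :
    M ∈ Submodule.span k (Set.range fun N : Fin n → MvPolynomial σ k =>
      ∏ i, rename (Prod.mk i) (N i)) := by
  classical
  induction M using MvPolynomial.induction_on with
  | C r =>
    have : (C r : MvPolynomial (Fin n × σ) k) = r • ∏ i : Fin n, rename (Prod.mk i) (1 : MvPolynomial σ k) := by
      simp [MvPolynomial.smul_eq_C_mul]
    rw [this]
    exact Submodule.smul_mem _ _ (Submodule.subset_span ⟨fun _ => 1, rfl⟩)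
  | add p q hp hq => exact Submodule.add_mem _ hp hq
  | mul_X p v hp =>
    induction hp using Submodule.span_induction with
    | mem x hx =>
      obtain ⟨N, rfl⟩ := hx
      refine Submodule.subset_span ⟨fun i => N i * (if i = v.1 then X v.2 else 1), ?_⟩
      simp only [map_mul, Finset.prod_mul_distrib]
      congr 1
      rw [Finset.prod_eq_single v.1]
      · simp
      · intro i _ hi
        rw [if_neg hi, map_one]
      · intro h
        exact absurd (Finset.mem_univ _) h
    | zero => rw [zero_mul]; exact Submodule.zero_mem _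
    | add x y _ _ hx hy => rw [add_mul]; exact Submodule.add_mem _ hx hy
    | smul r x _ hx => rw [smul_mul_assoc]; exact Submodule.smul_mem _ _ hx

theorem HasSec.pow {A : Type} [CommRing A] [Algebra k A] [Module.Finite k A] {T : Type}
    [Fintype T] (H : HasSec k A T) (n : ℕ) : HasSec k (Pow k A n) (Fin n → T) := by
  classical
  obtain ⟨σ, a, p, h, hgen, hΛ⟩ := H
  let b := Module.finBasis k A
  choose Λ hΛ' using fun j => hΛ (b.coord j)
  refine ⟨Fin n × σ, fun v => PiTensorProduct.singleAlgHom (R := k) (A := fun _ : Fin n => A)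
    v.1 (a v.2), fun t v => p (t v.1) v.2, n * h, adjoin_pow hgen n, ?_⟩
  intro φ
  let c : (Fin n → Fin (Module.finrank k A)) → k := fun q =>
    φ (Basis.piTensorProduct (fun _ => b) q)
  refine ⟨fun t => ∑ q, PowerSeries.C (c q) * ∏ i, Λ (q i) (t i), fun M => ?_⟩
  have hM := mem_span_prod (k := k) (σ := σ) n M
  induction hM using Submodule.span_induction with
  | mem x hx =>
    obtain ⟨N, rfl⟩ := hx
    choose G hG1 hG2 using fun (j) (i : Fin n) => hΛ' j (N i)
    refine ⟨∑ q, PowerSeries.C (c q) * ∏ i, G (q i) i, ?_, ?_⟩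
    · have h1 : ∀ t : Fin n → T, aeval (fun v : Fin n × σ => p (t v.1) v.2)
          (∏ i, rename (Prod.mk i) (N i)) = ∏ i, aeval (p (t i)) (N i) := by
        intro t
        rw [map_prod]
        refine Finset.prod_congr rfl fun i _ => ?_
        rw [aeval_rename]
        rfl
      simp only [h1]
      calc ∑ t : Fin n → T, (∑ q, PowerSeries.C (c q) * ∏ i, Λ (q i) (t i)) *
            ∏ i, aeval (p (t i)) (N i)
          = ∑ q, PowerSeries.C (c q) * ∑ t : Fin n → T,
              ∏ i, (Λ (q i) (t i) * aeval (p (t i)) (N i)) := by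
            simp only [Finset.sum_mul, Finset.mul_sum, Finset.prod_mul_distrib, mul_assoc]
            exact Finset.sum_comm
        _ = ∑ q, PowerSeries.C (c q) * ∏ i, ∑ t : T, Λ (q i) t * aeval (p t) (N i) := by
            refine Finset.sum_congr rfl fun q _ => ?_
            rw [Finset.prod_univ_sum, Fintype.piFinset_univ]
        _ = ∑ q, PowerSeries.C (c q) * ∏ i, (PowerSeries.X ^ h * G (q i) i) := by
            refine Finset.sum_congr rfl fun q _ => ?_
            simp only [hG1]
        _ = PowerSeries.X ^ (n * h) * ∑ q, PowerSeries.C (c q) * ∏ i, G (q i) i := by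
            rw [Finset.mul_sum]
            refine Finset.sum_congr rfl fun q _ => ?_
            rw [Finset.prod_mul_distrib, Finset.prod_const, Finset.card_univ, Fintype.card_fin,
              ← pow_mul, mul_comm h n]
            ring
    · have h2 : aeval (fun v : Fin n × σ => PiTensorProduct.singleAlgHom (R := k)
          (A := fun _ : Fin n => A) v.1 (a v.2)) (∏ i, rename (Prod.mk i) (N i)) =
          (PiTensorProduct.tprod k fun i => aeval a (N i) : Pow k A n) := by
        rw [map_prod, tprod_eq_prod_single]
        refine Finset.prod_congr rfl fun i _ => ?_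
        rw [aeval_rename]
        change aeval (fun s => PiTensorProduct.singleAlgHom (R := k) (A := fun _ : Fin n => A)
          i (a s)) (N i) = _
        rw [← MvPolynomial.comp_aeval_apply]
      rw [h2, ← (Basis.piTensorProduct (fun _ : Fin n => b)).sum_repr
        (PiTensorProduct.tprod k fun i => aeval a (N i)), map_sum, map_sum]
      refine Finset.sum_congr rfl fun q _ => ?_
      rw [map_mul, PowerSeries.constantCoeff_C, map_prod, map_smul, smul_eq_mul, mul_comm]
      congr 1
      rw [Basis.piTensorProduct_repr_tprod_apply]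
      refine Finset.prod_congr rfl fun i _ => ?_
      rw [hG2]
      rfl
  | zero => exact ⟨0, by simp, by simp⟩
  | add x y _ _ hx hy =>
    obtain ⟨g1, h1, h1'⟩ := hx
    obtain ⟨g2, h2, h2'⟩ := hy
    refine ⟨g1 + g2, ?_, ?_⟩
    · rw [mul_add, ← h1, ← h2, ← Finset.sum_add_distrib]
      refine Finset.sum_congr rfl fun t _ => ?_
      rw [map_add, mul_add]
    · rw [map_add, h1', h2', map_add, map_add]
  | smul r x _ hx =>
    obtain ⟨g1, h1, h1'⟩ := hx
    refine ⟨PowerSeries.C r * g1, ?_, ?_⟩
    · rw [mul_left_comm, ← h1, Finset.mul_sum]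
      refine Finset.sum_congr rfl fun t _ => ?_
      rw [map_smul, PowerSeries.smul_eq_C_mul]
      ring
    · rw [map_mul, h1', PowerSeries.constantCoeff_C, map_smul, map_smul, smul_eq_mul]

end Pool.Agent.H826R3.SM
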