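import Pool.Agent.H826R3.SM.Fam2
import Pool.Agent.H826R3.SM.Tensor

/-!
# Powers, generation, and the growth of disjoint unions
-/

namespace Pool.Agent.H826R3.SM

open scoped TensorProduct PowerSeries

variable {k : Type} [Field k]

section lift

variable {X Y : Type} [CommRing X] [Algebra k X] [CommRing Y] [Algebra k Y]

/-- the inclusion of the `i`-th factor -/
noncomputable abbrev sg (k : Type) [Field k] (X : Type) [CommRing X] [Algebra k X] {n : ℕ}
    (i : Fin n) : X →ₐ[k] Pow k X n :=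
  PiTensorProduct.singleAlgHom (R := k) (A := fun _ : Fin n => X) i

/-- the algebra map out of a power given by algebra maps on the factors -/
noncomputable def powLift {n : ℕ} (f : Fin n → (X →ₐ[k] Y)) : Pow k X n →ₐ[k] Y :=
  PiTensorProduct.liftAlgHom
    ((MultilinearMap.mkPiAlgebra k (Fin n) Y).compLinearMap fun i => (f i).toLinearMap)
    (by simp) (by intro x y; simp [Finset.prod_mul_distrib])

lemma powLift_single {n : ℕ} (f : Fin n → (X →ₐ[k] Y)) (i : Fin n) (x : X) :
    powLift f (sg k X i x) = f i x := by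
  classical
  unfold powLift
  change PiTensorProduct.lift _ (PiTensorProduct.tprod k
    (MonoidHom.mulSingle (fun _ : Fin n => X) i x)) = _
  rw [PiTensorProduct.lift.tprod]
  simp only [MultilinearMap.compLinearMap_apply, MultilinearMap.mkPiAlgebra_apply,
    AlgHom.toLinearMap_apply, MonoidHom.mulSingle_apply]
  rw [Finset.prod_eq_single i]
  · simp
  · intro j _ hj
    rw [Pi.mulSingle_eq_of_ne hj, map_one]
  · intro h
    exact absurd (Finset.mem_univ _) h

lemma pow_eq_top {n : ℕ} (S : Subalgebra k (Pow k X n)) (h : ∀ i x, sg k X i x ∈ S) : S = ⊤ := by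
  rw [eq_top_iff]
  rintro y -
  induction y using PiTensorProduct.induction_on with
  | smul_tprod r x =>
    refine Subalgebra.smul_mem _ ?_ r
    rw [tprod_eq_prod_single]
    exact Subalgebra.prod_mem _ fun i _ => h i (x i)
  | add x y hx hy => exact Subalgebra.add_mem _ hx hy

lemma powLift_surjective {n : ℕ} (f : Fin n → (X →ₐ[k] Y))
    (h : ∀ S : Subalgebra k Y, (∀ i x, f i x ∈ S) → S = ⊤) : Function.Surjective (powLift f) := by
  rw [← AlgHom.range_eq_top]
  refine h _ fun i x => ⟨sg k X i x, powLift_single f i x⟩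

lemma Fam.of_pow {n D : ℕ} (hX : Fam k (Pow k X n) D) (f : Fin n → (X →ₐ[k] Y))
    (h : ∀ S : Subalgebra k Y, (∀ i x, f i x ∈ S) → S = ⊤) : Fam k Y D :=
  hX.of_surjective (powLift f) (powLift_surjective f h)

end lift

section union

variable {A₁ A₂ : Type} [CommRing A₁] [Algebra k A₁] [CommRing A₂] [Algebra k A₂]

/-- the bounds -/
def GG (F₁ F₂ : ℕ → ℕ) : ℕ → ℕ → ℕ → ℕ
  | 0, i, j => F₁ i * F₂ j
  | n + 1, i, j => GG F₁ F₂ n (i + 1) j + GG F₁ F₂ n i (j + 1)

/-- restriction of a map from a product to the first factor, modulo `1 - h(1,0)` -/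
noncomputable def left {Y : Type} [CommRing Y] [Algebra k Y] (h : A₁ × A₂ →ₐ[k] Y) :
    A₁ →ₐ[k] (Y ⧸ Ideal.span {1 - h (1, 0)}) :=
  AlgHom.ofLinearMap
    ((Ideal.Quotient.mkₐ k (Ideal.span {1 - h (1, 0)})).toLinearMap ∘ₗ h.toLinearMap ∘ₗ
      LinearMap.inl k A₁ A₂)
    (by
      change Ideal.Quotient.mk _ (h (1, 0)) = 1
      rw [← map_one (Ideal.Quotient.mk (Ideal.span {1 - h (1, 0)})), eq_comm, Ideal.Quotient.eq]
      exact Ideal.mem_span_singleton_self _)
    (by
      intro x y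
      change Ideal.Quotient.mk _ (h (x * y, 0)) =
        Ideal.Quotient.mk _ (h (x, 0)) * Ideal.Quotient.mk _ (h (y, 0))
      rw [← map_mul, ← map_mul, Prod.mk_mul_mk, mul_zero])

lemma left_apply {Y : Type} [CommRing Y] [Algebra k Y] (h : A₁ × A₂ →ₐ[k] Y) (x : A₁) :
    left h x = Ideal.Quotient.mk _ (h (x, 0)) := rfl

lemma mk_left {Y : Type} [CommRing Y] [Algebra k Y] (h : A₁ × A₂ →ₐ[k] Y) (x : A₁ × A₂) :
    Ideal.Quotient.mk (Ideal.span {1 - h (1, 0)}) (h x) = left h x.1 := by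
  rw [left_apply, Ideal.Quotient.eq, Ideal.mem_span_singleton]
  refine ⟨h x, ?_⟩
  rw [sub_mul, one_mul, ← map_mul]
  congr 2
  rw [← Prod.mk.eta (p := x), Prod.mk_mul_mk, one_mul, zero_mul]

/-- restriction of a map from a product to the second factor, modulo `h(1,0)` -/
noncomputable def right {Y : Type} [CommRing Y] [Algebra k Y] (h : A₁ × A₂ →ₐ[k] Y) :
    A₂ →ₐ[k] (Y ⧸ Ideal.span {h (1, 0)}) :=
  AlgHom.ofLinearMap
    ((Ideal.Quotient.mkₐ k (Ideal.span {h (1, 0)})).toLinearMap ∘ₗ h.toLinearMap ∘ₗ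
      LinearMap.inr k A₁ A₂)
    (by
      change Ideal.Quotient.mk _ (h (0, 1)) = 1
      rw [← map_one (Ideal.Quotient.mk (Ideal.span {h (1, 0)})), eq_comm, Ideal.Quotient.eq,
        ← map_one h, ← map_sub]
      have : (1 : A₁ × A₂) - (0, 1) = (1, 0) :=
        Prod.ext (sub_zero (1 : A₁)) (sub_self (1 : A₂))
      rw [this]
      exact Ideal.mem_span_singleton_self _)
    (by
      intro x y
      change Ideal.Quotient.mk _ (h (0, x * y)) =
        Ideal.Quotient.mk _ (h (0, x)) * Ideal.Quotient.mk _ (h (0, y))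
      rw [← map_mul, ← map_mul, Prod.mk_mul_mk, mul_zero])

lemma right_apply {Y : Type} [CommRing Y] [Algebra k Y] (h : A₁ × A₂ →ₐ[k] Y) (x : A₂) :
    right h x = Ideal.Quotient.mk _ (h (0, x)) := rfl

lemma mk_right {Y : Type} [CommRing Y] [Algebra k Y] (h : A₁ × A₂ →ₐ[k] Y) (x : A₁ × A₂) :
    Ideal.Quotient.mk (Ideal.span {h (1, 0)}) (h x) = right h x.2 := by
  rw [right_apply, Ideal.Quotient.eq, Ideal.mem_span_singleton]
  refine ⟨h x, ?_⟩
  rw [← map_mul, ← map_sub]
  congr 1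
  rw [← Prod.mk.eta (p := x), Prod.mk_mul_mk, one_mul, zero_mul, Prod.mk_sub_mk, sub_zero,
    sub_self]

theorem fam_union (F₁ F₂ : ℕ → ℕ) (h₁ : ∀ i, Fam k (Pow k A₁ i) (F₁ i))
    (h₂ : ∀ j, Fam k (Pow k A₂ j) (F₂ j)) (n : ℕ) :
    ∀ (i j : ℕ) (Y : Type) [CommRing Y] [Algebra k Y] (f : Fin i → (A₁ →ₐ[k] Y))
      (g : Fin j → (A₂ →ₐ[k] Y)) (h : Fin n → (A₁ × A₂ →ₐ[k] Y)),
      (∀ S : Subalgebra k Y, (∀ a x, f a x ∈ S) → (∀ a x, g a x ∈ S) → (∀ a x, h a x ∈ S) →
        S = ⊤) → Fam k Y (GG F₁ F₂ n i j) := by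
  induction n with
  | zero =>
    intro i j Y _ _ f g h hgen
    refine Fam.join (h₁ i) (h₂ j) (powLift f) (powLift g) (hgen _ ?_ ?_ ?_)
    · intro a x
      exact (le_sup_left : (powLift f).range ≤ _) ⟨sg k A₁ a x, powLift_single f a x⟩
    · intro a x
      exact (le_sup_right : (powLift g).range ≤ _) ⟨sg k A₂ a x, powLift_single g a x⟩
    · intro a
      exact a.elim0
  | succ n ih =>
    intro i j Y _ _ f g h hgen
    have hidem : h 0 (1, 0) * h 0 (1, 0) = h 0 (1, 0) := by
      rw [← map_mul, Prod.mk_mul_mk, one_mul, zero_mul]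
    have key1 : Fam k (Y ⧸ Ideal.span {1 - h 0 (1, 0)}) (GG F₁ F₂ n (i + 1) j) := by
      refine ih (i + 1) j _ (Fin.cons (left (h 0)) fun a => (Ideal.Quotient.mkₐ k _).comp (f a))
        (fun a => (Ideal.Quotient.mkₐ k _).comp (g a))
        (fun a => (Ideal.Quotient.mkₐ k _).comp (h a.succ)) ?_
      intro S hf hg hh
      have h1 : S.comap (Ideal.Quotient.mkₐ k (Ideal.span {1 - h 0 (1, 0)})) = ⊤ := by
        refine hgen _ (fun a x => hf a.succ x) (fun a x => hg a x) ?_
        intro a x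
        refine Fin.cases ?_ (fun a => ?_) a
        · change Ideal.Quotient.mk (Ideal.span {1 - h 0 (1, 0)}) (h 0 x) ∈ S
          rw [mk_left]
          exact hf 0 x.1
        · exact hh a x
      rw [eq_top_iff]
      rintro y -
      obtain ⟨y, rfl⟩ := Ideal.Quotient.mk_surjective y
      have : y ∈ S.comap (Ideal.Quotient.mkₐ k (Ideal.span {1 - h 0 (1, 0)})) := by
        rw [h1]; trivial
      exact this
    have key2 : Fam k (Y ⧸ Ideal.span {h 0 (1, 0)}) (GG F₁ F₂ n i (j + 1)) := by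
      refine ih i (j + 1) _ (fun a => (Ideal.Quotient.mkₐ k _).comp (f a))
        (Fin.cons (right (h 0)) fun a => (Ideal.Quotient.mkₐ k _).comp (g a))
        (fun a => (Ideal.Quotient.mkₐ k _).comp (h a.succ)) ?_
      intro S hf hg hh
      have h1 : S.comap (Ideal.Quotient.mkₐ k (Ideal.span {h 0 (1, 0)})) = ⊤ := by
        refine hgen _ (fun a x => hf a x) (fun a x => hg a.succ x) ?_
        intro a x
        refine Fin.cases ?_ (fun a => ?_) a
        · change Ideal.Quotient.mk (Ideal.span {h 0 (1, 0)}) (h 0 x) ∈ S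
          rw [mk_right]
          exact hg 0 x.2
        · exact hh a x
      rw [eq_top_iff]
      rintro y -
      obtain ⟨y, rfl⟩ := Ideal.Quotient.mk_surjective y
      have : y ∈ S.comap (Ideal.Quotient.mkₐ k (Ideal.span {h 0 (1, 0)})) := by
        rw [h1]; trivial
      exact this
    have := Fam.crt (h 0 (1, 0)) hidem key2 key1
    rw [add_comm] at this
    exact this

end union

end Pool.Agent.H826R3.SM
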