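import Pool.Agent.H826R3.SM.Gen

/-!
# Growth rates
-/

namespace Pool.Agent.H826R3.SM

open scoped TensorProduct PowerSeries

variable {k : Type} [Field k]

/-- the powers of `Spec A` lie in smoothable schemes of degree at most `C xⁿ` -/
def Growth (k : Type) [Field k] (A : Type) [CommRing A] [Algebra k A] (x : ℝ) : Prop :=
  ∃ C : ℝ, 0 ≤ C ∧ ∀ n : ℕ, ∃ D : ℕ, (D : ℝ) ≤ C * x ^ n ∧ Fam k (Pow k A n) D

section

variable {A B : Type} [CommRing A] [Algebra k A] [CommRing B] [Algebra k B] {x y : ℝ}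

lemma Growth.mono (h : Growth k A x) (hx : 0 ≤ x) (hxy : x ≤ y) : Growth k A y := by
  obtain ⟨C, hC, h⟩ := h
  refine ⟨C, hC, fun n => ?_⟩
  obtain ⟨D, h1, h2⟩ := h n
  exact ⟨D, h1.trans (mul_le_mul_of_nonneg_left (pow_le_pow_left₀ hx hxy n) hC), h2⟩

lemma Growth.of_surjective (h : Growth k A x) (f : A →ₐ[k] B) (hf : Function.Surjective f) :
    Growth k B x := by
  obtain ⟨C, hC, h⟩ := h
  refine ⟨C, hC, fun n => ?_⟩
  obtain ⟨D, h1, h2⟩ := h n
  refine ⟨D, h1, h2.of_pow (fun i => (sg k B i).comp f) fun S hS => pow_eq_top S fun i b => ?_⟩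
  obtain ⟨a, rfl⟩ := hf b
  exact hS i a

lemma GG_le {F₁ F₂ : ℕ → ℕ} {C₁ C₂ : ℝ} (hC₁ : 0 ≤ C₁) (hx : 0 ≤ x)
    (h₁ : ∀ i, (F₁ i : ℝ) ≤ C₁ * x ^ i) (h₂ : ∀ i, (F₂ i : ℝ) ≤ C₂ * y ^ i) (n : ℕ) :
    ∀ i j, (GG F₁ F₂ n i j : ℝ) ≤ C₁ * C₂ * x ^ i * y ^ j * (x + y) ^ n := by
  induction n with
  | zero =>
    intro i j
    change ((F₁ i * F₂ j : ℕ) : ℝ) ≤ _
    push_cast
    calc (F₁ i : ℝ) * F₂ j ≤ (C₁ * x ^ i) * (C₂ * y ^ j) :=
          mul_le_mul (h₁ i) (h₂ j) (Nat.cast_nonneg _) (by positivity)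
      _ = C₁ * C₂ * x ^ i * y ^ j * (x + y) ^ 0 := by ring
  | succ n ih =>
    intro i j
    change ((GG F₁ F₂ n (i + 1) j + GG F₁ F₂ n i (j + 1) : ℕ) : ℝ) ≤ _
    push_cast
    calc (GG F₁ F₂ n (i + 1) j : ℝ) + GG F₁ F₂ n i (j + 1)
        ≤ C₁ * C₂ * x ^ (i + 1) * y ^ j * (x + y) ^ n +
          C₁ * C₂ * x ^ i * y ^ (j + 1) * (x + y) ^ n := add_le_add (ih _ _) (ih _ _)
      _ = C₁ * C₂ * x ^ i * y ^ j * (x + y) ^ (n + 1) := by ring

theorem Growth.prod (hA : Growth k A x) (hB : Growth k B y) (hx : 0 ≤ x) :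
    Growth k (A × B) (x + y) := by
  obtain ⟨C₁, hC₁, h₁⟩ := hA
  obtain ⟨C₂, hC₂, h₂⟩ := hB
  choose F₁ h₁ h₁' using h₁
  choose F₂ h₂ h₂' using h₂
  refine ⟨C₁ * C₂, by positivity, fun n => ⟨GG F₁ F₂ n 0 0, ?_, ?_⟩⟩
  · have := GG_le hC₁ hx h₁ h₂ n 0 0
    simpa using this
  · exact fam_union F₁ F₂ h₁' h₂' n 0 0 (Pow k (A × B) n) (fun a => a.elim0) (fun a => a.elim0)
      (fun i => sg k (A × B) i) fun S _ _ h => pow_eq_top S h

lemma Growth.one_of_finrank [Module.Finite k A] (h : Module.finrank k A = 1) :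
    ∀ n, Fam k (Pow k A n) 1 := by
  intro n
  have h1 : Module.finrank k (Pow k A n) = 1 := by
    have b := Basis.piTensorProduct (fun _ : Fin n => Module.finBasis k A)
    rw [Module.finrank_eq_card_basis b]
    simp [h]
  have hnt : Nontrivial (Pow k A n) :=
    Module.nontrivial_of_finrank_pos (R := k) (by rw [h1]; exact one_pos)
  refine fam_self.of_surjective (Algebra.ofId k (Pow k A n)) ?_
  have h2 := Subalgebra.bot_eq_top_of_finrank_eq_one h1
  intro y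
  have : y ∈ (⊥ : Subalgebra k (Pow k A n)) := by rw [h2]; trivial
  rw [Algebra.mem_bot] at this
  exact this

end

/-- an idempotent splits the algebra -/
lemma exists_idem {A : Type} [CommRing A] [IsArtinianRing A] [Nontrivial A]
    (h : ¬ IsLocalRing A) : ∃ e : A, e * e = e ∧ ¬ IsUnit e ∧ ¬ IsUnit (1 - e) := by
  have h1 : ∃ a : A, ¬ IsUnit a ∧ ¬ IsUnit (1 - a) := by
    by_contra hcon
    push Not at hcon
    exact h (IsLocalRing.of_isUnit_or_isUnit_one_sub_self fun a => by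
      by_cases ha : IsUnit a
      · exact Or.inl ha
      · exact Or.inr (hcon a ha))
  obtain ⟨a, ha, ha'⟩ := h1
  obtain ⟨n, y, hy⟩ := IsArtinian.exists_pow_succ_smul_dvd a (1 : A)
  rw [smul_eq_mul, smul_eq_mul, mul_one] at hy
  -- a ^ (n+1) * y = a ^ n
  have h2 : ∀ m : ℕ, a ^ n * (a * y) ^ m = a ^ n := by
    intro m
    induction m with
    | zero => rw [pow_zero, mul_one]
    | succ m ih =>
      rw [pow_succ, ← mul_assoc, ih]
      calc a ^ n * (a * y) = a ^ n.succ * y := by rw [pow_succ]; ring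
        _ = a ^ n := hy
  let e := (a * y) ^ n
  have he : e * e = e := by
    change (a * y) ^ n * (a * y) ^ n = (a * y) ^ n
    rw [mul_pow, mul_comm (a ^ n) (y ^ n), mul_assoc, ← mul_assoc (a ^ n) (y ^ n) (a ^ n)]
    have h3 : a ^ n * y ^ n * a ^ n = a ^ n := by
      rw [mul_comm, ← mul_pow]
      exact h2 n
    rw [h3]
  have hn : n ≠ 0 := by
    rintro rfl
    rw [pow_zero, pow_succ, pow_zero, one_mul] at hy
    exact ha (IsUnit.of_mul_eq_one _ hy)
  refine ⟨e, he, fun hu => ?_, fun hu => ?_⟩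
  · apply ha
    have h4 : IsUnit ((a * y) ^ n) := hu
    rw [isUnit_pow_iff hn] at h4
    exact isUnit_of_mul_isUnit_left h4
  · have h5 : e = 0 := by
      have h6 : (1 - e) * e = 0 := by rw [sub_mul, one_mul, he, sub_self]
      exact (hu.mul_right_eq_zero).mp h6
    have h7 : a ^ n = 0 := by
      have := h2 n
      rw [← this]
      change a ^ n * e = 0
      rw [h5, mul_zero]
    apply ha'
    have h8 : IsNilpotent a := ⟨n, h7⟩
    exact h8.isUnit_one_sub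

end Pool.Agent.H826R3.SM
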