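import Pool.Agent.H826R3.SM.Growth
import Pool.Agent.H826R3.SM.Embed2

/-!
# Local algebras
-/

namespace Pool.Agent.H826R3.SM

open scoped TensorProduct PowerSeries Topology
open Filter

variable {k : Type} [Field k]

lemma finrank_Pow {A : Type} [CommRing A] [Algebra k A] [Module.Finite k A] (n : ℕ) :
    Module.finrank k (Pow k A n) = Module.finrank k A ^ n := by
  have b := Basis.piTensorProduct (fun _ : Fin n => Module.finBasis k A)
  rw [Module.finrank_eq_card_basis b]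
  simp

/-- the maps `G → A^{⊗ M}` -/
noncomputable def ff {A : Type} [CommRing A] [Algebra k A] (aug : A →ₐ[k] k) (N M : ℕ) (i : ℕ) :
    Pow k A N →ₐ[k] Pow k A M :=
  powLift fun j : Fin N => if h : i * N + j < M then sg k A ⟨i * N + j, h⟩
    else (Algebra.ofId k (Pow k A M)).comp aug

lemma ff_single {A : Type} [CommRing A] [Algebra k A] (aug : A →ₐ[k] k) (N M : ℕ) (i : ℕ)
    (j : Fin N) (h : i * N + j < M) (x : A) :
    ff aug N M i (sg k A j x) = sg k A ⟨i * N + j, h⟩ x := by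
  unfold ff
  rw [powLift_single, dif_pos h]

lemma fam_regroup {A G : Type} [CommRing A] [Algebra k A] [CommRing G] [Algebra k G]
    (aug : A →ₐ[k] k) {N : ℕ} (hN : 0 < N) (q : G →ₐ[k] Pow k A N)
    (hq : Function.Surjective q) (M D : ℕ) (hD : Fam k (Pow k G (M / N + 1)) D) :
    Fam k (Pow k A M) D := by
  refine hD.of_pow (fun i => (ff aug N M i).comp q) fun S hS => pow_eq_top S fun l x => ?_
  have hl : (l : ℕ) / N < M / N + 1 := Nat.lt_succ_of_le (Nat.div_le_div_right l.2.le)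
  have hm : (l : ℕ) % N < N := Nat.mod_lt _ hN
  obtain ⟨g, hg⟩ := hq (sg k A ⟨(l : ℕ) % N, hm⟩ x)
  have h1 := hS ⟨(l : ℕ) / N, hl⟩ g
  have hlM : ((l : ℕ) / N) * N + (l : ℕ) % N = l := Nat.div_add_mod' _ _
  have h2 : ((l : ℕ) / N) * N + (⟨(l : ℕ) % N, hm⟩ : Fin N) < M := by
    change ((l : ℕ) / N) * N + (l : ℕ) % N < M
    rw [hlM]
    exact l.2
  change ff aug N M ((l : ℕ) / N) (q g) ∈ S at h1
  rw [hg, ff_single aug N M _ _ h2] at h1
  have h3 : (⟨((l : ℕ) / N) * N + (⟨(l : ℕ) % N, hm⟩ : Fin N), h2⟩ : Fin M) = l := Fin.ext hlM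
  rwa [h3] at h1

/-- nilpotency of the augmentation ideal of a power -/
lemma iSup_pow_eq_bot {R : Type} [CommRing R] {ι : Type} [DecidableEq ι] (I : ι → Ideal R) (e : ℕ)
    (hI : ∀ i, I i ^ (e + 1) = ⊥) (s : Finset ι) :
    (s.sup I) ^ ((e + 1) * s.card + 1) = ⊥ := by
  induction s using Finset.induction_on with
  | empty => simp
  | insert i s hi ih =>
    rw [Finset.sup_insert, Finset.card_insert_of_notMem hi]
    have h1 : (e + 1) * (s.card + 1) + 1 = (e + 1) + ((e + 1) * s.card + 1) := by ring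
    rw [h1, eq_bot_iff]
    refine (Ideal.sup_pow_add_le_pow_sup_pow).trans ?_
    rw [hI, ih, sup_idem]

lemma nil_pow {A : Type} [CommRing A] [Algebra k A] {σ : Type} (a : σ → A) (e : ℕ)
    (hnil : Ideal.span (Set.range a) ^ (e + 1) = ⊥) (N : ℕ) :
    Ideal.span (Set.range fun v : Fin N × σ => sg k A v.1 (a v.2)) ^ ((e + 1) * N + 1) = ⊥ := by
  classical
  have h1 : ∀ i : Fin N, (Ideal.span (Set.range a)).map (sg k A i) ^ (e + 1) = ⊥ := by
    intro i
    rw [← Ideal.map_pow, hnil, Ideal.map_bot]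
  have h2 := iSup_pow_eq_bot (fun i : Fin N => (Ideal.span (Set.range a)).map (sg k A i)) e h1
    Finset.univ
  rw [Finset.card_univ, Fintype.card_fin] at h2
  rw [eq_bot_iff, ← h2]
  refine Ideal.pow_right_mono ?_ _
  rw [Ideal.span_le]
  rintro _ ⟨v, rfl⟩
  have h3 : (Ideal.span (Set.range a)).map (sg k A v.1) ≤
      Finset.univ.sup (fun i : Fin N => (Ideal.span (Set.range a)).map (sg k A i)) :=
    Finset.le_sup (f := fun i : Fin N => (Ideal.span (Set.range a)).map (sg k A i))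
      (Finset.mem_univ v.1)
  exact h3 (Ideal.mem_map_of_mem _ (Ideal.subset_span ⟨v.2, rfl⟩))

/-- polynomial against exponential -/
lemma exists_N (e : ℕ) {c : ℝ} (hc : 1 < c) :
    ∃ N : ℕ, 0 < N ∧ (2 * ((e + 1) * N + 1) ^ 2 : ℝ) ≤ c ^ N := by
  have h1 := tendsto_pow_const_div_const_pow_of_one_lt 2 hc
  have h2 : (0 : ℝ) < 1 / (2 * (e + 2) ^ 2) := by positivity
  obtain ⟨N, hN1, hN2⟩ := ((h1.eventually (gt_mem_nhds h2)).and (eventually_gt_atTop 0)).exists
  refine ⟨N, hN2, ?_⟩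
  have hN3 : (1 : ℝ) ≤ N := by exact_mod_cast hN2
  have hcN : (0 : ℝ) < c ^ N := by positivity
  rw [div_lt_iff₀ hcN] at hN1
  have h3 : (2 * ((e + 1) * N + 1) ^ 2 : ℝ) ≤ 2 * (e + 2) ^ 2 * (N : ℝ) ^ 2 := by
    have h4 : ((e + 1) * N + 1 : ℝ) ≤ (e + 2) * N := by nlinarith
    have h5 : (0 : ℝ) ≤ (e + 1) * N + 1 := by positivity
    calc (2 * ((e + 1) * N + 1) ^ 2 : ℝ) ≤ 2 * ((e + 2) * N) ^ 2 := by
          have := pow_le_pow_left₀ h5 h4 2
          linarith
      _ = 2 * (e + 2) ^ 2 * (N : ℝ) ^ 2 := by ring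
  have h6 : 2 * (e + 2) ^ 2 * (N : ℝ) ^ 2 < c ^ N := by
    have h7 : (0 : ℝ) < 2 * (e + 2) ^ 2 := by positivity
    have h8 := mul_lt_mul_of_pos_left hN1 h7
    calc 2 * (e + 2) ^ 2 * (N : ℝ) ^ 2 < 2 * (e + 2) ^ 2 * (1 / (2 * (e + 2) ^ 2) * c ^ N) := h8
      _ = c ^ N := by field_simp
  linarith

end Pool.Agent.H826R3.SM
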