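import Pool.Agent.H826R3.SM.Dim
import Pool.Agent.H826R3.SM.Expo

/-!
# The lower bound
-/

namespace Pool.Agent.H826R3.SM

open scoped TensorProduct PowerSeries
open MvPolynomial

variable {k : Type} [Field k]

/-- index embeddings into three blocks -/
def em {q m : ℕ} (h : 3 * q ≤ m) (c : ℕ) (hc : c ≤ 2) (i : Fin q) : Fin m :=
  ⟨c * q + i, by
    have hi := i.2
    interval_cases c <;> omega⟩

lemma em_eq {q m : ℕ} {h : 3 * q ≤ m} {c : ℕ} {hc : c ≤ 2} {i j : Fin q} :
    em h c hc i = em h c hc j ↔ i = j := by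
  unfold em
  rw [Fin.ext_iff, Fin.ext_iff]
  simp

/-- `F ↦ (1/3) (F X_w)(∂) tr X³` -/
noncomputable def gam0 (k : Type) [Field k] {m : ℕ} (w : Fin m × Fin m) :
    MvPolynomial (Fin m × Fin m) k →ₗ[k] k :=
  (3 : k)⁻¹ • ((apolar (trCube k m)) ∘ₗ
      (LinearMap.mulRight k (X w : MvPolynomial (Fin m × Fin m) k)))

lemma gam0_apply {m : ℕ} (w : Fin m × Fin m) (F : MvPolynomial (Fin m × Fin m) k) :
    gam0 k w F = (3 : k)⁻¹ * apolar (trCube k m) (F * X w) := rfl

lemma exists_gam {m : ℕ} (w : Fin m × Fin m) : ∃ γ : Abar k m →ₗ[k] k,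
    ∀ F : MvPolynomial (Fin m × Fin m) k, γ (Ideal.Quotient.mk (barIdeal k m) F) =
      (3 : k)⁻¹ * apolar (trCube k m) (F * X w) := by
  let f : MvPolynomial (Fin m × Fin m) k →ₗ[k] Abar k m :=
    (Ideal.Quotient.mkₐ k (barIdeal k m)).toLinearMap
  have hf : Function.Surjective f := Ideal.Quotient.mk_surjective
  have hker : LinearMap.ker f ≤ LinearMap.ker (gam0 k w) := by
    intro F hF
    rw [LinearMap.mem_ker] at hF ⊢
    have hF' : F ∈ barIdeal k m := Ideal.Quotient.eq_zero_iff_mem.mp hF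
    rw [gam0_apply, apolar_mul_of_mem hF', mul_zero]
    intro s hs
    have hh : s.degree = 1 := by
      rw [Finsupp.degree_eq_weight_one]
      exact (isHomogeneous_X k w) (mem_support_iff.mp hs)
    omega
  let e := f.quotKerEquivOfSurjective hf
  refine ⟨(LinearMap.ker f).liftQ (gam0 k w) hker ∘ₗ e.symm.toLinearMap, fun F => ?_⟩
  have h1 : e.symm (f F) = Submodule.Quotient.mk F := by
    rw [LinearEquiv.symm_apply_eq]
    rfl
  change (LinearMap.ker f).liftQ (gam0 k w) hker (e.symm (f F)) = _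
  rw [h1, Submodule.liftQ_apply, gam0_apply]

/-- the functional `F ↦ (1/3) (F X_w)(∂) tr X³` on the quotient -/
noncomputable def gam (k : Type) [Field k] {m : ℕ} (w : Fin m × Fin m) : Abar k m →ₗ[k] k :=
  (exists_gam w).choose

lemma gam_mk {m : ℕ} (w : Fin m × Fin m) (F : MvPolynomial (Fin m × Fin m) k) :
    gam k w (Ideal.Quotient.mk (barIdeal k m) F) = (3 : k)⁻¹ * apolar (trCube k m) (F * X w) :=
  (exists_gam w).choose_spec F

/-- the `U` entries -/
noncomputable def al (k : Type) [Field k] {q m : ℕ} (h : 3 * q ≤ m) (i j : Fin q) : Abar k m :=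
  Ideal.Quotient.mk _ (X (em h 0 (by norm_num) i, em h 1 (by norm_num) j))

/-- the `V` entries -/
noncomputable def be (k : Type) [Field k] {q m : ℕ} (h : 3 * q ≤ m) (j u : Fin q) : Abar k m :=
  Ideal.Quotient.mk _ (X (em h 1 (by norm_num) j, em h 2 (by norm_num) u))

lemma gam_al_be [CharZero k] {q m : ℕ} (h : 3 * q ≤ m) (i j j' u u' l : Fin q) :
    gam k (em h 2 (by norm_num) u', em h 0 (by norm_num) l) (al k h i j * be k h j' u) =
      if j = j' ∧ u = u' ∧ l = i then 1 else 0 := by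
  unfold al be
  rw [← map_mul, gam_mk, apolar_three, ← mul_assoc, inv_mul_cancel₀ (by norm_num), one_mul]
  have h2 : ¬ clo (em h 1 (by norm_num) j', em h 2 (by norm_num) u)
      (em h 0 (by norm_num) i, em h 1 (by norm_num) j)
      (em h 2 (by norm_num) u', em h 0 (by norm_num) l) := by
    unfold clo em
    rintro ⟨c1, -, -⟩
    simp only [Fin.mk.injEq] at c1
    have := i.2
    omega
  rw [if_neg h2, add_zero]
  congr 1
  unfold clo
  simp only [em_eq]

end Pool.Agent.H826R3.SM
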