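import Pool.Agent.H826R3.SM.Lower

/-!
# The lower bound: assembly
-/

namespace Pool.Agent.H826R3.SM

open scoped TensorProduct PowerSeries

variable {k : Type} [Field k]

/-- the functional `⊗ γ` on the tensor power -/
noncomputable def gamP (k : Type) [Field k] {m n : ℕ} (w : Fin n → Fin m × Fin m) :
    Pow k (Abar k m) n →ₗ[k] k :=
  PiTensorProduct.lift ((MultilinearMap.mkPiAlgebra k (Fin n) k).compLinearMap
    fun s => gam k (w s))

lemma gamP_tprod {m n : ℕ} (w : Fin n → Fin m × Fin m) (x : Fin n → Abar k m) :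
    gamP k w (PiTensorProduct.tprod k x) = ∏ s, gam k (w s) (x s) := by
  unfold gamP
  rw [PiTensorProduct.lift.tprod]
  simp

section family

variable {𝒜 : Type} [CommRing 𝒜] [Algebra k⟦X⟧ 𝒜] [Module.Finite k⟦X⟧ 𝒜]
  [Module.Free k⟦X⟧ 𝒜]

lemma finrank_family_le {B : Type} [CommRing B] [Algebra k B] [Module.Finite k B]
    (e : (𝒜 ⧸ Ideal.span {algebraMap k⟦X⟧ 𝒜 PowerSeries.X}) ≃+* B)
    (he : ∀ c : k, e (Ideal.Quotient.mk _ (algebraMap k⟦X⟧ 𝒜 (PowerSeries.C c))) =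
      algebraMap k B c) : Module.finrank k⟦X⟧ 𝒜 ≤ Module.finrank k B := by
  let b := Module.finBasis k⟦X⟧ 𝒜
  have hli : LinearIndependent k fun i => e (Ideal.Quotient.mk _ (b i)) := by
    rw [Fintype.linearIndependent_iff]
    intro c hc i
    have h1 : e (Ideal.Quotient.mk _ (∑ i, PowerSeries.C (c i) • b i)) = 0 := by
      rw [← hc, map_sum, map_sum]
      refine Finset.sum_congr rfl fun i _ => ?_
      rw [Algebra.smul_def, map_mul, map_mul, he, ← Algebra.smul_def]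
    have h2 : (Ideal.Quotient.mk (Ideal.span {algebraMap k⟦X⟧ 𝒜 PowerSeries.X}))
        (∑ i, PowerSeries.C (c i) • b i) = 0 := (map_eq_zero_iff e e.injective).mp h1
    rw [Ideal.Quotient.eq_zero_iff_mem, Ideal.mem_span_singleton] at h2
    obtain ⟨y, hy⟩ := h2
    have h3 : b.repr (∑ i, PowerSeries.C (c i) • b i) i =
        b.repr (algebraMap k⟦X⟧ 𝒜 PowerSeries.X * y) i := by rw [hy]
    rw [b.repr_sum_self, ← Algebra.smul_def, map_smul, Finsupp.smul_apply, smul_eq_mul] at h3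
    have h4 := congrArg PowerSeries.constantCoeff h3
    simpa using h4
  have := hli.fintype_card_le_finrank
  rwa [Fintype.card_fin] at this

lemma exists_lift_functional {P : Type} [CommRing P] [Algebra k P] (ρ : 𝒜 →+* P)
    (hρ : ∀ (r : k⟦X⟧) (x : 𝒜), ρ (r • x) = PowerSeries.constantCoeff r • ρ x)
    (γ : P →ₗ[k] k) : ∃ Ψ : 𝒜 →ₗ[k⟦X⟧] k⟦X⟧, ∀ x, PowerSeries.constantCoeff (Ψ x) = γ (ρ x) := by
  let b := Module.finBasis k⟦X⟧ 𝒜
  let g : Fin (Module.finrank k⟦X⟧ 𝒜) → k⟦X⟧ := fun i => PowerSeries.C (γ (ρ (b i)))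
  refine ⟨b.constr k⟦X⟧ g, fun x => ?_⟩
  have h1 : (b.constr k⟦X⟧ g) x = ∑ i, b.repr x i • g i := by
    rw [Module.Basis.constr_apply_fintype]
    rfl
  rw [h1, map_sum]
  conv_rhs => rw [← b.sum_repr x]
  rw [map_sum, map_sum]
  refine Finset.sum_congr rfl fun i _ => ?_
  rw [hρ, LinearMap.map_smul γ, smul_eq_mul, smul_eq_mul, map_mul]
  congr 1


end family

end Pool.Agent.H826R3.SM
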