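import Pool.Agent.H826R3.SM.Lower2

/-!
# The lower bound: final statement
-/

namespace Pool.Agent.H826R3.SM

open scoped TensorProduct PowerSeries

variable {k : Type} [Field k]

/-- Clearing denominators in a finite family. -/
lemma exists_X_pow_integral {L : Type} [Field L] [Algebra k⟦X⟧ L] [Algebra.IsAlgebraic k⟦X⟧ L]
    (s : Finset L) : ∃ h : ℕ, ∀ z ∈ s, IsIntegral k⟦X⟧ ((PowerSeries.X ^ h : k⟦X⟧) • z) := by
  obtain ⟨y, hy, hs⟩ := Algebra.IsAlgebraic.exists_integral_multiples k⟦X⟧ s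
  obtain ⟨h, u, hu⟩ := IsDiscreteValuationRing.associated_pow_irreducible hy
    (PowerSeries.X_irreducible (R := k))
  refine ⟨h, fun z hz => ?_⟩
  rw [← hu, mul_comm, mul_smul]
  exact (hs z hz).smul _

theorem lower [CharZero k] {m q n D : ℕ} (hq : 3 * q ≤ m) (hq1 : 1 ≤ q)
    (hS : InSmoothable k (Pow k (Abar k m) n) D) :
    (((q ^ n : ℕ)) : ℝ) ^ omegaMM k ≤ D := by
  classical
  obtain ⟨B, cB, aB, hBfin, ⟨𝒜, cA, aA, hfin, hflat, hred, e, he⟩, hD, f, hf⟩ := hS
  have hfree : Module.Free k⟦X⟧ 𝒜 := Module.free_of_flat_of_isLocalRing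
  -- the reduction map
  let ρ : 𝒜 →+* Pow k (Abar k m) n :=
    f.toRingHom.comp (e.toRingHom.comp (Ideal.Quotient.mk _))
  have hρs : Function.Surjective ρ :=
    hf.comp (e.surjective.comp Ideal.Quotient.mk_surjective)
  have hρX : ρ (algebraMap k⟦X⟧ 𝒜 PowerSeries.X) = 0 := by
    change f (e (Ideal.Quotient.mk _ (algebraMap k⟦X⟧ 𝒜 PowerSeries.X))) = 0
    rw [Ideal.Quotient.eq_zero_iff_mem.mpr (Ideal.mem_span_singleton_self _), map_zero, map_zero]
  have hρC : ∀ c : k, ρ (algebraMap k⟦X⟧ 𝒜 (PowerSeries.C c)) =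
      algebraMap k (Pow k (Abar k m) n) c := by
    intro c
    change f (e (Ideal.Quotient.mk _ (algebraMap k⟦X⟧ 𝒜 (PowerSeries.C c)))) = _
    rw [he, f.commutes]
  have hρ : ∀ (r : k⟦X⟧) (x : 𝒜), ρ (r • x) = PowerSeries.constantCoeff r • ρ x := by
    intro r x
    obtain ⟨r', hr'⟩ := powerSeries_split r
    conv_lhs => rw [hr']
    rw [add_smul, map_add, Algebra.smul_def, Algebra.smul_def, map_mul, map_mul, hρC, map_mul,
      map_mul, hρX, zero_mul, zero_mul, add_zero, ← Algebra.smul_def]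
  have hrank : Module.finrank k⟦X⟧ 𝒜 ≤ D := by
    rw [← hD]
    exact finrank_family_le e he
  -- characters
  obtain ⟨T, fT, hT, χ, hχ⟩ := decomp hred
  let L := AlgebraicClosure (LaurentSeries k)
  -- elements
  let I := Fin n → Fin q
  choose aa haa using fun i j : I => hρs (PiTensorProduct.tprod k fun s => al k hq (i s) (j s))
  choose bb hbb using fun i j : I => hρs (PiTensorProduct.tprod k fun s => be k hq (i s) (j s))
  choose Ψ hΨ using fun u l : I => exists_lift_functional ρ hρ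
    (gamP k fun s => (em hq 2 (by norm_num) (u s), em hq 0 (by norm_num) (l s)))
  choose c hc using fun u l : I => hχ (Ψ u l)
  have hval : ∀ i j j' u u' l : I, PowerSeries.constantCoeff (Ψ u' l (aa i j * bb j' u)) =
      if j = j' ∧ u = u' ∧ l = i then 1 else 0 := by
    intro i j j' u u' l
    rw [hΨ, map_mul, haa, hbb, PiTensorProduct.tprod_mul_tprod, gamP_tprod]
    have h1 : ∀ s, gam k (em hq 2 (by norm_num) (u' s), em hq 0 (by norm_num) (l s))
        (((fun s => al k hq (i s) (j s)) * fun s => be k hq (j' s) (u s)) s) =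
        if j s = j' s ∧ u s = u' s ∧ l s = i s then (1 : k) else 0 := fun s =>
      gam_al_be hq _ _ _ _ _ _
    rw [Finset.prod_congr rfl fun s _ => h1 s]
    by_cases hcc : j = j' ∧ u = u' ∧ l = i
    · rw [if_pos hcc]
      obtain ⟨rfl, rfl, rfl⟩ := hcc
      simp
    · rw [if_neg hcc]
      have : ∃ s, ¬ (j s = j' s ∧ u s = u' s ∧ l s = i s) := by
        by_contra hcon
        push Not at hcon
        exact hcc ⟨funext fun s => (hcon s).1, funext fun s => (hcon s).2.1,
          funext fun s => (hcon s).2.2⟩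
      obtain ⟨s, hs⟩ := this
      exact Finset.prod_eq_zero (Finset.mem_univ s) (if_neg hs)
  -- integrality
  have halg1 : Algebra.IsAlgebraic k⟦X⟧ (LaurentSeries k) :=
    IsLocalization.isAlgebraic _ (nonZeroDivisors k⟦X⟧)
  have halg : Algebra.IsAlgebraic k⟦X⟧ L :=
    Algebra.IsAlgebraic.trans k⟦X⟧ (LaurentSeries k) L
  have hinj : Function.Injective (algebraMap k⟦X⟧ L) := by
    rw [IsScalarTower.algebraMap_eq k⟦X⟧ (LaurentSeries k) L]
    exact (algebraMap (LaurentSeries k) L).injective.comp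
      (IsFractionRing.injective k⟦X⟧ (LaurentSeries k))
  obtain ⟨h, hh⟩ := exists_X_pow_integral (k := k)
    (Finset.univ.image fun z : I × I × T => c z.1 z.2.1 z.2.2)
  let S0 : Set L := (Set.range fun z : T × I × I => χ z.1 (aa z.2.1 z.2.2)) ∪
    ((Set.range fun z : T × I × I => χ z.1 (bb z.2.1 z.2.2)) ∪
      (Set.range fun z : I × I × T => (PowerSeries.X ^ h : k⟦X⟧) • c z.1 z.2.1 z.2.2))
  have hS0 : S0.Finite := (Set.finite_range _).union ((Set.finite_range _).union
    (Set.finite_range _))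
  have hSint : ∀ z ∈ S0, IsIntegral k⟦X⟧ z := by
    rintro z (⟨w, rfl⟩ | ⟨w, rfl⟩ | ⟨w, rfl⟩)
    · exact (Algebra.IsIntegral.isIntegral (R := k⟦X⟧) (aa w.2.1 w.2.2)).map (χ w.1)
    · exact (Algebra.IsIntegral.isIntegral (R := k⟦X⟧) (bb w.2.1 w.2.2)).map (χ w.1)
    · exact hh _ (Finset.mem_image.mpr ⟨w, Finset.mem_univ _, rfl⟩)
  let O := Algebra.adjoin k⟦X⟧ S0
  have hOfin : Module.Finite k⟦X⟧ O := Module.Finite.iff_fg.mpr (fg_adjoin_of_finite hS0 hSint)
  have hOinj : Function.Injective (algebraMap k⟦X⟧ O) := by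
    intro x y hxy
    exact hinj (congrArg Subtype.val hxy)
  have hOf : FaithfulSMul k⟦X⟧ O := (faithfulSMul_iff_algebraMap_injective _ _).mpr hOinj
  have hOtf : Module.IsTorsionFree k⟦X⟧ O := inferInstance
  have hOfree : Module.Free k⟦X⟧ O := Module.free_of_finite_type_torsion_free'
  have hado : ADO k O I T h := by
    refine ⟨fun t i j => ⟨χ t (aa i j), Algebra.subset_adjoin (Or.inl ⟨(t, i, j), rfl⟩)⟩,
      fun t i j => ⟨χ t (bb i j), Algebra.subset_adjoin (Or.inr (Or.inl ⟨(t, i, j), rfl⟩))⟩,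
      fun t i j => ⟨(PowerSeries.X ^ h : k⟦X⟧) • c i j t,
        Algebra.subset_adjoin (Or.inr (Or.inr ⟨(i, j, t), rfl⟩))⟩,
      fun i j j' u u' l => Ψ u' l (aa i j * bb j' u), ?_⟩
    intro i j j' u u' l
    refine ⟨?_, hval i j j' u u' l⟩
    apply Subtype.ext
    rw [AddSubmonoidClass.coe_finsetSum]
    change ∑ t, χ t (aa i j) * χ t (bb j' u) * ((PowerSeries.X ^ h : k⟦X⟧) • c u' l t) =
      algebraMap k⟦X⟧ L (PowerSeries.X ^ h * Ψ u' l (aa i j * bb j' u))
    rw [map_mul, hc, Finset.mul_sum]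
    refine Finset.sum_congr rfl fun t _ => ?_
    rw [map_mul, Algebra.smul_def]
    ring
  have hpow : ∀ N, rk k ((q ^ n) ^ N) ≤ Fintype.card T ^ N *
      (Module.finrank k⟦X⟧ O * (N * h + 1)) ^ 2 := by
    intro N
    have := hado.rk_pow_le N
    have hI : Fintype.card I = q ^ n := by simp [I]
    rwa [hI] at this
  have hfinal := omega_le_of_rk_pow (F := k) (Nat.one_le_pow n q hq1) hpow
  refine hfinal.trans ?_
  exact_mod_cast hT.trans hrank

end Pool.Agent.H826R3.SM
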