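import Pool.Agent.H826R3.SM.Finiteness

/-!
# Q1 and growth rates
-/

namespace Pool.Agent.H826R3.SM

open scoped TensorProduct PowerSeries Topology
open Filter

variable {k : Type} [Field k]

/-- The limit statement Q1 for `Γ = Spec A`: for every `ε > 0` the ratio
`δ(Γ^{×n}) / d^{(1+ε)n}` tends to `0`, where `d = deg Γ`. -/
def QOne (k : Type) [Field k] (A : Type) [CommRing A] [Algebra k A] : Prop :=
  ∀ ε : ℝ, 0 < ε → Tendsto (fun n : ℕ => (defect k (Pow k A n) : ℝ) /
    (Module.finrank k A : ℝ) ^ ((1 + ε) * (n : ℝ))) atTop (𝓝 0)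

section

variable {A : Type} [CommRing A] [Algebra k A] [Module.Finite k A] [Nontrivial A]

omit [Module.Finite k A] [Nontrivial A] in
lemma denom_eq' (ε : ℝ) (n : ℕ) :
    (Module.finrank k A : ℝ) ^ ((1 + ε) * (n : ℝ)) = ((Module.finrank k A : ℝ) ^ (1 + ε)) ^ n := by
  rw [Real.rpow_mul (Nat.cast_nonneg _), Real.rpow_natCast]

theorem QOne.growth (h : QOne k A) (hex : ∀ n, ∃ D, InSmoothable k (Pow k A n) D) (ε : ℝ)
    (hε : 0 < ε) : Growth k A ((Module.finrank k A : ℝ) ^ (1 + ε)) := by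
  obtain ⟨B, hB⟩ := (h ε hε).bddAbove_range
  have hd : 0 < Module.finrank k A := Module.finrank_pos
  set d : ℝ := (Module.finrank k A : ℝ) with hdd
  have hd1 : 1 ≤ d := by rw [hdd]; exact_mod_cast hd
  have hx : d ≤ d ^ (1 + ε) := by
    conv_lhs => rw [← Real.rpow_one d]
    exact Real.rpow_le_rpow_of_exponent_le hd1 (by linarith)
  have hx0 : 0 < d ^ (1 + ε) := by positivity
  refine ⟨1 + max B 0, by positivity, fun n => ?_⟩
  obtain ⟨D, hD⟩ := hex n
  refine ⟨Module.finrank k (Pow k A n) + defect k (Pow k A n), ?_, (defect_spec hD).fam⟩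
  have h1 : (defect k (Pow k A n) : ℝ) / (d ^ (1 + ε)) ^ n ≤ B := by
    have := hB ⟨n, rfl⟩
    beta_reduce at this
    rw [hdd, denom_eq', ← hdd] at this
    exact this
  rw [div_le_iff₀ (by positivity)] at h1
  have h2 : B * (d ^ (1 + ε)) ^ n ≤ max B 0 * (d ^ (1 + ε)) ^ n :=
    mul_le_mul_of_nonneg_right (le_max_left _ _) (by positivity)
  have h3 : d ^ n ≤ (d ^ (1 + ε)) ^ n := pow_le_pow_left₀ (by linarith) hx n
  rw [finrank_Pow]
  push_cast
  rw [← hdd]
  linarith

theorem QOne.of_growth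
    (h : ∀ ε : ℝ, 0 < ε → Growth k A ((Module.finrank k A : ℝ) ^ (1 + ε))) : QOne k A := by
  intro ε hε
  have hd : 0 < Module.finrank k A := Module.finrank_pos
  rcases Nat.lt_or_ge 1 (Module.finrank k A) with hd2 | hd1
  swap
  · have h1 : Module.finrank k A = 1 := by omega
    have h2 : ∀ n, defect k (Pow k A n) = 0 := by
      intro n
      obtain ⟨D, hD, hS⟩ := (Growth.one_of_finrank h1 n).inSmoothable
      have h3 := finrank_le_of_inSmoothable hS
      rw [finrank_Pow, h1, one_pow] at h3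
      have h4 : D = 1 := by omega
      rw [h4] at hS
      have h5 : (0 : ℕ) ∈ {e : ℕ | InSmoothable k (Pow k A n)
          (Module.finrank k (Pow k A n) + e)} := by
        change InSmoothable k (Pow k A n) (Module.finrank k (Pow k A n) + 0)
        rw [finrank_Pow, h1, one_pow, add_zero]
        exact hS
      exact Nat.le_zero.mp (Nat.sInf_le h5)
    simp only [h2, Nat.cast_zero, zero_div]
    exact tendsto_const_nhds
  obtain ⟨C, hC, hG⟩ := h (ε / 2) (by linarith)
  set d : ℝ := (Module.finrank k A : ℝ) with hdd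
  have hd1 : 1 < d := by rw [hdd]; exact_mod_cast hd2
  have hd0 : 0 < d := by linarith
  have hq : d ^ (1 + ε / 2) / d ^ (1 + ε) < 1 := by
    rw [div_lt_one (by positivity)]
    exact Real.rpow_lt_rpow_of_exponent_lt hd1 (by linarith)
  have hq0 : 0 ≤ d ^ (1 + ε / 2) / d ^ (1 + ε) := by positivity
  have hlim : Tendsto (fun n : ℕ => C * (d ^ (1 + ε / 2) / d ^ (1 + ε)) ^ n) atTop (𝓝 0) := by
    have := (tendsto_pow_atTop_nhds_zero_of_lt_one hq0 hq).const_mul C
    rwa [mul_zero] at this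
  refine squeeze_zero (fun n => by positivity) (fun n => ?_) hlim
  obtain ⟨D, hD1, hD2⟩ := hG n
  obtain ⟨D', hD', hS⟩ := hD2.inSmoothable
  have h1 : (defect k (Pow k A n) : ℝ) ≤ C * (d ^ (1 + ε / 2)) ^ n := by
    have h2 : (defect k (Pow k A n) : ℝ) ≤ (D : ℝ) := by
      exact_mod_cast (defect_le hS).trans hD'
    exact h2.trans hD1
  rw [hdd, denom_eq', ← hdd, div_pow, ← mul_div_assoc]
  exact div_le_div_of_nonneg_right h1 (by positivity)

end

/-- **Reduction theorem.** -/
theorem reduction (k : Type) [Field k] [IsAlgClosed k] :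
    (∀ (A : Type) [CommRing A] [Algebra k A] [Module.Finite k A] [Nontrivial A], QOne k A) ↔
      ∀ (σ : Type) [Finite σ] (s : ℕ) (Φ : MvPolynomial σ k →ₗ[k] k), IsDualForm s Φ → Φ ≠ 0 →
        QOne k (ApolarAlg Φ) := by
  have hinf : Infinite k := IsAlgClosed.instInfinite
  have hnt : ∀ (σ : Type) (Φ : MvPolynomial σ k →ₗ[k] k), Φ ≠ 0 → Nontrivial (ApolarAlg Φ) := by
    intro σ Φ hΦ
    rw [Ideal.Quotient.nontrivial_iff]
    intro h
    apply hΦ
    refine LinearMap.ext fun F => ?_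
    have h1 : (1 : MvPolynomial σ k) ∈ annOf Φ := by rw [h]; trivial
    have h2 := h1 F
    rwa [one_mul] at h2
  constructor
  · intro h σ _ s Φ hΦ hΦ0
    have := Fintype.ofFinite σ
    have h1 := finite_apolar hΦ
    have h2 := hnt σ Φ hΦ0
    exact h (ApolarAlg Φ)
  · intro h A _ _ _ _
    have H : ApolarHyp k := by
      intro τ _ s Φ hΦ hΦ0 ε hε
      have := Fintype.ofFinite τ
      have h1 := finite_apolar hΦ
      have h2 := hnt τ Φ hΦ0
      refine (h τ s Φ hΦ hΦ0).growth (fun n => ?_) ε hε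
      obtain ⟨T, _, hT⟩ := hasSec_apolar hΦ
      obtain ⟨D, -, hD⟩ := (hT.pow n).inSmoothable
      exact ⟨D, hD⟩
    exact QOne.of_growth fun ε hε => growth_all H _ A rfl ε hε

end Pool.Agent.H826R3.SM
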