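import Pool.Agent.H826R3.SM.Local

/-!
# The reduction theorem for growth rates
-/

namespace Pool.Agent.H826R3.SM

open scoped TensorProduct PowerSeries Topology
open Filter

variable {k : Type} [Field k]

/-- all apolar algebras of dual forms satisfy the growth bound -/
def ApolarHyp (k : Type) [Field k] : Prop :=
  ∀ (τ : Type) [Finite τ] (s : ℕ) (Φ : MvPolynomial τ k →ₗ[k] k), IsDualForm s Φ → Φ ≠ 0 →
    ∀ ε : ℝ, 0 < ε → Growth k (ApolarAlg Φ) ((Module.finrank k (ApolarAlg Φ) : ℝ) ^ (1 + ε))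

theorem growth_gen (H : ApolarHyp k) {A : Type} [CommRing A] [Algebra k A] [Module.Finite k A]
    [Nontrivial A] {σ : Type} [Finite σ] (a : σ → A) (aug : A →ₐ[k] k)
    (hgen : Algebra.adjoin k (Set.range a) = ⊤) (e : ℕ)
    (hnil : Ideal.span (Set.range a) ^ (e + 1) = ⊥) (ε : ℝ) (hε : 0 < ε) :
    Growth k A ((Module.finrank k A : ℝ) ^ (1 + ε)) := by
  classical
  have hd : 0 < Module.finrank k A := Module.finrank_pos
  rcases Nat.lt_or_ge 1 (Module.finrank k A) with hd2 | hd1
  swap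
  · have h1 : Module.finrank k A = 1 := by omega
    refine ⟨1, zero_le_one, fun n => ⟨1, ?_, Growth.one_of_finrank h1 n⟩⟩
    rw [h1]
    simp
  set d : ℝ := (Module.finrank k A : ℝ) with hdd
  have hd1 : (1 : ℝ) < d := by rw [hdd]; exact_mod_cast hd2
  have hd0 : (0 : ℝ) < d := by linarith
  set δ : ℝ := ε / 2 with hδ
  have hδ0 : 0 < δ := by rw [hδ]; linarith
  set c : ℝ := d ^ (δ / (1 + δ)) with hc
  have hc1 : 1 < c := Real.one_lt_rpow hd1 (by positivity)
  obtain ⟨N, hN, hNc⟩ := exists_N e hc1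
  have hfinN : Module.Finite k (Pow k A N) := inferInstance
  have hntN : Nontrivial (Pow k A N) := Module.nontrivial_of_finrank_pos (R := k) (by
    rw [finrank_Pow]
    positivity)
  obtain ⟨τ, hτ, Φ, hΦ, hΦ0, hfinG, hrank, q, hq⟩ := exists_apolar ((e + 1) * N)
    (fun v : Fin N × σ => sg k A v.1 (a v.2)) (adjoin_pow hgen N) (nil_pow a e hnil N)
  obtain ⟨C, hC, hG⟩ := H τ _ Φ hΦ hΦ0 δ hδ0
  set g : ℝ := (Module.finrank k (ApolarAlg Φ) : ℝ) with hg
  set x : ℝ := d ^ (1 + ε) with hx
  have hx1 : 1 ≤ x := Real.one_le_rpow hd1.le (by linarith)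
  have hgle : g ≤ (c * d) ^ N := by
    have h1 : g ≤ 2 * ((e + 1) * N + 1) ^ 2 * d ^ N := by
      rw [hg, hdd]
      rw [finrank_Pow] at hrank
      exact_mod_cast hrank
    calc g ≤ 2 * ((e + 1) * N + 1) ^ 2 * d ^ N := h1
      _ ≤ c ^ N * d ^ N := mul_le_mul_of_nonneg_right hNc (by positivity)
      _ = (c * d) ^ N := (mul_pow _ _ _).symm
  have hcd : (c * d) ^ (1 + δ) = x := by
    have h1 : c * d = d ^ (δ / (1 + δ) + 1) := by
      rw [Real.rpow_add hd0, Real.rpow_one]
    rw [h1, ← Real.rpow_mul hd0.le, hx]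
    congr 1
    have : (1 + δ) ≠ 0 := by positivity
    field_simp
    rw [hδ]
    ring
  have hgx : g ^ (1 + δ) ≤ x ^ N := by
    calc g ^ (1 + δ) ≤ ((c * d) ^ N) ^ (1 + δ) :=
          Real.rpow_le_rpow (Nat.cast_nonneg _) hgle (by positivity)
      _ = ((c * d) ^ (1 + δ)) ^ N := by
          rw [← Real.rpow_natCast, ← Real.rpow_natCast, ← Real.rpow_mul (by positivity),
            ← Real.rpow_mul (by positivity), mul_comm (N : ℝ) (1 + δ)]
      _ = x ^ N := by rw [hcd]
  refine ⟨C * x ^ N, by positivity, fun M => ?_⟩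
  obtain ⟨D, hD1, hD2⟩ := hG (M / N + 1)
  refine ⟨D, ?_, fam_regroup aug hN q hq M D hD2⟩
  have hg0 : 0 ≤ g ^ (1 + δ) := Real.rpow_nonneg (Nat.cast_nonneg _) _
  calc (D : ℝ) ≤ C * (g ^ (1 + δ)) ^ (M / N + 1) := hD1
    _ ≤ C * (x ^ N) ^ (M / N + 1) :=
        mul_le_mul_of_nonneg_left (pow_le_pow_left₀ hg0 hgx _) hC
    _ = C * x ^ (N * (M / N + 1)) := by rw [← pow_mul]
    _ ≤ C * x ^ (N + M) := by
        refine mul_le_mul_of_nonneg_left (pow_le_pow_right₀ hx1 ?_) hC
        have := Nat.mul_div_le M N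
        rw [mul_add, mul_one]
        omega
    _ = C * x ^ N * x ^ M := by rw [pow_add]; ring

theorem growth_local [IsAlgClosed k] (H : ApolarHyp k) (A : Type) [CommRing A] [Algebra k A]
    [Module.Finite k A] [IsLocalRing A] (ε : ℝ) (hε : 0 < ε) :
    Growth k A ((Module.finrank k A : ℝ) ^ (1 + ε)) := by
  have hart : IsArtinianRing A := IsArtinianRing.of_finite k A
  set M : Ideal A := IsLocalRing.maximalIdeal A with hM
  have hMmax : M.IsMaximal := IsLocalRing.maximalIdeal.isMaximal A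
  let _ : Field (A ⧸ M) := Ideal.Quotient.field M
  have hbij : Function.Bijective (algebraMap k (A ⧸ M)) :=
    IsAlgClosed.algebraMap_bijective_of_isIntegral
  let ee : k ≃ₐ[k] (A ⧸ M) := AlgEquiv.ofBijective (Algebra.ofId k (A ⧸ M)) hbij
  let aug : A →ₐ[k] k := ee.symm.toAlgHom.comp (Ideal.Quotient.mkₐ k M)
  have haug : ∀ x, aug x = 0 → x ∈ M := by
    intro x hx
    have h1 : ee.symm (Ideal.Quotient.mk M x) = 0 := hx
    rw [map_eq_zero_iff _ ee.symm.injective] at h1
    exact Ideal.Quotient.eq_zero_iff_mem.mp h1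
  let W : Submodule k A := M.restrictScalars k
  let b := Module.finBasis k W
  let a : Fin (Module.finrank k W) → A := fun i => (b i : A)
  have hWspan : W ≤ Submodule.span k (Set.range a) := by
    intro x hx
    have h1 : x = ((∑ i, b.repr ⟨x, hx⟩ i • b i : W) : A) := by
      rw [b.sum_repr]
    rw [h1, Submodule.coe_sum]
    refine Submodule.sum_mem _ fun i _ => ?_
    rw [Submodule.coe_smul]
    exact Submodule.smul_mem _ _ (Submodule.subset_span ⟨i, rfl⟩)
  have hgen : Algebra.adjoin k (Set.range a) = ⊤ := by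
    rw [eq_top_iff]
    rintro x -
    have h1 : x - algebraMap k A (aug x) ∈ M := by
      apply haug
      rw [map_sub, AlgHom.commutes]
      exact sub_self _
    have h2 : x - algebraMap k A (aug x) ∈ Algebra.adjoin k (Set.range a) :=
      Algebra.span_le_adjoin k _ (hWspan h1)
    have h3 : x = (x - algebraMap k A (aug x)) + algebraMap k A (aug x) := by ring
    rw [h3]
    exact Subalgebra.add_mem _ h2 (Subalgebra.algebraMap_mem _ _)
  obtain ⟨e, he⟩ : ∃ e, M ^ e = ⊥ := by
    have h1 := IsArtinianRing.isNilpotent_jacobson_bot (R := A)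
    rw [IsLocalRing.jacobson_eq_maximalIdeal ⊥ bot_ne_top] at h1
    exact h1
  refine growth_gen H a aug hgen e ?_ ε hε
  have h1 : Ideal.span (Set.range a) ≤ M := by
    rw [Ideal.span_le]
    rintro _ ⟨i, rfl⟩
    exact (b i).2
  rw [eq_bot_iff]
  refine (Ideal.pow_right_mono h1 _).trans ?_
  rw [pow_succ, he]
  simp

theorem growth_all [IsAlgClosed k] (H : ApolarHyp k) (n : ℕ) :
    ∀ (A : Type) [CommRing A] [Algebra k A] [Module.Finite k A] [Nontrivial A],
      Module.finrank k A = n → ∀ ε : ℝ, 0 < ε →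
        Growth k A ((Module.finrank k A : ℝ) ^ (1 + ε)) := by
  induction n using Nat.strong_induction_on with
  | _ n ih =>
    intro A _ _ _ _ hn ε hε
    by_cases hloc : IsLocalRing A
    · exact growth_local H A ε hε
    have hart : IsArtinianRing A := IsArtinianRing.of_finite k A
    obtain ⟨e, he, hu, hu'⟩ := exists_idem hloc
    let f : A →ₐ[k] (A ⧸ Ideal.span {e}) × (A ⧸ Ideal.span {1 - e}) :=
      (Ideal.Quotient.mkₐ k (Ideal.span {e})).prod (Ideal.Quotient.mkₐ k (Ideal.span {1 - e}))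
    have hf : Function.Bijective f := crt_bijective e he
    let F := AlgEquiv.ofBijective f hf
    have hnt1 : Nontrivial (A ⧸ Ideal.span {e}) := by
      rw [Ideal.Quotient.nontrivial_iff, Ne, Ideal.span_singleton_eq_top]
      exact hu
    have hnt2 : Nontrivial (A ⧸ Ideal.span {1 - e}) := by
      rw [Ideal.Quotient.nontrivial_iff, Ne, Ideal.span_singleton_eq_top]
      exact hu'
    have hsum : Module.finrank k A = Module.finrank k (A ⧸ Ideal.span {e}) +
        Module.finrank k (A ⧸ Ideal.span {1 - e}) := by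
      rw [F.toLinearEquiv.finrank_eq, Module.finrank_prod]
    have hp1 : 0 < Module.finrank k (A ⧸ Ideal.span {e}) := Module.finrank_pos
    have hp2 : 0 < Module.finrank k (A ⧸ Ideal.span {1 - e}) := Module.finrank_pos
    have g1 := ih _ (by omega) (A ⧸ Ideal.span {e}) rfl ε hε
    have g2 := ih _ (by omega) (A ⧸ Ideal.span {1 - e}) rfl ε hε
    have g3 := (g1.prod g2 (Real.rpow_nonneg (Nat.cast_nonneg _) _)).of_surjective
      F.symm.toAlgHom F.symm.surjective
    refine g3.mono (by positivity) ?_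
    rw [hsum]
    push_cast
    have h4 := NNReal.add_rpow_le_rpow_add
      ((Module.finrank k (A ⧸ Ideal.span {e}) : ℕ) : NNReal)
      ((Module.finrank k (A ⧸ Ideal.span {1 - e}) : ℕ) : NNReal)
      (p := 1 + ε) (by linarith)
    exact_mod_cast h4

end Pool.Agent.H826R3.SM
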