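import Pool.Agent.H826R3.SM.Final

/-!
# Strassen's algorithm and the consequences for the family of the problem
-/

namespace Pool.Agent.H826R3.SM

open scoped TensorProduct PowerSeries Topology
open Filter

/-- Strassen's first factors. -/
def strA : Fin 7 → Fin 2 → Fin 2 → ℤ :=
  ![![![1, 0], ![0, 1]], ![![0, 0], ![1, 1]], ![![1, 0], ![0, 0]], ![![0, 0], ![0, 1]],
    ![![1, 1], ![0, 0]], ![![-1, 0], ![1, 0]], ![![0, 1], ![0, -1]]]

/-- Strassen's second factors. -/
def strB : Fin 7 → Fin 2 → Fin 2 → ℤ :=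
  ![![![1, 0], ![0, 1]], ![![1, 0], ![0, 0]], ![![0, 1], ![0, -1]], ![![-1, 0], ![1, 0]],
    ![![0, 0], ![0, 1]], ![![1, 1], ![0, 0]], ![![0, 0], ![1, 1]]]

/-- Strassen's third factors. -/
def strC : Fin 7 → Fin 2 → Fin 2 → ℤ :=
  ![![![1, 0], ![0, 1]], ![![0, 1], ![0, -1]], ![![0, 0], ![1, 1]], ![![1, 1], ![0, 0]],
    ![![-1, 0], ![1, 0]], ![![0, 0], ![0, 1]], ![![1, 0], ![0, 0]]]

lemma strassen_int : ∀ i j j' k k' l : Fin 2,
    (if j = j' ∧ k = k' ∧ l = i then (1 : ℤ) else 0) =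
      ∑ t : Fin 7, strA t i j * strB t j' k * strC t k' l := by
  decide +kernel

lemma strassen (F : Type) [Field F] : HasRank F 2 7 := by
  refine ⟨fun t i j => (strA t i j : F), fun t i j => (strB t i j : F),
    fun t i j => (strC t i j : F), ?_⟩
  intro i j j' k k' l
  have h := congrArg (Int.cast : ℤ → F) (strassen_int i j j' k k' l)
  push_cast at h
  exact h

lemma HasRank.ad {F : Type} [Field F] {n r : ℕ} (h : HasRank F n r) : AD F (Fin n) (Fin r) 0 := by
  obtain ⟨a, b, c, h⟩ := h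
  refine ⟨fun t i j => Polynomial.C (a t i j), fun t i j => Polynomial.C (b t i j),
    fun t i j => Polynomial.C (c t i j),
    fun i j j' k k' l => Polynomial.C (if j = j' ∧ k = k' ∧ l = i then (1 : F) else 0), ?_⟩
  intro i j j' k k' l
  refine ⟨?_, by rw [Polynomial.eval_C]⟩
  rw [pow_zero, one_mul]
  beta_reduce
  rw [h i j j' k k' l, map_sum]
  simp only [Polynomial.C_mul]

lemma omega_le_logb (F : Type) [Field F] : omegaMM F ≤ Real.logb 2 7 := by
  have h := AD.omega_le (F := F) (by norm_num) (strassen F).ad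
  rw [Real.le_logb_iff_rpow_le (by norm_num) (by norm_num)]
  exact_mod_cast h

/-- `Γ_m^{×n}` is a closed subscheme of a finite smoothable scheme of degree `D`, where
`Γ_m = Spec (A_m / 𝔪³)`. -/
def PowInSmoothable (k : Type) [Field k] (m n D : ℕ) : Prop :=
  InSmoothable k (Pow k (Abar k m) n) D

end Pool.Agent.H826R3.SM
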