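import Pool.Agent.H826R3.SM.WFinal

/-!
# Q1 for all finite schemes and Waring ranks
-/

namespace Pool.Agent.H826R3.SM

open scoped TensorProduct PowerSeries Topology
open Filter MvPolynomial

variable {k : Type} [Field k]

lemma finrank_apolar_zero {σ : Type} {Φ : MvPolynomial σ k →ₗ[k] k} (hΦ : IsDualForm 0 Φ)
    (hnt : Nontrivial (ApolarAlg Φ)) : Module.finrank k (ApolarAlg Φ) = 1 := by
  rw [finrank_eq_one_iff_of_nonzero' (1 : ApolarAlg Φ) one_ne_zero]
  intro w
  obtain ⟨F, rfl⟩ := Ideal.Quotient.mk_surjective w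
  refine ⟨coeff 0 F, ?_⟩
  have h0 : ∀ H : MvPolynomial σ k, coeff 0 H = 0 → Φ H = 0 := by
    intro H hH
    rw [← sum_homogeneousComponent H, map_sum]
    refine Finset.sum_eq_zero fun n _ => ?_
    rcases Nat.eq_zero_or_pos n with rfl | hn
    · rw [homogeneousComponent_zero, hH, C_0, map_zero]
    · exact hΦ n (by omega) _ (homogeneousComponent_isHomogeneous n H)
  have h1 : (Ideal.Quotient.mk (annOf Φ)) (C (coeff 0 F)) = Ideal.Quotient.mk (annOf Φ) F := by
    rw [Ideal.Quotient.eq]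
    intro G
    apply h0
    rw [← MvPolynomial.constantCoeff_eq, map_mul, map_sub, constantCoeff_C,
      MvPolynomial.constantCoeff_eq, sub_self, zero_mul]
  rw [← h1, Algebra.smul_def, mul_one]
  rfl

theorem qone_zero {σ : Type} [Finite σ] [Infinite k] {Φ : MvPolynomial σ k →ₗ[k] k}
    (hΦ : IsDualForm 0 Φ) (hΦ0 : Φ ≠ 0) : QOne k (ApolarAlg Φ) := by
  have hfin : Module.Finite k (ApolarAlg Φ) := by
    have := Fintype.ofFinite σ
    exact finite_apolar hΦ
  have hnt : Nontrivial (ApolarAlg Φ) := by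
    rw [Ideal.Quotient.nontrivial_iff]
    intro h
    apply hΦ0
    refine LinearMap.ext fun F => ?_
    have h1 : (1 : MvPolynomial σ k) ∈ annOf Φ := by rw [h]; trivial
    have h2 := h1 F
    rwa [one_mul] at h2
  have h1 := finrank_apolar_zero hΦ hnt
  refine QOne.of_growth fun ε hε => ⟨1, zero_le_one, fun n => ⟨1, ?_, Growth.one_of_finrank h1 n⟩⟩
  rw [h1]
  simp

/-- Q1 for all finite schemes is equivalent to the Waring rank statement for all forms. -/
theorem all_iff (k : Type) [Field k] [IsAlgClosed k] :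
    (∀ (A : Type) [CommRing A] [Algebra k A] [Module.Finite k A] [Nontrivial A], QOne k A) ↔
      ∀ (σ : Type) [Finite σ] (s : ℕ) (Φ : MvPolynomial σ k →ₗ[k] k), 1 ≤ s → IsDualForm s Φ →
        Φ ≠ 0 → WaringQOne s Φ := by
  have hinf : Infinite k := IsAlgClosed.instInfinite
  rw [reduction k]
  constructor
  · intro h σ _ s Φ hs hΦ hΦ0
    exact (waring_iff hΦ hΦ0 hs).1 (h σ s Φ hΦ hΦ0)
  · intro h σ _ s Φ hΦ hΦ0
    rcases Nat.eq_zero_or_pos s with rfl | hs
    · exact qone_zero hΦ hΦ0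
    · exact (waring_iff hΦ hΦ0 hs).2 (h σ s Φ hs hΦ hΦ0)

end Pool.Agent.H826R3.SM
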