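import Pool.Agent.H826R3.SM.WExtract
import Pool.Agent.H826R3.SM.Fam
import Pool.Agent.H826R3.SM.Lower3

/-!
# Approximate representations of functionals by point evaluations
-/

namespace Pool.Agent.H826R3.SM

open scoped TensorProduct PowerSeries
open MvPolynomial

variable {k : Type} [Field k]

/-- approximate representation of `Ψ` by evaluations at `O`-valued points -/
def ApproxO (k : Type) [Field k] (O : Type) [CommRing O] [Algebra k⟦X⟧ O] {τ : Type} (T : Type)
    [Fintype T] (Ψ : MvPolynomial τ k →ₗ[k] k) (h : ℕ) : Prop :=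
  ∃ (c : T → O) (q : T → τ → O), ∀ F : MvPolynomial τ k, ∃ g : k⟦X⟧,
    ∑ t, c t * eval₂ (iO k O) (q t) F = algebraMap k⟦X⟧ O (PowerSeries.X ^ h * g) ∧
      PowerSeries.constantCoeff g = Ψ F

section pow

variable {O : Type} [CommRing O] [Algebra k⟦X⟧ O] {τ T : Type} [Fintype T]

lemma approx_of_monomials {Ψ : MvPolynomial τ k →ₗ[k] k} {h : ℕ} (c : T → O) (q : T → τ → O)
    (hm : ∀ s : τ →₀ ℕ, ∃ g : k⟦X⟧, ∑ t, c t * eval₂ (iO k O) (q t) (monomial s (1 : k)) =
      algebraMap k⟦X⟧ O (PowerSeries.X ^ h * g) ∧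
        PowerSeries.constantCoeff g = Ψ (monomial s 1)) (F : MvPolynomial τ k) :
    ∃ g : k⟦X⟧, ∑ t, c t * eval₂ (iO k O) (q t) F = algebraMap k⟦X⟧ O (PowerSeries.X ^ h * g) ∧
      PowerSeries.constantCoeff g = Ψ F := by
  induction F using MvPolynomial.induction_on' with
  | monomial s r =>
    obtain ⟨g, h1, h2⟩ := hm s
    refine ⟨PowerSeries.C r * g, ?_, ?_⟩
    · have h3 : ∀ t, eval₂ (iO k O) (q t) (monomial s r) =
          algebraMap k⟦X⟧ O (PowerSeries.C r) * eval₂ (iO k O) (q t) (monomial s (1 : k)) := by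
        intro t
        rw [eval₂_monomial, eval₂_monomial, map_one, one_mul]
        rfl
      have h4 : PowerSeries.X ^ h * (PowerSeries.C r * g) =
          PowerSeries.C r * (PowerSeries.X ^ h * g) := by ring
      rw [h4, map_mul, ← h1, Finset.mul_sum]
      refine Finset.sum_congr rfl fun t _ => ?_
      rw [h3]
      ring
    · have h5 : (monomial s r : MvPolynomial τ k) = r • monomial s 1 := by
        rw [smul_monomial, smul_eq_mul, mul_one]
      rw [map_mul, h2, h5, map_smul, smul_eq_mul]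
      congr 1
  | add P Q hP hQ =>
    obtain ⟨g, h1, h2⟩ := hP
    obtain ⟨g', h1', h2'⟩ := hQ
    refine ⟨g + g', ?_, ?_⟩
    · rw [mul_add, map_add, ← h1, ← h1', ← Finset.sum_add_distrib]
      refine Finset.sum_congr rfl fun t _ => ?_
      rw [eval₂_add, mul_add]
    · rw [map_add, h2, h2', map_add]

lemma ApproxO.pow {Ψ : MvPolynomial τ k →ₗ[k] k} {h : ℕ} (H : ApproxO k O T Ψ h) (j : ℕ) :
    ApproxO k O (Fin j → T) (fpow Ψ j) (j * h) := by
  classical
  obtain ⟨c, q, hH⟩ := H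
  refine ⟨fun t => ∏ l, c (t l), fun t v => q (t v.1) v.2, approx_of_monomials _ _ fun s => ?_⟩
  choose g hg1 hg2 using fun l => hH (monomial (part s l) 1)
  refine ⟨∏ l, g l, ?_, ?_⟩
  · have h1 : ∀ t : Fin j → T, eval₂ (iO k O) (fun v : Fin j × τ => q (t v.1) v.2)
        (monomial s (1 : k)) = ∏ l, eval₂ (iO k O) (q (t l)) (monomial (part s l) (1 : k)) := by
      intro t
      conv_lhs => rw [← sum_mapDomain_part s, ← prod_rename_monomial, ← coe_eval₂Hom, map_prod]
      refine Finset.prod_congr rfl fun l _ => ?_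
      rw [coe_eval₂Hom, eval₂_rename]
      rfl
    calc ∑ t : Fin j → T, (∏ l, c (t l)) * eval₂ (iO k O) (fun v : Fin j × τ => q (t v.1) v.2)
          (monomial s (1 : k))
        = ∑ t : Fin j → T, ∏ l, (c (t l) * eval₂ (iO k O) (q (t l))
            (monomial (part s l) (1 : k))) := by
          refine Finset.sum_congr rfl fun t _ => ?_
          rw [h1, Finset.prod_mul_distrib]
      _ = ∏ l, ∑ t : T, c t * eval₂ (iO k O) (q t) (monomial (part s l) (1 : k)) := by
          rw [Finset.prod_univ_sum, Fintype.piFinset_univ]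
      _ = ∏ l, algebraMap k⟦X⟧ O (PowerSeries.X ^ h * g l) :=
          Finset.prod_congr rfl fun l _ => hg1 l
      _ = _ := by
          rw [← map_prod, Finset.prod_mul_distrib, Finset.prod_const, Finset.card_univ,
            Fintype.card_fin, ← pow_mul, mul_comm h j]
  · rw [map_prod, fpow_monomial]
    exact Finset.prod_congr rfl fun l _ => hg2 l

end pow

theorem approx_of_fam {P : Type} [CommRing P] [Algebra k P] {D : ℕ} (hP : Fam k P D) {τ : Type}
    [Finite τ] (θ : MvPolynomial τ k →ₐ[k] P) (φ : P →ₗ[k] k) (Ψ : MvPolynomial τ k →ₗ[k] k)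
    (hΨ : ∀ F, φ (θ F) = Ψ F) :
    ∃ (O : Type) (_ : CommRing O) (_ : Algebra k⟦X⟧ O) (_ : Module.Finite k⟦X⟧ O)
      (_ : Module.Free k⟦X⟧ O) (_ : FaithfulSMul k⟦X⟧ O) (T : Type) (_ : Fintype T) (h : ℕ),
      Fintype.card T ≤ D ∧ ApproxO k O T Ψ h := by
  classical
  have := Fintype.ofFinite τ
  obtain ⟨𝒜, cA, aA, hfin, hfree, hred, hrk, π, hπs, hπC⟩ := hP
  have hπ : ∀ (r : k⟦X⟧) (x : 𝒜), π (r • x) = PowerSeries.constantCoeff r • π x := by
    intro r x
    rw [Algebra.smul_def, map_mul, hπC, ← Algebra.smul_def]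
  obtain ⟨T, fT, hT, χ, hχ⟩ := decomp (geomRed_iff.mpr hred)
  let L := LL k
  choose x hx using fun v : τ => hπs (θ (X v))
  obtain ⟨Ψ', hΨ'⟩ := exists_lift_functional π hπ φ
  obtain ⟨c, hc⟩ := hχ Ψ'
  let XF : MvPolynomial τ k → 𝒜 := fun F => eval₂ (iO k 𝒜) x F
  have hXF : ∀ F, π (XF F) = θ F := by
    intro F
    have h1 : π.comp (eval₂Hom (iO k 𝒜) x) = θ.toRingHom := by
      refine MvPolynomial.ringHom_ext (fun r => ?_) fun v => ?_
      · change π (eval₂ (iO k 𝒜) x (C r)) = θ (C r)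
        rw [eval₂_C]
        change π (algebraMap k⟦X⟧ 𝒜 (PowerSeries.C r)) = _
        rw [hπC, ← MvPolynomial.algebraMap_eq, AlgHom.commutes]
        congr 1
      · change π (eval₂ (iO k 𝒜) x (X v)) = θ (X v)
        rw [eval₂_X, hx]
    exact congrArg (fun f => f F) h1
  have hval : ∀ F, PowerSeries.constantCoeff (Ψ' (XF F)) = Ψ F := by
    intro F
    rw [hΨ', hXF, hΨ]
  have hχF : ∀ t F, χ t (XF F) = eval₂ (iO k L) (fun v => χ t (x v)) F := by
    intro t F
    have h1 : (χ t).toRingHom (eval₂ (iO k 𝒜) x F) =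
        eval₂ ((χ t).toRingHom.comp (iO k 𝒜)) ((χ t).toRingHom ∘ x) F := eval₂_comp_left _ _ _ _
    have h2 : (χ t).toRingHom.comp (iO k 𝒜) = iO k L := by
      refine RingHom.ext fun r => ?_
      exact (χ t).commutes (PowerSeries.C r)
    rw [h2] at h1
    exact h1
  -- integrality
  have halg1 : Algebra.IsAlgebraic k⟦X⟧ (LaurentSeries k) :=
    IsLocalization.isAlgebraic _ (nonZeroDivisors k⟦X⟧)
  have halg : Algebra.IsAlgebraic k⟦X⟧ L :=
    Algebra.IsAlgebraic.trans k⟦X⟧ (LaurentSeries k) L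
  have hinj : Function.Injective (algebraMap k⟦X⟧ L) := by
    rw [IsScalarTower.algebraMap_eq k⟦X⟧ (LaurentSeries k) L]
    exact (algebraMap (LaurentSeries k) L).injective.comp
      (IsFractionRing.injective k⟦X⟧ (LaurentSeries k))
  obtain ⟨h, hh⟩ := exists_X_pow_integral (k := k) (Finset.univ.image fun t : T => c t)
  let S0 : Set L := (Set.range fun z : T × τ => χ z.1 (x z.2)) ∪
    (Set.range fun t : T => (PowerSeries.X ^ h : k⟦X⟧) • c t)
  have hS0 : S0.Finite := (Set.finite_range _).union (Set.finite_range _)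
  have hSint : ∀ z ∈ S0, IsIntegral k⟦X⟧ z := by
    rintro z (⟨w, rfl⟩ | ⟨w, rfl⟩)
    · exact (Algebra.IsIntegral.isIntegral (R := k⟦X⟧) (x w.2)).map (χ w.1)
    · exact hh _ (Finset.mem_image.mpr ⟨w, Finset.mem_univ _, rfl⟩)
  let O := Algebra.adjoin k⟦X⟧ S0
  have hOfin : Module.Finite k⟦X⟧ O := Module.Finite.iff_fg.mpr (fg_adjoin_of_finite hS0 hSint)
  have hOinj : Function.Injective (algebraMap k⟦X⟧ O) := by
    intro x y hxy
    exact hinj (congrArg Subtype.val hxy)
  have hOf : FaithfulSMul k⟦X⟧ O := (faithfulSMul_iff_algebraMap_injective _ _).mpr hOinj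
  have hOtf : Module.IsTorsionFree k⟦X⟧ O := inferInstance
  have hOfree : Module.Free k⟦X⟧ O := Module.free_of_finite_type_torsion_free'
  refine ⟨O, inferInstance, inferInstance, hOfin, hOfree, hOf, T, fT, h, hT.trans hrk,
    fun t => ⟨(PowerSeries.X ^ h : k⟦X⟧) • c t, Algebra.subset_adjoin (Or.inr ⟨t, rfl⟩)⟩,
    fun t v => ⟨χ t (x v), Algebra.subset_adjoin (Or.inl ⟨(t, v), rfl⟩)⟩, fun F => ?_⟩
  refine ⟨Ψ' (XF F), ?_, hval F⟩
  apply Subtype.ext
  rw [AddSubmonoidClass.coe_finsetSum]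
  have h3 : ∀ t, ((eval₂ (iO k O) (fun v => (⟨χ t (x v),
      Algebra.subset_adjoin (Or.inl ⟨(t, v), rfl⟩)⟩ : O)) F : O) : L) =
        eval₂ (iO k L) (fun v => χ t (x v)) F := by
    intro t
    have h4 := eval₂_comp_left O.val.toRingHom (iO k O) (fun v => (⟨χ t (x v),
      Algebra.subset_adjoin (Or.inl ⟨(t, v), rfl⟩)⟩ : O)) F
    have h5 : O.val.toRingHom.comp (iO k O) = iO k L := rfl
    rw [h5] at h4
    exact h4
  change ∑ t, (((PowerSeries.X ^ h : k⟦X⟧) • c t) * ((eval₂ (iO k O) (fun v => (⟨χ t (x v),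
      Algebra.subset_adjoin (Or.inl ⟨(t, v), rfl⟩)⟩ : O)) F : O) : L)) =
    algebraMap k⟦X⟧ L (PowerSeries.X ^ h * Ψ' (XF F))
  rw [map_mul, hc, Finset.mul_sum]
  refine Finset.sum_congr rfl fun t _ => ?_
  rw [h3, ← hχF, Algebra.smul_def]
  ring

/-- **Waring decompositions of powers from a family.** -/
theorem waring_of_approx {O : Type} [CommRing O] [Algebra k⟦X⟧ O] [Module.Finite k⟦X⟧ O]
    [Module.Free k⟦X⟧ O] [FaithfulSMul k⟦X⟧ O] [Infinite k] {τ T : Type} [Fintype T]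
    {Ψ : MvPolynomial τ k →ₗ[k] k} {h : ℕ} (H : ApproxO k O T Ψ h) (j m : ℕ) :
    WaringLE m (fpow Ψ j)
      (Fintype.card T ^ j * ((m * (j * h) + 1) * (m + 1) ^ Module.finrank k⟦X⟧ O)) := by
  classical
  obtain ⟨η, hη⟩ := exists_retraction (k := k) (O := O)
  obtain ⟨c, q, hcq⟩ := H.pow j
  choose c' p hcp using fun t => extract_point (Infinite.natEmbedding k) η (c t) (q t) (j * h) m
  let W := (Fin j → T) × (Fin (m * (j * h) + 1) × (Fin (Module.finrank k⟦X⟧ O) → Fin (m + 1)))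
  have hW : Fintype.card W = Fintype.card T ^ j *
      ((m * (j * h) + 1) * (m + 1) ^ Module.finrank k⟦X⟧ O) := by
    simp [W]
  let E := (Fintype.equivFinOfCardEq hW).symm
  refine ⟨fun i => c' (E i).1 (E i).2, fun i => p (E i).1 (E i).2, fun F hF => ?_⟩
  rw [E.sum_comp (fun w : W => c' w.1 w.2 * eval (p w.1 w.2) F), Fintype.sum_prod_type]
  obtain ⟨g, h1, h2⟩ := hcq F
  have h3 : PowerSeries.coeff (j * h) (η (∑ t, c t * eval₂ (iO k O) (q t) F)) = fpow Ψ j F := by
    rw [h1]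
    have h4 : algebraMap k⟦X⟧ O (PowerSeries.X ^ (j * h) * g) =
        (PowerSeries.X ^ (j * h) * g) • (1 : O) := by rw [Algebra.algebraMap_eq_smul_one]
    rw [h4, map_smul, hη, smul_eq_mul, mul_one, PowerSeries.coeff_X_pow_mul', if_pos le_rfl,
      Nat.sub_self, ← h2, PowerSeries.coeff_zero_eq_constantCoeff_apply]
  rw [← h3, map_sum, map_sum]
  exact Finset.sum_congr rfl fun t _ => hcp t F hF

end Pool.Agent.H826R3.SM
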