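import Pool.Agent.H826R3.SM.WTrans
import Pool.Agent.H826R3.SM.QOne

/-!
# Growth of the defect and growth of the Waring rank
-/

namespace Pool.Agent.H826R3.SM

open scoped TensorProduct PowerSeries Topology
open MvPolynomial Filter

variable {k : Type} [Field k]

lemma poly_mul_geom_bdd (a : ℕ) {z : ℝ} (hz0 : 0 ≤ z) (hz : z < 1) :
    ∃ B : ℝ, 0 ≤ B ∧ ∀ n : ℕ, (n : ℝ) ^ a * z ^ n ≤ B := by
  have h := tendsto_pow_const_mul_const_pow_of_abs_lt_one a
    (show |z| < 1 by rw [abs_of_nonneg hz0]; exact hz)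
  obtain ⟨B, hB⟩ := h.bddAbove_range
  refine ⟨max B 0, le_max_right _ _, fun n => ?_⟩
  exact (hB ⟨n, rfl⟩).trans (le_max_left _ _)

/-- the powers of `Φ` have Waring rank at most `C xⁿ` -/
def WGrowth {σ : Type} (s : ℕ) (Φ : MvPolynomial σ k →ₗ[k] k) (x : ℝ) : Prop :=
  ∃ C : ℝ, 0 ≤ C ∧ ∀ n : ℕ, ∃ r : ℕ, (r : ℝ) ≤ C * x ^ n ∧ WaringLE (n * s) (fpow Φ n) r

section

variable [IsAlgClosed k] {σ : Type} [Finite σ] {s : ℕ} {Φ : MvPolynomial σ k →ₗ[k] k}

/-- Waring growth bounds the growth of the degrees of smoothable schemes. -/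
theorem growth_of_wgrowth (hΦ : IsDualForm s Φ) [Module.Finite k (ApolarAlg Φ)] {x y : ℝ}
    (hx : 0 < x) (hxy : x < y) (h : WGrowth s Φ x) : Growth k (ApolarAlg Φ) y := by
  obtain ⟨C, hC, h⟩ := h
  have hy : 0 < y := hx.trans hxy
  obtain ⟨B, hB0, hB⟩ := poly_mul_geom_bdd 1 (z := x / y) (by positivity)
    ((div_lt_one hy).mpr hxy)
  refine ⟨C * (s * B + 2), by positivity, fun n => ?_⟩
  obtain ⟨r, hr, hW⟩ := h n
  refine ⟨r * (n * s + 2), ?_, fam_pow_of_waring Φ hΦ hW⟩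
  have h1 : (x / y) ^ n ≤ 1 := pow_le_one₀ (by positivity) ((div_lt_one hy).mpr hxy).le
  have h2 : ((n : ℝ) * s + 2) * (x / y) ^ n ≤ s * B + 2 := by
    have h3 := hB n
    rw [pow_one] at h3
    have h4 : (0 : ℝ) ≤ s := Nat.cast_nonneg _
    nlinarith [mul_le_mul_of_nonneg_left h3 h4]
  have h5 : x ^ n = (x / y) ^ n * y ^ n := by
    rw [← mul_pow, div_mul_cancel₀ _ hy.ne']
  have hyn : 0 < y ^ n := by positivity
  push_cast
  calc (r : ℝ) * (n * s + 2) ≤ (C * x ^ n) * (n * s + 2) :=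
        mul_le_mul_of_nonneg_right hr (by positivity)
    _ = C * (((n : ℝ) * s + 2) * (x / y) ^ n) * y ^ n := by rw [h5]; ring
    _ ≤ C * (s * B + 2) * y ^ n :=
        mul_le_mul_of_nonneg_right (mul_le_mul_of_nonneg_left h2 hC) hyn.le

lemma approx_pow [Module.Finite k (ApolarAlg Φ)] {n D : ℕ}
    (hF : Fam k (Pow k (ApolarAlg Φ) n) D) :
    ∃ (e h : ℕ), ∀ j m : ℕ, WaringLE m (fpow Φ (j * n))
      (D ^ j * ((m * (j * h) + 1) * (m + 1) ^ e)) := by
  have hinf : Infinite k := IsAlgClosed.instInfinite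
  obtain ⟨φ, hφ⟩ := exists_phi Φ
  obtain ⟨O, _, _, _, _, _, T, _, h, hT, hA⟩ := approx_of_fam hF (theta Φ n) (tpow φ n)
    (fpow Φ n) (tpow_theta Φ φ hφ n)
  refine ⟨Module.finrank k⟦X⟧ O, h, fun j m => ?_⟩
  refine WaringLE.mono_rank ((waring_of_approx hA j m).regroup) ?_
  exact Nat.mul_le_mul_right _ (Nat.pow_le_pow_left hT j)

lemma exists_form (hΦ : IsDualForm s Φ) (hΦ0 : Φ ≠ 0) :
    ∃ G : MvPolynomial σ k, G.IsHomogeneous s ∧ Φ G ≠ 0 := by
  by_contra hcon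
  push Not at hcon
  apply hΦ0
  refine LinearMap.ext fun F => ?_
  have hF : F = ∑ e ∈ Finset.range (F.totalDegree + 1), homogeneousComponent e F :=
    (sum_homogeneousComponent F).symm
  rw [hF, map_sum, LinearMap.zero_apply]
  refine Finset.sum_eq_zero fun e _ => ?_
  by_cases he : e = s
  · rw [he]
    exact hcon _ (homogeneousComponent_isHomogeneous s F)
  · exact hΦ e he _ (homogeneousComponent_isHomogeneous e F)

/-- The growth of the degrees of smoothable schemes bounds the Waring growth. -/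
theorem wgrowth_of_growth (hΦ : IsDualForm s Φ) (hΦ0 : Φ ≠ 0)
    [Module.Finite k (ApolarAlg Φ)] {x y z : ℝ} (hx : 1 ≤ x) (hxy : x < y) (hyz : y < z)
    (h : Growth k (ApolarAlg Φ) x) : WGrowth s Φ z := by
  obtain ⟨G, hG, hΦG⟩ := exists_form hΦ hΦ0
  obtain ⟨C, hC, hF⟩ := h
  have hx0 : 0 < x := by linarith
  have hy0 : 0 < y := by linarith
  have hy1 : 1 ≤ y := by linarith
  have hz0 : 0 < z := by linarith
  -- choose n
  have hlim : Tendsto (fun n : ℕ => (y / x) ^ n) atTop atTop :=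
    tendsto_pow_atTop_atTop_of_one_lt ((one_lt_div hx0).mpr hxy)
  obtain ⟨n, hn1, hn2⟩ := ((hlim.eventually_ge_atTop C).and (eventually_gt_atTop 0)).exists
  obtain ⟨D, hD, hFD⟩ := hF n
  have hDy : (D : ℝ) ≤ y ^ n := by
    calc (D : ℝ) ≤ C * x ^ n := hD
      _ ≤ (y / x) ^ n * x ^ n := mul_le_mul_of_nonneg_right hn1 (by positivity)
      _ = y ^ n := by rw [← mul_pow, div_mul_cancel₀ _ hx0.ne']
  obtain ⟨e, h, hW⟩ := approx_pow hFD
  obtain ⟨B, hB0, hB⟩ := poly_mul_geom_bdd (e + 2) (z := y / z) (by positivity)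
    ((div_lt_one hz0).mpr hyz)
  set K : ℝ := (n * s * h + 1) * (n * s + 1) ^ e with hK
  have hK0 : 0 ≤ K := by rw [hK]; positivity
  refine ⟨y ^ n * K * (B * (z / y)), by positivity, fun M => ?_⟩
  set j : ℕ := M / n + 1 with hj
  have hMj : M ≤ j * n := by
    rw [hj, add_mul, one_mul]
    have := Nat.div_add_mod' M n
    have := Nat.mod_lt M hn2
    omega
  have hjM : j * n ≤ M + n := by
    rw [hj, add_mul, one_mul]
    have := Nat.div_mul_le_self M n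
    omega
  have hjM' : j ≤ M + 1 := by
    rw [hj]
    have := Nat.div_le_self M n
    omega
  refine ⟨D ^ j * ((j * n * s * (j * h) + 1) * (j * n * s + 1) ^ e), ?_,
    WaringLE.anti Φ hG hΦG hMj (hW j (j * n * s))⟩
  have hj1 : (1 : ℝ) ≤ j := by
    rw [hj]
    push_cast
    have : (0 : ℝ) ≤ ((M / n : ℕ) : ℝ) := Nat.cast_nonneg _
    linarith
  have hjR : (j : ℝ) ≤ (M : ℝ) + 1 := by exact_mod_cast hjM'
  have h1 : ((j : ℝ) * n * s * (j * h) + 1) ≤ (n * s * h + 1) * (j : ℝ) ^ 2 := by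
    have : (1 : ℝ) ≤ (j : ℝ) ^ 2 := one_le_pow₀ hj1
    nlinarith
  have h2 : ((j : ℝ) * n * s + 1) ≤ (n * s + 1) * (j : ℝ) := by nlinarith
  have h3 : ((j : ℝ) * n * s * (j * h) + 1) * ((j : ℝ) * n * s + 1) ^ e ≤
      K * ((M : ℝ) + 1) ^ (e + 2) := by
    have hj0 : (0 : ℝ) ≤ j := by linarith
    calc ((j : ℝ) * n * s * (j * h) + 1) * ((j : ℝ) * n * s + 1) ^ e
        ≤ ((n * s * h + 1) * (j : ℝ) ^ 2) * ((n * s + 1) * (j : ℝ)) ^ e :=
          mul_le_mul h1 (pow_le_pow_left₀ (by positivity) h2 e) (by positivity) (by positivity)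
      _ = K * (j : ℝ) ^ (e + 2) := by rw [hK, mul_pow]; ring
      _ ≤ K * ((M : ℝ) + 1) ^ (e + 2) :=
          mul_le_mul_of_nonneg_left (pow_le_pow_left₀ hj0 hjR _) hK0
  have h4 : (D : ℝ) ^ j ≤ y ^ n * y ^ M := by
    calc (D : ℝ) ^ j ≤ (y ^ n) ^ j := pow_le_pow_left₀ (Nat.cast_nonneg _) hDy j
      _ = y ^ (j * n) := by rw [← pow_mul, mul_comm]
      _ ≤ y ^ (M + n) := pow_le_pow_right₀ hy1 hjM
      _ = y ^ n * y ^ M := by rw [pow_add, mul_comm]
  have h5 : ((M : ℝ) + 1) ^ (e + 2) * y ^ M ≤ B * (z / y) * z ^ M := by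
    have h6 := hB (M + 1)
    push_cast at h6
    have h7 : y ^ M = (y / z) ^ (M + 1) * (z / y) * z ^ M := by
      rw [pow_succ, div_pow]
      field_simp
    calc ((M : ℝ) + 1) ^ (e + 2) * y ^ M
        = (((M : ℝ) + 1) ^ (e + 2) * (y / z) ^ (M + 1)) * ((z / y) * z ^ M) := by
          rw [h7]; ring
      _ ≤ B * ((z / y) * z ^ M) := mul_le_mul_of_nonneg_right h6 (by positivity)
      _ = B * (z / y) * z ^ M := by ring
  push_cast
  calc (D : ℝ) ^ j * (((j : ℝ) * n * s * (j * h) + 1) * ((j : ℝ) * n * s + 1) ^ e)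
      ≤ (y ^ n * y ^ M) * (K * ((M : ℝ) + 1) ^ (e + 2)) :=
        mul_le_mul h4 h3 (by positivity) (by positivity)
    _ = y ^ n * K * (((M : ℝ) + 1) ^ (e + 2) * y ^ M) := by ring
    _ ≤ y ^ n * K * (B * (z / y) * z ^ M) := mul_le_mul_of_nonneg_left h5 (by positivity)
    _ = y ^ n * K * (B * (z / y)) * z ^ M := by ring

end

end Pool.Agent.H826R3.SM
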