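import Pool.Agent.H826R3.SM.Dual

/-!
# Powers of functionals in disjoint variables and Waring rank
-/

namespace Pool.Agent.H826R3.SM

open MvPolynomial

/-- the part of an exponent vector in the `l`-th group of variables -/
noncomputable def part {τ : Type} {n : ℕ} (t : Fin n × τ →₀ ℕ) (l : Fin n) : τ →₀ ℕ :=
  t.comapDomain (Prod.mk l) (Prod.mk_right_injective l).injOn

/-- The `n`-th power in disjoint variables of a linear functional `Ψ` on the polynomial ring:
`fpow Ψ n (G₁(x₁) ⋯ G_n(x_n)) = Ψ(G₁) ⋯ Ψ(G_n)`. -/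
noncomputable def fpow {k τ : Type} [Field k] (Ψ : MvPolynomial τ k →ₗ[k] k) (n : ℕ) :
    MvPolynomial (Fin n × τ) k →ₗ[k] k :=
  functional (MvPolynomial.basisMonomials (Fin n × τ) k)
    fun t => ∏ l, Ψ (monomial (part t l) 1)

/-- On forms of degree `m` the functional `Ψ` is a combination of `r` point evaluations: the
corresponding form of degree `m` is a sum of `r` multiples of `m`-th (divided) powers of linear
forms. -/
def WaringLE {k τ : Type} [Field k] (m : ℕ) (Ψ : MvPolynomial τ k →ₗ[k] k) (r : ℕ) : Prop :=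
  ∃ (c : Fin r → k) (p : Fin r → τ → k), ∀ F : MvPolynomial τ k, F.IsHomogeneous m →
    Ψ F = ∑ i, c i * eval (p i) F

/-- The Waring rank of a form of degree `m`. -/
noncomputable def waringRank {k τ : Type} [Field k] (m : ℕ) (Ψ : MvPolynomial τ k →ₗ[k] k) : ℕ :=
  sInf {r | WaringLE m Ψ r}

variable {k τ : Type} [Field k]

lemma fpow_monomial (Ψ : MvPolynomial τ k →ₗ[k] k) (n : ℕ) (t : Fin n × τ →₀ ℕ) :
    fpow Ψ n (monomial t 1) = ∏ l, Ψ (monomial (part t l) 1) := by
  unfold fpow functional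
  have : (monomial t (1 : k)) = basisMonomials (Fin n × τ) k t := by
    rw [coe_basisMonomials]
  rw [this, Module.Basis.constr_basis]

lemma part_apply {n : ℕ} (t : Fin n × τ →₀ ℕ) (l : Fin n) (v : τ) : part t l v = t (l, v) := rfl

lemma sum_mapDomain_part {n : ℕ} (t : Fin n × τ →₀ ℕ) :
    ∑ l, (part t l).mapDomain (Prod.mk l) = t := by
  classical
  ext ⟨l, v⟩
  rw [Finsupp.finsetSum_apply, Finset.sum_eq_single l]
  · rw [Finsupp.mapDomain_apply (Prod.mk_right_injective l), part_apply]
  · intro l' _ hl'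
    rw [Finsupp.mapDomain_of_notMem_range]
    rintro ⟨w, hw⟩
    exact hl' (congrArg Prod.fst hw)
  · intro h
    exact absurd (Finset.mem_univ _) h

lemma prod_rename_monomial {n : ℕ} (s : Fin n → τ →₀ ℕ) :
    ∏ l, rename (Prod.mk l) (monomial (s l) (1 : k)) =
      monomial (∑ l, (s l).mapDomain (Prod.mk l)) 1 := by
  simp only [rename_monomial]
  rw [← MvPolynomial.monomial_sum_one]

lemma part_sum {n : ℕ} (s : Fin n → τ →₀ ℕ) (l : Fin n) :
    part (∑ l, (s l).mapDomain (Prod.mk l)) l = s l := by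
  classical
  ext v
  rw [part_apply, Finsupp.finsetSum_apply, Finset.sum_eq_single l]
  · rw [Finsupp.mapDomain_apply (Prod.mk_right_injective l)]
  · intro l' _ hl'
    rw [Finsupp.mapDomain_of_notMem_range]
    rintro ⟨w, hw⟩
    exact hl' (congrArg Prod.fst hw)
  · intro h
    exact absurd (Finset.mem_univ _) h

end Pool.Agent.H826R3.SM
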