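import Pool.Agent.H826R3.SM.WDefs
import Pool.Agent.H826R3.SM.Extract

/-!
# Extraction of Waring decompositions from approximate ones over finite extensions
-/

namespace Pool.Agent.H826R3.SM

open scoped PowerSeries
open MvPolynomial

variable {k : Type} [Field k] {O : Type} [CommRing O] [Algebra k⟦X⟧ O]

/-- scalars in `O` -/
noncomputable def iO (k : Type) [Field k] (O : Type) [CommRing O] [Algebra k⟦X⟧ O] : k →+* O :=
  (algebraMap k⟦X⟧ O).comp PowerSeries.C

section degrees

variable {τ υ : Type}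

lemma degreeOf_aeval_le {m D : ℕ} (j : υ) (Q : τ → MvPolynomial υ k)
    (hQ : ∀ v, degreeOf j (Q v) ≤ D) {F : MvPolynomial τ k} (hF : F.IsHomogeneous m) :
    degreeOf j (aeval Q F) ≤ m * D := by
  classical
  rw [F.as_sum, map_sum]
  refine (degreeOf_sum_le _ _ _).trans (Finset.sup_le fun s hs => ?_)
  have h1 : s.degree = m := by
    rw [Finsupp.degree_eq_weight_one]
    exact hF (mem_support_iff.mp hs)
  rw [aeval_monomial]
  change degreeOf j (C (coeff s F) * _) ≤ _
  refine (degreeOf_C_mul_le _ _ _).trans ?_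
  refine (degreeOf_prod_le _ _ _).trans ?_
  calc ∑ i ∈ s.support, degreeOf j (Q i ^ s i) ≤ ∑ i ∈ s.support, s i * D :=
        Finset.sum_le_sum fun i _ => (degreeOf_pow_le _ _ _).trans
          (Nat.mul_le_mul_left _ (hQ i))
    _ = (∑ i ∈ s.support, s i) * D := by rw [Finset.sum_mul]
    _ = m * D := by rw [← h1]; rfl

end degrees

section interp

variable {e : ℕ} (a b : ℕ) (em : ℕ ↪ k)

/-- grid points -/
def grid (w : Fin (a + 1) × (Fin e → Fin (b + 1))) : Option (Fin e) → k
  | none => em w.1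
  | some u => em (w.2 u)

/-- polynomials of bounded degrees -/
def bdd (k : Type) [Field k] (e a b : ℕ) : Submodule k (MvPolynomial (Option (Fin e)) k) where
  carrier := {P | degreeOf none P ≤ a ∧ ∀ u, degreeOf (some u) P ≤ b}
  zero_mem' := by simp
  add_mem' := fun {P Q} hP hQ =>
    ⟨(degreeOf_add_le _ _ _).trans (max_le hP.1 hQ.1),
      fun u => (degreeOf_add_le _ _ _).trans (max_le (hP.2 u) (hQ.2 u))⟩
  smul_mem' := fun c P hP => by
    rw [smul_eq_C_mul]
    exact ⟨(degreeOf_C_mul_le _ _ _).trans hP.1, fun u => (degreeOf_C_mul_le _ _ _).trans (hP.2 u)⟩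

lemma eq_zero_of_grid {P : MvPolynomial (Option (Fin e)) k} (hP : P ∈ bdd k e a b)
    (h : ∀ w, eval (grid a b em w) P = 0) : P = 0 := by
  classical
  refine eq_zero_of_eval_zero_at_prod_finset P
    (fun o => Option.casesOn o ((Finset.range (a + 1)).map em)
      fun _ => (Finset.range (b + 1)).map em) (fun o => ?_) (fun x hx => ?_)
  · rcases o with _ | u
    · change _ < ((Finset.range (a + 1)).map em).card
      rw [Finset.card_map, Finset.card_range]
      exact Nat.lt_succ_of_le hP.1
    · change _ < ((Finset.range (b + 1)).map em).card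
      rw [Finset.card_map, Finset.card_range]
      exact Nat.lt_succ_of_le (hP.2 u)
  · have h0 : x none ∈ (Finset.range (a + 1)).map em := hx none
    have h1 : ∀ u, x (some u) ∈ (Finset.range (b + 1)).map em := fun u => hx (some u)
    simp only [Finset.mem_map, Finset.mem_range] at h0 h1
    obtain ⟨i, hi, hi'⟩ := h0
    choose j hj hj' using h1
    have h2 : x = grid a b em (⟨i, hi⟩, fun u => ⟨j u, hj u⟩) := by
      funext o
      rcases o with _ | u
      · exact hi'.symm
      · exact (hj' u).symm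
    rw [h2]
    exact h _

lemma functional_grid (Λ : MvPolynomial (Option (Fin e)) k →ₗ[k] k) :
    ∃ c : Fin (a + 1) × (Fin e → Fin (b + 1)) → k, ∀ P ∈ bdd k e a b,
      Λ P = ∑ w, c w * eval (grid a b em w) P := by
  let ev : Fin (a + 1) × (Fin e → Fin (b + 1)) → (bdd k e a b →ₗ[k] k) := fun w =>
    (aeval (R := k) (grid a b em w)).toLinearMap ∘ₗ (bdd k e a b).subtype
  have : Λ ∘ₗ (bdd k e a b).subtype ∈ Submodule.span k (Set.range ev) := by
    refine mem_span_of_iInf_ker_le_ker fun P hP => ?_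
    rw [Submodule.mem_iInf] at hP
    have h0 : (P : MvPolynomial (Option (Fin e)) k) = 0 := by
      refine eq_zero_of_grid a b em P.2 fun w => ?_
      have := hP w
      rw [LinearMap.mem_ker] at this
      change aeval (grid a b em w) (P : MvPolynomial (Option (Fin e)) k) = 0 at this
      rwa [← coe_aeval_eq_eval]
    have h1 : P = 0 := Subtype.ext h0
    rw [h1]
    exact Submodule.zero_mem _
  rw [Submodule.mem_span_range_iff_exists_fun] at this
  obtain ⟨c, hc⟩ := this
  refine ⟨c, fun P hP => ?_⟩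
  have h2 := congrArg (fun f => f ⟨P, hP⟩) hc
  simp only [LinearMap.sum_apply, LinearMap.smul_apply, smul_eq_mul] at h2
  rw [show Λ P = (Λ ∘ₗ (bdd k e a b).subtype) ⟨P, hP⟩ from rfl, ← h2]
  refine Finset.sum_congr rfl fun w _ => ?_
  congr 1

end interp

section extract

variable [Module.Finite k⟦X⟧ O] [Module.Free k⟦X⟧ O] {τ : Type}

/-- the universal point -/
noncomputable def QQ (q : τ → O) (H : ℕ) (v : τ) :
    MvPolynomial (Option (Fin (Module.finrank k⟦X⟧ O))) k :=
  ∑ u, ∑ p ∈ Finset.range (H + 1),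
    C (PowerSeries.coeff p ((Module.finBasis k⟦X⟧ O).repr (q v) u)) * (X none ^ p * X (some u))

lemma degreeOf_QQ_none (q : τ → O) (H : ℕ) (v : τ) : degreeOf none (QQ (k := k) q H v) ≤ H := by
  classical
  unfold QQ
  refine (degreeOf_sum_le _ _ _).trans (Finset.sup_le fun u _ => ?_)
  refine (degreeOf_sum_le _ _ _).trans (Finset.sup_le fun p hp => ?_)
  refine (degreeOf_C_mul_le _ _ _).trans ((degreeOf_mul_le _ _ _).trans ?_)
  rw [degreeOf_X_self_pow, degreeOf_X_of_ne (by simp)]
  rw [Finset.mem_range] at hp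
  omega

lemma degreeOf_QQ_some (q : τ → O) (H : ℕ) (v : τ) (u' : Fin (Module.finrank k⟦X⟧ O)) :
    degreeOf (some u') (QQ (k := k) q H v) ≤ 1 := by
  classical
  unfold QQ
  refine (degreeOf_sum_le _ _ _).trans (Finset.sup_le fun u _ => ?_)
  refine (degreeOf_sum_le _ _ _).trans (Finset.sup_le fun p hp => ?_)
  refine (degreeOf_C_mul_le _ _ _).trans ((degreeOf_mul_le _ _ _).trans ?_)
  rw [degreeOf_X_pow_of_ne _ (by simp), zero_add, degreeOf_X]
  split_ifs <;> omega

/-- specialisation at `x = X`, `y_u = b_u` -/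
noncomputable def SO (k : Type) [Field k] (O : Type) [CommRing O] [Algebra k⟦X⟧ O]
    [Module.Finite k⟦X⟧ O] [Module.Free k⟦X⟧ O] :
    MvPolynomial (Option (Fin (Module.finrank k⟦X⟧ O))) k →+* O :=
  eval₂Hom (iO k O) fun o => Option.casesOn o (algebraMap k⟦X⟧ O PowerSeries.X)
    fun u => Module.finBasis k⟦X⟧ O u

lemma SO_QQ (q : τ → O) (H : ℕ) (v : τ) : ∃ y : O,
    q v = SO k O (QQ q H v) + algebraMap k⟦X⟧ O (PowerSeries.X ^ (H + 1)) * y := by
  have h1 : ∀ f : k⟦X⟧, ∃ g : k⟦X⟧, f = (∑ p ∈ Finset.range (H + 1),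
      PowerSeries.C (PowerSeries.coeff p f) * PowerSeries.X ^ p) +
        PowerSeries.X ^ (H + 1) * g := by
    intro f
    have hd : PowerSeries.X ^ (H + 1) ∣ f - ∑ p ∈ Finset.range (H + 1),
        PowerSeries.C (PowerSeries.coeff p f) * PowerSeries.X ^ p := by
      rw [PowerSeries.X_pow_dvd_iff]
      intro j hj
      rw [map_sub, map_sum, Finset.sum_eq_single j]
      · rw [PowerSeries.coeff_C_mul, PowerSeries.coeff_X_pow, if_pos rfl, mul_one, sub_self]
      · intro p _ hp
        rw [PowerSeries.coeff_C_mul, PowerSeries.coeff_X_pow, if_neg (Ne.symm hp), mul_zero]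
      · intro h
        exact absurd (Finset.mem_range.mpr hj) h
    obtain ⟨g, hg⟩ := hd
    exact ⟨g, by rw [← hg]; ring⟩
  choose g hg using h1
  let b := Module.finBasis k⟦X⟧ O
  refine ⟨∑ u, g (b.repr (q v) u) • b u, ?_⟩
  have h2 : SO k O (QQ q H v) = ∑ u, (∑ p ∈ Finset.range (H + 1),
      PowerSeries.C (PowerSeries.coeff p (b.repr (q v) u)) * PowerSeries.X ^ p : k⟦X⟧) • b u := by
    unfold QQ SO
    rw [map_sum]
    refine Finset.sum_congr rfl fun u _ => ?_
    rw [map_sum, Finset.sum_smul]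
    refine Finset.sum_congr rfl fun p _ => ?_
    rw [map_mul, map_mul, map_pow, coe_eval₂Hom, eval₂_C, eval₂_X, eval₂_X, Algebra.smul_def,
      map_mul, map_pow, mul_assoc]
    rfl
  rw [h2, Finset.mul_sum, ← Finset.sum_add_distrib]
  conv_lhs => rw [← b.sum_repr (q v)]
  refine Finset.sum_congr rfl fun u _ => ?_
  conv_lhs => rw [hg (b.repr (q v) u)]
  rw [add_smul, mul_smul, Algebra.smul_def (PowerSeries.X ^ (H + 1))]

theorem extract_point (em : ℕ ↪ k) (η : O →ₗ[k⟦X⟧] k⟦X⟧) (c : O) (q : τ → O) (H m : ℕ) :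
    ∃ (c' : Fin (m * H + 1) × (Fin (Module.finrank k⟦X⟧ O) → Fin (m + 1)) → k)
      (p : Fin (m * H + 1) × (Fin (Module.finrank k⟦X⟧ O) → Fin (m + 1)) → τ → k),
      ∀ F : MvPolynomial τ k, F.IsHomogeneous m →
        PowerSeries.coeff H (η (c * eval₂ (iO k O) q F)) = ∑ w, c' w * eval (p w) F := by
  let Λ : MvPolynomial (Option (Fin (Module.finrank k⟦X⟧ O))) k →ₗ[k] k :=
    { toFun := fun P => PowerSeries.coeff H (η (c * SO k O P))
      map_add' := fun P Q => by rw [map_add, mul_add, map_add, map_add]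
      map_smul' := fun r P => by
        have h1 : SO k O (r • P) = algebraMap k⟦X⟧ O (PowerSeries.C r) * SO k O P := by
          rw [smul_eq_C_mul, map_mul]
          congr 1
          unfold SO
          rw [coe_eval₂Hom, eval₂_C]
          rfl
        rw [h1, mul_left_comm, ← Algebra.smul_def, map_smul, smul_eq_mul,
          PowerSeries.coeff_C_mul]
        rfl }
  obtain ⟨c', hc'⟩ := functional_grid (m * H) m em Λ
  refine ⟨c', fun w v => eval (grid (m * H) m em w) (QQ q H v), fun F hF => ?_⟩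
  have hmem : aeval (QQ q H) F ∈ bdd k (Module.finrank k⟦X⟧ O) (m * H) m := by
    refine ⟨degreeOf_aeval_le none _ (degreeOf_QQ_none q H) hF, fun u => ?_⟩
    have := degreeOf_aeval_le (some u) (QQ q H) (fun v => degreeOf_QQ_some q H v u) hF
    rwa [mul_one] at this
  have h1 : ∃ y : O, eval₂ (iO k O) q F = SO k O (aeval (QQ q H) F) +
      algebraMap k⟦X⟧ O (PowerSeries.X ^ (H + 1)) * y := by
    set J : Ideal O := Ideal.span {algebraMap k⟦X⟧ O (PowerSeries.X ^ (H + 1))} with hJ
    have h2 : (Ideal.Quotient.mk J).comp (eval₂Hom (iO k O) q) =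
        ((Ideal.Quotient.mk J).comp (SO k O)).comp
          (aeval (QQ q H) : MvPolynomial τ k →ₐ[k] _).toRingHom := by
      refine MvPolynomial.ringHom_ext (fun r => ?_) fun v => ?_
      · change Ideal.Quotient.mk J (eval₂ (iO k O) q (C r)) =
          Ideal.Quotient.mk J (SO k O (aeval (QQ q H) (C r)))
        rw [eval₂_C, aeval_C]
        change _ = Ideal.Quotient.mk J (SO k O (C r))
        unfold SO
        rw [coe_eval₂Hom, eval₂_C]
      · change Ideal.Quotient.mk J (eval₂ (iO k O) q (X v)) =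
          Ideal.Quotient.mk J (SO k O (aeval (QQ q H) (X v)))
        rw [eval₂_X, aeval_X, Ideal.Quotient.eq, hJ, Ideal.mem_span_singleton]
        obtain ⟨y, hy⟩ := SO_QQ (k := k) q H v
        exact ⟨y, by rw [← sub_eq_iff_eq_add'.mpr hy]⟩
    have h3 : Ideal.Quotient.mk J (eval₂ (iO k O) q F) =
        Ideal.Quotient.mk J (SO k O (aeval (QQ q H) F)) := congrArg (fun f => f F) h2
    rw [Ideal.Quotient.eq, hJ, Ideal.mem_span_singleton] at h3
    obtain ⟨y, hy⟩ := h3
    exact ⟨y, by rw [← hy]; ring⟩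
  obtain ⟨y, hy⟩ := h1
  have h4 : PowerSeries.coeff H (η (c * eval₂ (iO k O) q F)) = Λ (aeval (QQ q H) F) := by
    change _ = PowerSeries.coeff H (η (c * SO k O (aeval (QQ q H) F)))
    rw [hy, mul_add, map_add, map_add, mul_left_comm, ← Algebra.smul_def, map_smul, smul_eq_mul,
      PowerSeries.coeff_X_pow_mul', if_neg (by omega), add_zero]
  rw [h4, hc' _ hmem]
  refine Finset.sum_congr rfl fun w _ => ?_
  congr 1
  have h5 : (eval (grid (m * H) m em w)).comp (aeval (QQ q H) : MvPolynomial τ k →ₐ[k] _).toRingHom =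
      eval fun v => eval (grid (m * H) m em w) (QQ q H v) := by
    refine MvPolynomial.ringHom_ext (fun r => ?_) fun v => ?_
    · change eval _ (aeval (QQ q H) (C r)) = _
      rw [aeval_C, eval_C]
      change eval _ (C r) = r
      rw [eval_C]
    · change eval _ (aeval (QQ q H) (X v)) = _
      rw [aeval_X, eval_X]
  exact congrArg (fun f => f F) h5

end extract

end Pool.Agent.H826R3.SM
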