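import Pool.Agent.H826R3.SM.WAsym

/-!
# Q1 for apolar algebras is a statement on Waring ranks
-/

namespace Pool.Agent.H826R3.SM

open scoped TensorProduct PowerSeries Topology
open MvPolynomial Filter

variable {k : Type} [Field k]

/-- The growth statement for Waring ranks: for every `ε > 0`, the Waring rank of the `n`-th power
in disjoint variables of the dual form `Φ` of degree `s`, divided by `d^{(1+ε)n}`, tends to `0`,
where `d` is the dimension of the apolar algebra, i.e. of the space of all partial derivatives. -/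
def WaringQOne {σ : Type} (s : ℕ) (Φ : MvPolynomial σ k →ₗ[k] k) : Prop :=
  ∀ ε : ℝ, 0 < ε → Tendsto (fun n : ℕ => (waringRank (n * s) (fpow Φ n) : ℝ) /
    (Module.finrank k (ApolarAlg Φ) : ℝ) ^ ((1 + ε) * (n : ℝ))) atTop (𝓝 0)

section

variable [IsAlgClosed k] {σ : Type} [Finite σ] {s : ℕ} {Φ : MvPolynomial σ k →ₗ[k] k}

lemma two_le_finrank (hΦ : IsDualForm s Φ) (hΦ0 : Φ ≠ 0) (hs : 1 ≤ s)
    [Module.Finite k (ApolarAlg Φ)] : 2 ≤ Module.finrank k (ApolarAlg Φ) := by
  have hnt : Nontrivial (ApolarAlg Φ) := by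
    rw [Ideal.Quotient.nontrivial_iff]
    intro h
    apply hΦ0
    refine LinearMap.ext fun F => ?_
    have h1 : (1 : MvPolynomial σ k) ∈ annOf Φ := by rw [h]; trivial
    have h2 := h1 F
    rwa [one_mul] at h2
  have hpos : 0 < Module.finrank k (ApolarAlg Φ) := Module.finrank_pos
  by_contra hcon
  have h1 : Module.finrank k (ApolarAlg Φ) = 1 := by omega
  have h2 := Subalgebra.bot_eq_top_of_finrank_eq_one h1
  obtain ⟨G, hG, hΦG⟩ := exists_form hΦ hΦ0
  have h3 : (Ideal.Quotient.mk (annOf Φ) G : ApolarAlg Φ) ∈ (⊥ : Subalgebra k (ApolarAlg Φ)) := by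
    rw [h2]; trivial
  rw [Algebra.mem_bot] at h3
  obtain ⟨c, hc⟩ := h3
  have h4 : (Ideal.Quotient.mk (annOf Φ)) (C c) = Ideal.Quotient.mk (annOf Φ) G := by
    rw [← hc]
    rfl
  rw [Ideal.Quotient.eq] at h4
  have h5 := h4 1
  rw [mul_one, map_sub, hΦ 0 (by omega) (C c) (isHomogeneous_C σ c), zero_sub, neg_eq_zero] at h5
  exact hΦG h5

lemma exists_fam (hΦ : IsDualForm s Φ) [Module.Finite k (ApolarAlg Φ)] (n : ℕ) :
    ∃ D, InSmoothable k (Pow k (ApolarAlg Φ) n) D := by
  have := Fintype.ofFinite σ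
  obtain ⟨T, _, hT⟩ := hasSec_apolar hΦ
  obtain ⟨D, -, hD⟩ := (hT.pow n).inSmoothable
  exact ⟨D, hD⟩

lemma exists_waring (hΦ : IsDualForm s Φ) [Module.Finite k (ApolarAlg Φ)] (n : ℕ) :
    ∃ r, WaringLE (n * s) (fpow Φ n) r := by
  obtain ⟨D, hD⟩ := exists_fam hΦ n
  obtain ⟨e, h, hW⟩ := approx_pow hD.fam
  have h1 : ∀ N, N = 1 * n → ∃ r, WaringLE (n * s) (fpow Φ N) r := by
    rintro N rfl
    exact ⟨_, hW 1 (n * s)⟩
  exact h1 n (one_mul n).symm

theorem waring_iff (hΦ : IsDualForm s Φ) (hΦ0 : Φ ≠ 0) (hs : 1 ≤ s) :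
    QOne k (ApolarAlg Φ) ↔ WaringQOne s Φ := by
  have hinf : Infinite k := IsAlgClosed.instInfinite
  have hfin : Module.Finite k (ApolarAlg Φ) := by
    have := Fintype.ofFinite σ
    exact finite_apolar hΦ
  have h2 := two_le_finrank hΦ hΦ0 hs
  have hnt : Nontrivial (ApolarAlg Φ) :=
    Module.nontrivial_of_finrank_pos (R := k) (by omega)
  set d : ℝ := (Module.finrank k (ApolarAlg Φ) : ℝ) with hd
  have hd1 : 1 < d := by
    rw [hd]
    exact_mod_cast (by omega : 1 < Module.finrank k (ApolarAlg Φ))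
  have hd0 : 0 < d := by linarith
  constructor
  · intro h ε hε
    have h3 := h.growth (exists_fam hΦ) (ε / 4) (by linarith)
    rw [← hd] at h3
    obtain ⟨C, hC, hW⟩ := wgrowth_of_growth hΦ hΦ0 (x := d ^ (1 + ε / 4)) (y := d ^ (1 + ε / 2))
      (z := d ^ (1 + ε * 3 / 4)) (Real.one_le_rpow hd1.le (by linarith))
      (Real.rpow_lt_rpow_of_exponent_lt hd1 (by linarith))
      (Real.rpow_lt_rpow_of_exponent_lt hd1 (by linarith)) h3
    have hq : d ^ (1 + ε * 3 / 4) / d ^ (1 + ε) < 1 := by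
      rw [div_lt_one (by positivity)]
      exact Real.rpow_lt_rpow_of_exponent_lt hd1 (by linarith)
    have hq0 : 0 ≤ d ^ (1 + ε * 3 / 4) / d ^ (1 + ε) := by positivity
    have hlim : Tendsto (fun n : ℕ => C * (d ^ (1 + ε * 3 / 4) / d ^ (1 + ε)) ^ n) atTop
        (𝓝 0) := by
      have := (tendsto_pow_atTop_nhds_zero_of_lt_one hq0 hq).const_mul C
      rwa [mul_zero] at this
    refine squeeze_zero (fun n => by positivity) (fun n => ?_) hlim
    obtain ⟨r, hr, hWr⟩ := hW n
    have h4 : (waringRank (n * s) (fpow Φ n) : ℝ) ≤ C * (d ^ (1 + ε * 3 / 4)) ^ n := by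
      refine le_trans ?_ hr
      exact_mod_cast Nat.sInf_le hWr
    rw [denom_eq', div_pow, ← mul_div_assoc]
    exact div_le_div_of_nonneg_right h4 (by positivity)
  · intro h
    refine QOne.of_growth fun ε hε => ?_
    rw [← hd]
    refine growth_of_wgrowth hΦ (x := d ^ (1 + ε / 2)) (by positivity)
      (Real.rpow_lt_rpow_of_exponent_lt hd1 (by linarith)) ?_
    obtain ⟨B, hB⟩ := (h (ε / 2) (by linarith)).bddAbove_range
    refine ⟨max B 0, le_max_right _ _, fun n => ⟨waringRank (n * s) (fpow Φ n), ?_, ?_⟩⟩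
    · have h4 : (waringRank (n * s) (fpow Φ n) : ℝ) / (d ^ (1 + ε / 2)) ^ n ≤ B := by
        have := hB ⟨n, rfl⟩
        beta_reduce at this
        rw [denom_eq', ← hd] at this
        exact this
      rw [div_le_iff₀ (by positivity)] at h4
      exact h4.trans (mul_le_mul_of_nonneg_right (le_max_left _ _) (by positivity))
    · exact Nat.sInf_mem (exists_waring hΦ n)

end

end Pool.Agent.H826R3.SM
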