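import Pool.Agent.H826R3.SM.WDefs
import Pool.Agent.H826R3.SM.Finiteness

/-!
# Waring decompositions give smoothable schemes
-/

namespace Pool.Agent.H826R3.SM

open scoped TensorProduct PowerSeries
open MvPolynomial

variable {k : Type} [Field k]

lemma exists_desc {V : Type} [CommRing V] [Algebra k V] (J : Ideal V) (Ψ : V →ₗ[k] k)
    (h : ∀ v ∈ J, Ψ v = 0) : ∃ γ : (V ⧸ J) →ₗ[k] k, ∀ v, γ (Ideal.Quotient.mk J v) = Ψ v := by
  let f : V →ₗ[k] V ⧸ J := (Ideal.Quotient.mkₐ k J).toLinearMap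
  have hf : Function.Surjective f := Ideal.Quotient.mk_surjective
  have hker : LinearMap.ker f ≤ LinearMap.ker Ψ := by
    intro F hF
    rw [LinearMap.mem_ker] at hF ⊢
    exact h F (Ideal.Quotient.eq_zero_iff_mem.mp hF)
  let e := f.quotKerEquivOfSurjective hf
  refine ⟨(LinearMap.ker f).liftQ Ψ hker ∘ₗ e.symm.toLinearMap, fun F => ?_⟩
  have h1 : e.symm (f F) = Submodule.Quotient.mk F := by
    rw [LinearEquiv.symm_apply_eq]
    rfl
  change (LinearMap.ker f).liftQ Ψ hker (e.symm (f F)) = _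
  rw [h1, Submodule.liftQ_apply]

lemma degree_sum_part {τ : Type} {n : ℕ} (t : Fin n × τ →₀ ℕ) :
    ∑ l, (part t l).degree = t.degree := by
  classical
  conv_rhs => rw [← sum_mapDomain_part t]
  rw [map_sum]
  refine Finset.sum_congr rfl fun l _ => ?_
  rw [Finsupp.degree_mapDomain]

lemma fpow_dual {τ : Type} {s : ℕ} {Φ : MvPolynomial τ k →ₗ[k] k} (hΦ : IsDualForm s Φ) (n : ℕ) :
    IsDualForm (n * s) (fpow Φ n) := by
  intro d hd F hF
  rw [F.as_sum, map_sum]
  refine Finset.sum_eq_zero fun t ht => ?_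
  have h1 : t.degree = d := by
    rw [Finsupp.degree_eq_weight_one]
    exact hF (mem_support_iff.mp ht)
  have h2 : (monomial t (coeff t F)) = coeff t F • (monomial t (1 : k)) := by
    rw [smul_monomial, smul_eq_mul, mul_one]
  rw [h2, map_smul, fpow_monomial]
  have h3 : ∃ l, (part t l).degree ≠ s := by
    by_contra hcon
    push Not at hcon
    apply hd
    rw [← h1, ← degree_sum_part t, Finset.sum_congr rfl fun l _ => hcon l]
    simp
  obtain ⟨l, hl⟩ := h3
  rw [Finset.prod_eq_zero (Finset.mem_univ l), smul_zero]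
  exact hΦ _ hl _ (isHomogeneous_monomial _ rfl)

section waring

variable {τ : Type} {m r : ℕ} {Ψ : MvPolynomial τ k →ₗ[k] k}

lemma mem_annOf_of_waring (hΨ : IsDualForm m Ψ) (c : Fin r → k) (p : Fin r → τ → k)
    (hW : ∀ F : MvPolynomial τ k, F.IsHomogeneous m → Ψ F = ∑ i, c i * eval (p i) F)
    (F : MvPolynomial τ k)
    (h : ∀ e ≤ m, ∀ i, eval (p i) (homogeneousComponent e F) = 0) : F ∈ annOf Ψ := by
  intro G
  have hF : F = ∑ e ∈ Finset.range (F.totalDegree + 1), homogeneousComponent e F :=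
    (sum_homogeneousComponent F).symm
  have hG : G = ∑ e ∈ Finset.range (G.totalDegree + 1), homogeneousComponent e G :=
    (sum_homogeneousComponent G).symm
  rw [hF, hG, Finset.sum_mul_sum, map_sum]
  refine Finset.sum_eq_zero fun i _ => ?_
  rw [map_sum]
  refine Finset.sum_eq_zero fun j _ => ?_
  have hij := (homogeneousComponent_isHomogeneous i F).mul (homogeneousComponent_isHomogeneous j G)
  by_cases h1 : i + j = m
  · rw [hW _ (by rw [← h1]; exact hij)]
    refine Finset.sum_eq_zero fun l _ => ?_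
    rw [map_mul, h i (by omega) l, zero_mul, mul_zero]
  · exact hΨ (i + j) h1 _ hij

lemma fam_of_waring [IsAlgClosed k] [Finite τ] (hΨ : IsDualForm m Ψ) (hW : WaringLE m Ψ r) :
    Fam k (ApolarAlg Ψ) (r * (m + 2)) := by
  obtain ⟨c, p, hW⟩ := hW
  obtain ⟨N, hN1, hN3, hN2⟩ : ∃ N : ℕ, m + 1 ≤ N ∧ N ≤ m + 2 ∧ (N : k) ≠ 0 := by
    by_cases h : ((m + 1 : ℕ) : k) = 0
    · refine ⟨m + 2, by omega, le_rfl, ?_⟩
      have : ((m + 2 : ℕ) : k) = ((m + 1 : ℕ) : k) + 1 := by push_cast; ring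
      rw [this, h, zero_add]
      exact one_ne_zero
    · exact ⟨m + 1, le_rfl, by omega, h⟩
  have hNz : NeZero (N : k) := ⟨hN2⟩
  obtain ⟨ζ, hζ⟩ := HasEnoughRootsOfUnity.exists_primitiveRoot k N
  have h1 : HasSec k (MvPolynomial τ k ⧸ annOf Ψ) (Fin r × Fin N) :=
    hasSec_of_points (annOf Ψ) p N ζ hζ hN2 fun F hF =>
      mem_annOf_of_waring hΨ c p hW F fun e he i => hF e (by omega) i
  obtain ⟨D, hD, hS⟩ := h1.inSmoothable
  refine hS.fam.mono (hD.trans ?_)
  rw [Fintype.card_prod, Fintype.card_fin, Fintype.card_fin]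
  exact Nat.mul_le_mul_left _ hN3

end waring

section nondeg

variable {G : Type} [CommRing G] [Algebra k G] [Module.Finite k G]

/-- the power of a functional -/
noncomputable def tpow (φ : G →ₗ[k] k) (n : ℕ) : Pow k G n →ₗ[k] k :=
  PiTensorProduct.lift ((MultilinearMap.mkPiAlgebra k (Fin n) k).compLinearMap fun _ => φ)

omit [Module.Finite k G] in
lemma tpow_tprod (φ : G →ₗ[k] k) (n : ℕ) (x : Fin n → G) :
    tpow φ n (PiTensorProduct.tprod k x) = ∏ i, φ (x i) := by
  unfold tpow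
  rw [PiTensorProduct.lift.tprod]
  simp

lemma exists_dual_elt (φ : G →ₗ[k] k) (hφ : ∀ x, (∀ y, φ (x * y) = 0) → x = 0)
    (f : G →ₗ[k] k) : ∃ y, ∀ x, φ (x * y) = f x := by
  let B : G →ₗ[k] Module.Dual k G := ((LinearMap.mul k G).compr₂ φ)
  have hB : Function.Injective B := by
    rw [injective_iff_map_eq_zero]
    intro x hx
    exact hφ x fun y => congrArg (fun g => g y) hx
  have hs : Function.Surjective B :=
    (LinearMap.injective_iff_surjective_of_finrank_eq_finrank
      (Subspace.dual_finrank_eq (K := k) (V := G)).symm).mp hB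
  obtain ⟨y, hy⟩ := hs f
  refine ⟨y, fun x => ?_⟩
  rw [mul_comm]
  exact congrArg (fun g => g x) hy

lemma tpow_nondeg (φ : G →ₗ[k] k) (hφ : ∀ x, (∀ y, φ (x * y) = 0) → x = 0) (n : ℕ)
    (z : Pow k G n) (hz : ∀ w, tpow φ n (z * w) = 0) : z = 0 := by
  classical
  let b := Module.finBasis k G
  let bb := Basis.piTensorProduct (fun _ : Fin n => b)
  choose b' hb' using fun i => exists_dual_elt φ hφ (b.coord i)
  apply bb.ext_elem
  intro J
  rw [map_zero]
  have h1 : bb.coord J = (tpow φ n) ∘ₗ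
      (LinearMap.mulRight k (PiTensorProduct.tprod k fun l => b' (J l) : Pow k G n)) := by
    apply bb.ext
    intro I
    rw [Module.Basis.coord_apply, bb.repr_self, LinearMap.comp_apply, LinearMap.mulRight_apply,
      Basis.piTensorProduct_apply, PiTensorProduct.tprod_mul_tprod, tpow_tprod,
      Finsupp.single_apply]
    have h2 : ∀ l, φ (((fun i => b (I i)) * fun l => b' (J l)) l) = if I l = J l then 1 else 0 := by
      intro l
      rw [Pi.mul_apply, hb', Module.Basis.coord_apply, b.repr_self, Finsupp.single_apply]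
    rw [Finset.prod_congr rfl fun l _ => h2 l]
    by_cases hIJ : I = J
    · rw [if_pos hIJ, hIJ]
      simp
    · rw [if_neg hIJ]
      obtain ⟨l, hl⟩ := Function.ne_iff.mp hIJ
      exact (Finset.prod_eq_zero (Finset.mem_univ l) (if_neg hl)).symm
  have h3 := congrArg (fun f => f z) h1
  have h4 : bb.coord J z = 0 := by
    rw [h1]
    exact hz _
  exact h4

end nondeg

section theta

variable {σ : Type} (Φ : MvPolynomial σ k →ₗ[k] k)

/-- the map from the polynomial ring in `n` groups of variables -/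
noncomputable def theta (n : ℕ) : MvPolynomial (Fin n × σ) k →ₐ[k] Pow k (ApolarAlg Φ) n :=
  aeval fun v => sg k (ApolarAlg Φ) v.1 (Ideal.Quotient.mk (annOf Φ) (X v.2))

lemma theta_rename (n : ℕ) (l : Fin n) (P : MvPolynomial σ k) :
    theta Φ n (rename (Prod.mk l) P) = sg k (ApolarAlg Φ) l (Ideal.Quotient.mk (annOf Φ) P) := by
  have h : (theta Φ n).comp (rename (Prod.mk l)) =
      (sg k (ApolarAlg Φ) l).comp (Ideal.Quotient.mkₐ k (annOf Φ)) := by
    refine MvPolynomial.algHom_ext fun v => ?_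
    rw [AlgHom.comp_apply, rename_X]
    unfold theta
    rw [aeval_X]
    rfl
  exact congrArg (fun f => f P) h

lemma theta_monomial (n : ℕ) (t : Fin n × σ →₀ ℕ) :
    theta Φ n (monomial t 1) = PiTensorProduct.tprod k fun l =>
      (Ideal.Quotient.mk (annOf Φ) (monomial (part t l) 1) : ApolarAlg Φ) := by
  conv_lhs => rw [← sum_mapDomain_part t, ← prod_rename_monomial, map_prod]
  rw [tprod_eq_prod_single]
  exact Finset.prod_congr rfl fun l _ => theta_rename Φ n l _

lemma theta_surjective (n : ℕ) : Function.Surjective (theta Φ n) := by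
  rw [← AlgHom.range_eq_top]
  refine pow_eq_top _ fun l x => ?_
  obtain ⟨P, rfl⟩ := Ideal.Quotient.mk_surjective x
  exact ⟨rename (Prod.mk l) P, theta_rename Φ n l P⟩

lemma exists_phi : ∃ φ : ApolarAlg Φ →ₗ[k] k, ∀ F, φ (Ideal.Quotient.mk (annOf Φ) F) = Φ F :=
  exists_desc (annOf Φ) Φ fun F hF => by
    have := hF 1
    rwa [mul_one] at this

lemma tpow_theta (φ : ApolarAlg Φ →ₗ[k] k) (hφ : ∀ F, φ (Ideal.Quotient.mk (annOf Φ) F) = Φ F)
    (n : ℕ) (F : MvPolynomial (Fin n × σ) k) : tpow φ n (theta Φ n F) = fpow Φ n F := by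
  have h : (tpow φ n) ∘ₗ (theta Φ n).toLinearMap = fpow Φ n := by
    refine (basisMonomials (Fin n × σ) k).ext fun t => ?_
    rw [coe_basisMonomials, LinearMap.comp_apply, fpow_monomial]
    change tpow φ n (theta Φ n (monomial t 1)) = _
    rw [theta_monomial, tpow_tprod]
    exact Finset.prod_congr rfl fun l _ => hφ _
  exact congrArg (fun f => f F) h

lemma theta_of_mem [Module.Finite k (ApolarAlg Φ)] (n : ℕ) {F : MvPolynomial (Fin n × σ) k}
    (hF : F ∈ annOf (fpow Φ n)) : theta Φ n F = 0 := by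
  obtain ⟨φ, hφ⟩ := exists_phi Φ
  refine tpow_nondeg φ ?_ n _ fun w => ?_
  · intro x hx
    obtain ⟨P, rfl⟩ := Ideal.Quotient.mk_surjective x
    rw [Ideal.Quotient.eq_zero_iff_mem]
    intro Q
    rw [← hφ, map_mul]
    exact hx _
  · obtain ⟨Q, rfl⟩ := theta_surjective Φ n w
    rw [← map_mul, tpow_theta Φ φ hφ]
    exact hF Q

theorem fam_pow_of_waring [IsAlgClosed k] [Finite σ] {s : ℕ} (hΦ : IsDualForm s Φ)
    [Module.Finite k (ApolarAlg Φ)] {n r : ℕ} (hW : WaringLE (n * s) (fpow Φ n) r) :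
    Fam k (Pow k (ApolarAlg Φ) n) (r * (n * s + 2)) := by
  have h1 := fam_of_waring (fpow_dual hΦ n) hW
  let f : ApolarAlg (fpow Φ n) →ₐ[k] Pow k (ApolarAlg Φ) n :=
    Ideal.Quotient.liftₐ _ (theta Φ n) (fun P hP => theta_of_mem Φ n hP)
  have hf : Function.Surjective f := by
    intro y
    obtain ⟨P, hP⟩ := theta_surjective Φ n y
    exact ⟨Ideal.Quotient.mk _ P, hP⟩
  exact h1.of_surjective f hf

end theta

end Pool.Agent.H826R3.SM
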