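import Pool.Agent.H826R3.SM.WApprox
import Pool.Agent.H826R3.SM.WUpper

/-!
# Transport of Waring decompositions
-/

namespace Pool.Agent.H826R3.SM

open scoped TensorProduct PowerSeries
open MvPolynomial

variable {k : Type} [Field k] {σ : Type} (Φ : MvPolynomial σ k →ₗ[k] k)

/-- regrouping of the variables -/
def regroup (σ : Type) (j n : ℕ) : Fin j × (Fin n × σ) ≃ Fin (j * n) × σ :=
  (Equiv.prodAssoc (Fin j) (Fin n) σ).symm.trans (finProdFinEquiv.prodCongr (Equiv.refl σ))

lemma regroup_apply (j n : ℕ) (l : Fin j) (i : Fin n) (v : σ) :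
    regroup σ j n (l, (i, v)) = (finProdFinEquiv (l, i), v) := rfl

lemma fpow_regroup (j n : ℕ) (F : MvPolynomial (Fin j × (Fin n × σ)) k) :
    fpow Φ (j * n) (rename (regroup σ j n) F) = fpow (fpow Φ n) j F := by
  have h : (fpow Φ (j * n)) ∘ₗ (rename (R := k) (regroup σ j n)).toLinearMap =
      fpow (fpow Φ n) j := by
    refine (basisMonomials (Fin j × (Fin n × σ)) k).ext fun t => ?_
    rw [coe_basisMonomials, LinearMap.comp_apply]
    change fpow Φ (j * n) (rename (regroup σ j n) (monomial t 1)) = _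
    rw [rename_monomial, fpow_monomial, fpow_monomial]
    rw [← Fintype.prod_equiv finProdFinEquiv
      (fun x : Fin j × Fin n => Φ (monomial (part (part t x.1) x.2) 1)) _ ?_]
    · rw [Fintype.prod_prod_type]
      refine Finset.prod_congr rfl fun l _ => ?_
      rw [fpow_monomial]
    · rintro ⟨l, i⟩
      have h1 : part (Finsupp.mapDomain (regroup σ j n) t) (finProdFinEquiv (l, i)) =
          part (part t l) i := by
        ext v
        rw [part_apply, ← regroup_apply, Finsupp.mapDomain_apply (regroup σ j n).injective]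
        rfl
      rw [h1]
  exact congrArg (fun f => f F) h

variable {Φ} in
lemma WaringLE.regroup {j n m r : ℕ} (h : WaringLE m (fpow (fpow Φ n) j) r) :
    WaringLE m (fpow Φ (j * n)) r := by
  obtain ⟨c, p, h⟩ := h
  refine ⟨c, fun i => p i ∘ (SM.regroup σ j n).symm, fun F hF => ?_⟩
  have h1 : F = rename (SM.regroup σ j n) (rename (SM.regroup σ j n).symm F) := by
    rw [rename_rename]
    simp
  conv_lhs => rw [h1]
  rw [fpow_regroup, h _ hF.rename_isHomogeneous]
  refine Finset.sum_congr rfl fun i _ => ?_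
  rw [eval_rename]

lemma WaringLE.mono_deg {m m' r : ℕ} {τ : Type} {Ψ : MvPolynomial τ k →ₗ[k] k}
    (h : WaringLE m Ψ r) (hm : m = m') : WaringLE m' Ψ r := hm ▸ h

lemma WaringLE.mono_rank {m r r' : ℕ} {τ : Type} {Ψ : MvPolynomial τ k →ₗ[k] k}
    (h : WaringLE m Ψ r) (hr : r ≤ r') : WaringLE m Ψ r' := by
  obtain ⟨t, rfl⟩ := Nat.exists_eq_add_of_le hr
  obtain ⟨c, p, h⟩ := h
  refine ⟨Fin.append c fun _ => 0, Fin.append p fun _ _ => 0, fun F hF => ?_⟩
  rw [Fin.sum_univ_add, h F hF]
  simp

lemma fpow_succ (M : ℕ) (F : MvPolynomial (Fin M × σ) k) (G : MvPolynomial σ k) :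
    fpow Φ (M + 1) (rename (Prod.map Fin.castSucc id) F * rename (Prod.mk (Fin.last M)) G) =
      fpow Φ M F * Φ G := by
  classical
  have hinj1 : Function.Injective (Prod.map Fin.castSucc id : Fin M × σ → Fin (M + 1) × σ) :=
    (Fin.castSucc_injective M).prodMap Function.injective_id
  have hinj2 : Function.Injective (Prod.mk (Fin.last M) : σ → Fin (M + 1) × σ) :=
    Prod.mk_right_injective _
  have key : ∀ (t : Fin M × σ →₀ ℕ) (s : σ →₀ ℕ),
      fpow Φ (M + 1) (rename (Prod.map Fin.castSucc id) (monomial t 1) *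
        rename (Prod.mk (Fin.last M)) (monomial s 1)) = fpow Φ M (monomial t 1) *
          Φ (monomial s 1) := by
    intro t s
    rw [rename_monomial, rename_monomial, monomial_mul, one_mul, fpow_monomial, fpow_monomial,
      Fin.prod_univ_castSucc]
    have h1 : ∀ l : Fin M, part (Finsupp.mapDomain (Prod.map Fin.castSucc id) t +
        Finsupp.mapDomain (Prod.mk (Fin.last M)) s) l.castSucc = part t l := by
      intro l
      ext v
      have hz : Finsupp.mapDomain (Prod.mk (Fin.last M) : σ → Fin (M + 1) × σ) s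
          (l.castSucc, v) = 0 := by
        rw [Finsupp.mapDomain_of_notMem_range]
        rintro ⟨w, hw⟩
        exact (Fin.castSucc_lt_last l).ne' (congrArg Prod.fst hw)
      rw [part_apply, Finsupp.add_apply, hz, add_zero]
      have : ((l.castSucc, v) : Fin (M + 1) × σ) = Prod.map Fin.castSucc id (l, v) := rfl
      rw [this, Finsupp.mapDomain_apply hinj1]
      rfl
    have h2 : part (Finsupp.mapDomain (Prod.map Fin.castSucc id) t +
        Finsupp.mapDomain (Prod.mk (Fin.last M)) s) (Fin.last M) = s := by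
      ext v
      rw [part_apply, Finsupp.add_apply, Finsupp.mapDomain_apply hinj2,
        Finsupp.mapDomain_of_notMem_range, zero_add]
      rintro ⟨w, hw⟩
      exact (Fin.castSucc_lt_last w.1).ne (congrArg Prod.fst hw)
    rw [h2, Finset.prod_congr rfl fun l _ => by rw [h1 l]]
  have key2 : ∀ (t : Fin M × σ →₀ ℕ) (G : MvPolynomial σ k),
      fpow Φ (M + 1) (rename (Prod.map Fin.castSucc id) (monomial t 1) *
        rename (Prod.mk (Fin.last M)) G) = fpow Φ M (monomial t 1) * Φ G := by
    intro t G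
    have h : (fpow Φ (M + 1)) ∘ₗ (LinearMap.mulLeft k
        (rename (Prod.map Fin.castSucc id) (monomial t (1 : k)))) ∘ₗ
          (rename (R := k) (Prod.mk (Fin.last M) : σ → Fin (M + 1) × σ)).toLinearMap =
        (fpow Φ M (monomial t 1)) • Φ := by
      refine (basisMonomials σ k).ext fun s => ?_
      rw [coe_basisMonomials]
      exact key t s
    exact congrArg (fun f => f G) h
  have h : (fpow Φ (M + 1)) ∘ₗ (LinearMap.mulRight k
      (rename (Prod.mk (Fin.last M) : σ → Fin (M + 1) × σ) G)) ∘ₗ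
        (rename (R := k) (Prod.map Fin.castSucc id : Fin M × σ → Fin (M + 1) × σ)).toLinearMap =
      (Φ G) • fpow Φ M := by
    refine (basisMonomials (Fin M × σ) k).ext fun t => ?_
    rw [coe_basisMonomials]
    refine (key2 t G).trans ?_
    rw [LinearMap.smul_apply, smul_eq_mul, mul_comm]
  have h3 := congrArg (fun f => f F) h
  refine Eq.trans h3 ?_
  rw [LinearMap.smul_apply, smul_eq_mul, mul_comm]

lemma WaringLE.pred {s M r : ℕ} {G : MvPolynomial σ k} (hG : G.IsHomogeneous s) (hΦG : Φ G ≠ 0)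
    (h : WaringLE ((M + 1) * s) (fpow Φ (M + 1)) r) : WaringLE (M * s) (fpow Φ M) r := by
  obtain ⟨c, p, h⟩ := h
  refine ⟨fun i => c i * eval (p i ∘ Prod.mk (Fin.last M)) G * (Φ G)⁻¹,
    fun i => p i ∘ (Prod.map Fin.castSucc id), fun F hF => ?_⟩
  have h1 := fpow_succ Φ M F G
  rw [h _ (by
    have h2 := (hF.rename_isHomogeneous (f := (Prod.map Fin.castSucc id :
      Fin M × σ → Fin (M + 1) × σ))).mul (hG.rename_isHomogeneous (f := (Prod.mk (Fin.last M) :
        σ → Fin (M + 1) × σ)))
    rwa [← Nat.succ_mul] at h2)] at h1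
  have h3 : fpow Φ M F = (∑ i, c i * eval (p i) (rename (Prod.map Fin.castSucc id) F *
      rename (Prod.mk (Fin.last M)) G)) * (Φ G)⁻¹ := by
    rw [h1, mul_assoc, mul_inv_cancel₀ hΦG, mul_one]
  rw [h3, Finset.sum_mul]
  refine Finset.sum_congr rfl fun i _ => ?_
  rw [map_mul, eval_rename, eval_rename]
  ring

lemma WaringLE.anti {s M M' r : ℕ} {G : MvPolynomial σ k} (hG : G.IsHomogeneous s) (hΦG : Φ G ≠ 0)
    (hM : M ≤ M') (h : WaringLE (M' * s) (fpow Φ M') r) : WaringLE (M * s) (fpow Φ M) r := by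
  obtain ⟨t, rfl⟩ := Nat.exists_eq_add_of_le hM
  induction t with
  | zero => exact h
  | succ t ih => exact ih (by omega) (WaringLE.pred Φ hG hΦG h)

end Pool.Agent.H826R3.SM
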